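import Mathlib
set_option autoImplicit false

/-!
# Binary configurations without an `M(K₅)`-minor: basic definitions
-/

namespace Pool.Agent.H690K5
open Submodule

section Defs
variable {V : Type} [AddCommGroup V] [Module (ZMod 2) V]

/-- `v` is congruent modulo `W` to an element of `S`. -/
def InM (S : Set V) (W : Submodule (ZMod 2) V) (v : V) : Prop := ∃ s ∈ S, s + v ∈ W

/-- the four vectors are linearly independent modulo `W`. -/
def Ind4 (W : Submodule (ZMod 2) V) (a b c d : V) : Prop :=
  ∀ α β γ δ : ZMod 2, α • a + β • b + γ • c + δ • d ∈ W → α = 0 ∧ β = 0 ∧ γ = 0 ∧ δ = 0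

/-- The vector matroid of `S` has a minor `M(K₅)`: after contracting `C ⊆ S`, some four independent
vectors and their six pairwise sums are all represented in `S`. -/
def HasK5 (S : Set V) : Prop :=
  ∃ C : Set V, C ⊆ S ∧ ∃ a b c d : V, Ind4 (span (ZMod 2) C) a b c d ∧
    InM S (span (ZMod 2) C) a ∧ InM S (span (ZMod 2) C) b ∧ InM S (span (ZMod 2) C) c ∧
    InM S (span (ZMod 2) C) d ∧ InM S (span (ZMod 2) C) (a + b) ∧
    InM S (span (ZMod 2) C) (a + c) ∧ InM S (span (ZMod 2) C) (a + d) ∧
    InM S (span (ZMod 2) C) (b + c) ∧ InM S (span (ZMod 2) C) (b + d) ∧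
    InM S (span (ZMod 2) C) (c + d)

theorem InM.mono {S S' : Set V} (h : S ⊆ S') {W : Submodule (ZMod 2) V} {v : V}
    (hv : InM S W v) : InM S' W v := by
  obtain ⟨s, hs, hw⟩ := hv
  exact ⟨s, h hs, hw⟩

theorem HasK5.mono {S S' : Set V} (h : S ⊆ S') (hS : HasK5 S) : HasK5 S' := by
  obtain ⟨C, hC, a, b, c, d, hi, h1, h2, h3, h4, h5, h6, h7, h8, h9, h10⟩ := hS
  exact ⟨C, hC.trans h, a, b, c, d, hi, h1.mono h, h2.mono h, h3.mono h, h4.mono h, h5.mono h,
    h6.mono h, h7.mono h, h8.mono h, h9.mono h, h10.mono h⟩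

theorem InM.of_mem {S : Set V} (W : Submodule (ZMod 2) V) {v : V} (hv : v ∈ S) : InM S W v :=
  ⟨v, hv, by rw [ZModModule.add_self]; exact W.zero_mem⟩

theorem InM.congr {S : Set V} {W : Submodule (ZMod 2) V} {v w : V} (hv : InM S W v)
    (h : v + w ∈ W) : InM S W w := by
  obtain ⟨s, hs, hw⟩ := hv
  refine ⟨s, hs, ?_⟩
  have : s + w = (s + v) + (v + w) := by
    linear_combination (norm := module) - ZModModule.add_self v
  rw [this]
  exact W.add_mem hw h

instance finite_quot [Finite V] (W : Submodule (ZMod 2) V) : Finite (V ⧸ W) :=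
  Finite.of_surjective W.mkQ W.mkQ_surjective

/-- The span of the preimage of `C` together with the generators of the kernel is the full preimage
of the span. -/
theorem comap_span_eq (C0 S : Set V) (C : Set (V ⧸ span (ZMod 2) C0))
    (hC : C ⊆ (span (ZMod 2) C0).mkQ '' S) :
    span (ZMod 2) (C0 ∪ (S ∩ (span (ZMod 2) C0).mkQ ⁻¹' C)) =
      (span (ZMod 2) C).comap (span (ZMod 2) C0).mkQ := by
  set π := (span (ZMod 2) C0).mkQ with hπ
  have hmap : (span (ZMod 2) (C0 ∪ (S ∩ π ⁻¹' C))).map π = span (ZMod 2) C := by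
    rw [Submodule.map_span]
    apply le_antisymm
    · rw [Submodule.span_le]
      rintro _ ⟨v, hv | hv, rfl⟩
      · have : π v = 0 := by
          rw [hπ, Submodule.mkQ_apply, Submodule.Quotient.mk_eq_zero]
          exact Submodule.subset_span hv
        rw [this]
        exact Submodule.zero_mem _
      · exact Submodule.subset_span hv.2
    · rw [Submodule.span_le]
      intro y hy
      obtain ⟨v, hv, rfl⟩ := hC hy
      exact Submodule.subset_span ⟨v, Or.inr ⟨hv, hy⟩, rfl⟩
  rw [← hmap, Submodule.comap_map_eq, hπ, Submodule.ker_mkQ]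
  symm
  apply sup_eq_left.mpr
  exact Submodule.span_mono Set.subset_union_left

/-- A minor of a contraction is a minor. -/
theorem HasK5.of_contract {S : Set V} (C0 : Set V) (hC0 : C0 ⊆ S)
    (h : HasK5 ((span (ZMod 2) C0).mkQ '' S)) : HasK5 S := by
  obtain ⟨C, hC, a, b, c, d, hi, h1, h2, h3, h4, h5, h6, h7, h8, h9, h10⟩ := h
  set π := (span (ZMod 2) C0).mkQ with hπ
  have hsur : Function.Surjective π := Submodule.mkQ_surjective _
  obtain ⟨a, rfl⟩ := hsur a
  obtain ⟨b, rfl⟩ := hsur b
  obtain ⟨c, rfl⟩ := hsur c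
  obtain ⟨d, rfl⟩ := hsur d
  have key := comap_span_eq C0 S C hC
  have hIn : ∀ v : V, InM (π '' S) (span (ZMod 2) C) (π v) →
      InM S (span (ZMod 2) (C0 ∪ (S ∩ π ⁻¹' C))) v := by
    rintro v ⟨_, ⟨s, hs, rfl⟩, hsv⟩
    refine ⟨s, hs, ?_⟩
    rw [key, Submodule.mem_comap, map_add]
    exact hsv
  refine ⟨C0 ∪ (S ∩ π ⁻¹' C), Set.union_subset hC0 Set.inter_subset_left, a, b, c, d, ?_, hIn _ h1,
    hIn _ h2, hIn _ h3, hIn _ h4, hIn _ ?_, hIn _ ?_, hIn _ ?_, hIn _ ?_, hIn _ ?_, hIn _ ?_⟩
  · intro α β γ δ hh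
    apply hi α β γ δ
    rw [key, Submodule.mem_comap] at hh
    simpa only [map_add, map_smul] using hh
  all_goals rw [map_add]; assumption

/-- Two classes over a full line `{p, a, a + p}`, one with all four lifts and one with three lifts,
which are joined by a triangle, give an `M(K₅)`-minor. -/
theorem k5_of_classes {S C : Set V} (hC : C ⊆ S) {p a x y z : V}
    (hi : Ind4 (span (ZMod 2) C) p a x y) (hp : p ∈ S) (ha : a ∈ S) (hap : a + p ∈ S)
    (hx : x ∈ S) (hxp : x + p ∈ S) (hxa : x + a ∈ S)
    (hy : InM S (span (ZMod 2) C) y) (hyp : InM S (span (ZMod 2) C) (y + p))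
    (hya : InM S (span (ZMod 2) C) (y + a)) (hyap : InM S (span (ZMod 2) C) (y + a + p))
    (hz : z ∈ S) (ε δ : ZMod 2) (hxyz : x + y + z + (ε • p + δ • a) ∈ span (ZMod 2) C) :
    HasK5 S := by
  set W := span (ZMod 2) C with hW
  -- the representative of the full class
  set y' := y + (ε • p + δ • a) with hy'
  have h2 : (2 : ZMod 2) = 0 := rfl
  have e0 : ∀ c : ZMod 2, c = 0 ∨ c = 1 := by decide
  have Hy' : InM S W y' := by
    rcases e0 ε with rfl | rfl <;> rcases e0 δ with rfl | rfl
    · simpa [hy'] using hy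
    · simpa [hy'] using hya
    · simpa [hy'] using hyp
    · have : y' = y + a + p := by rw [hy']; module
      rw [this]; exact hyap
  have Hy'p : InM S W (y' + p) := by
    rcases e0 ε with rfl | rfl <;> rcases e0 δ with rfl | rfl
    · simpa [hy'] using hyp
    · have : y' + p = y + a + p := by rw [hy']; module
      rw [this]; exact hyap
    · have : y' + p = y := by
        rw [hy']; linear_combination (norm := module) ZModModule.add_self p
      rw [this]; exact hy
    · have : y' + p = y + a := by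
        rw [hy']; linear_combination (norm := module) ZModModule.add_self p
      rw [this]; exact hya
  have Hy'a : InM S W (y' + a) := by
    rcases e0 ε with rfl | rfl <;> rcases e0 δ with rfl | rfl
    · simpa [hy'] using hya
    · have : y' + a = y := by
        rw [hy']; linear_combination (norm := module) ZModModule.add_self a
      rw [this]; exact hy
    · have : y' + a = y + a + p := by rw [hy']; module
      rw [this]; exact hyap
    · have : y' + a = y + p := by
        rw [hy']; linear_combination (norm := module) ZModModule.add_self a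
      rw [this]; exact hyp
  refine ⟨C, hC, x, y', p, a, ?_, InM.of_mem _ hx, Hy', InM.of_mem _ hp, InM.of_mem _ ha, ?_,
    InM.of_mem _ hxp, InM.of_mem _ hxa, Hy'p, Hy'a, ?_⟩
  · intro α β γ κ h
    have := hi (γ + β * ε) (κ + β * δ) α β (by
      have e : (γ + β * ε) • p + (κ + β * δ) • a + α • x + β • y
          = α • x + β • y' + γ • p + κ • a := by
        rw [hy']; module
      rw [e]; exact h)
    obtain ⟨h1, h2, h3, h4⟩ := this
    subst h4 h3
    simp at h1 h2
    exact ⟨rfl, rfl, h1, h2⟩
  · refine ⟨z, hz, ?_⟩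
    have : z + (x + y') = x + y + z + (ε • p + δ • a) := by rw [hy']; module
    rw [this]; exact hxyz
  · rw [add_comm p a]; exact InM.of_mem _ hap

end Defs

end Pool.Agent.H690K5
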