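import Mathlib
set_option autoImplicit false

/-!
# Linear algebra over the field with two elements
-/

namespace Pool.Agent.H690K5
open Submodule

section Lin
variable {V : Type} [AddCommGroup V] [Module (ZMod 2) V]

/-- A functional with prescribed values on an independent set. -/
theorem exists_values {B : Set V} (hB : LinearIndepOn (ZMod 2) id B) (g : V → ZMod 2) :
    ∃ f : V →ₗ[ZMod 2] ZMod 2, ∀ b ∈ B, f b = g b := by
  classical
  let β := Module.Basis.extend hB
  refine ⟨β.constr (ZMod 2) (fun i => g i.1), fun b hb => ?_⟩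
  have hb' : b ∈ hB.extend (Set.subset_univ B) := LinearIndepOn.subset_extend hB _ hb
  have h1 : β ⟨b, hb'⟩ = b := by
    simp [β, Module.Basis.extend_apply_self]
  have h2 := β.constr_basis (ZMod 2) (fun i => g i.1) ⟨b, hb'⟩
  rw [h1] at h2
  exact h2

theorem zmod2_cases (c : ZMod 2) : c = 0 ∨ c = 1 := by
  revert c; decide

theorem sum_smul_eq (D : Finset V) (f : V → ZMod 2) :
    ∑ v ∈ D, f v • v = ∑ v ∈ D.filter (fun v => f v = 1), v := by
  classical
  rw [Finset.sum_filter]
  refine Finset.sum_congr rfl fun v _ => ?_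
  rcases zmod2_cases (f v) with h | h <;> simp [h]

/-- Independence over the field with two elements: no nonempty subset has zero sum. -/
theorem indep_of_sums {D : Finset V} (h : ∀ D' ⊆ D, D'.Nonempty → ∑ v ∈ D', v ≠ 0) :
    LinearIndepOn (ZMod 2) id (D : Set V) := by
  classical
  rw [linearIndepOn_finset_iff]
  intro f hf i hi
  by_contra hne
  have h1 : f i = 1 := (zmod2_cases (f i)).resolve_left hne
  simp only [id] at hf
  rw [sum_smul_eq] at hf
  exact h _ (Finset.filter_subset _ _) ⟨i, Finset.mem_filter.mpr ⟨hi, h1⟩⟩ hf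

theorem sums_of_indep {D : Finset V} (h : LinearIndepOn (ZMod 2) id (D : Set V)) :
    ∀ D' ⊆ D, D'.Nonempty → ∑ v ∈ D', v ≠ 0 := by
  classical
  rintro D' hD' ⟨i, hi⟩ h0
  rw [linearIndepOn_finset_iff] at h
  have := h (fun v => if v ∈ D' then 1 else 0) (by
    simp only [id, ite_smul, one_smul, zero_smul]
    rw [← Finset.sum_filter, Finset.filter_mem_eq_inter, Finset.inter_eq_right.mpr hD']
    exact h0) i (hD' hi)
  simp [hi] at this

theorem sum_of_mem_span {D : Finset V} {x : V} (h : x ∈ span (ZMod 2) (D : Set V)) :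
    ∃ D' ⊆ D, x = ∑ v ∈ D', v := by
  classical
  obtain ⟨f, -, hf⟩ := Submodule.mem_span_finset.mp h
  rw [sum_smul_eq] at hf
  exact ⟨_, Finset.filter_subset _ _, hf.symm⟩

theorem sum_mem_span {D : Finset V} {C : Set V} (h : ∀ v ∈ D, v ∈ span (ZMod 2) C) :
    ∑ v ∈ D, v ∈ span (ZMod 2) C := Submodule.sum_mem _ h

/-- If a linear map is injective and has independent image on a set, then its kernel meets the span
of the set trivially. -/
theorem disjoint_ker_of_indep {R : Type} [AddCommGroup R] [Module (ZMod 2) R]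
    (π : V →ₗ[ZMod 2] R) {C : Set V} (h : LinearIndepOn (ZMod 2) π C) :
    ∀ v ∈ span (ZMod 2) C, π v = 0 → v = 0 := by
  intro v hv h0
  rw [← Set.image_id C, Finsupp.mem_span_image_iff_linearCombination] at hv
  obtain ⟨l, hl, rfl⟩ := hv
  have h1 : Finsupp.linearCombination (ZMod 2) π l = 0 := by
    rw [← h0, Finsupp.linearCombination_apply, Finsupp.linearCombination_apply, map_finsuppSum]
    simp
  have h2 := (linearIndepOn_iff.mp h) l hl h1
  rw [h2]; simp

/-- A finite set of vectors contains, over any independent subset, an independent subset with the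
same span. -/
theorem exists_indep_span {s t : Set V} (hs : LinearIndepOn (ZMod 2) id s) (hst : s ⊆ t) :
    ∃ b ⊆ t, s ⊆ b ∧ span (ZMod 2) b = span (ZMod 2) t ∧ LinearIndepOn (ZMod 2) id b := by
  obtain ⟨b, h1, h2, h3, h4⟩ := exists_linearIndepOn_id_extension hs hst
  exact ⟨b, h1, h2, le_antisymm (Submodule.span_mono h1) (Submodule.span_le.mpr h3), h4⟩

end Lin

end Pool.Agent.H690K5
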