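import Pool.Agent.H690K5.Basic
import Pool.Agent.H690K5.Lin
set_option autoImplicit false
set_option linter.unusedSectionVars false
set_option linter.style.haveILetI false

/-!
# The counting identity for the two contractions of a full line
-/

namespace Pool.Agent.H690K5
open Submodule

/-- total of a natural valued function on a finite type. -/
noncomputable def tot {X : Type} [Finite X] (f : X → ℕ) : ℕ :=
  letI := Fintype.ofFinite X
  ∑ v, f v

section Tot
variable {X : Type} [Finite X]

theorem tot_add (f g : X → ℕ) : tot (fun v => f v + g v) = tot f + tot g := by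
  unfold tot; exact Finset.sum_add_distrib

theorem tot_mul (c : ℕ) (f : X → ℕ) : tot (fun v => c * f v) = c * tot f := by
  unfold tot; rw [Finset.mul_sum]

theorem tot_mono {f g : X → ℕ} (h : ∀ v, f v ≤ g v) : tot f ≤ tot g := by
  unfold tot; exact Finset.sum_le_sum fun v _ => h v

theorem tot_congr {f g : X → ℕ} (h : ∀ v, f v = g v) : tot f = tot g := by
  rw [funext h]

theorem tot_equiv {Y : Type} [Finite Y] (e : X ≃ Y) (f : Y → ℕ) :
    tot (fun v => f (e v)) = tot f := by
  unfold tot
  letI := Fintype.ofFinite X
  letI := Fintype.ofFinite Y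
  exact Equiv.sum_comp e f

theorem tot_translate {V : Type} [AddCommGroup V] [Finite V] (f : V → ℕ) (u : V) :
    tot (fun v => f (v + u)) = tot f := tot_equiv (Equiv.addRight u) f

open Classical in
theorem tot_ind (A : Set X) (c : ℕ) : tot (fun v => if v ∈ A then c else 0) = c * A.ncard := by
  unfold tot
  letI := Fintype.ofFinite X
  rw [← Finset.sum_filter, Finset.sum_const, smul_eq_mul, mul_comm]
  congr 1
  rw [← Set.ncard_coe_finset]
  congr 1
  ext v; simp

theorem tot_quot {V : Type} [AddCommGroup V] [Module (ZMod 2) V] [Finite V] {a : V} (ha : a ≠ 0)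
    (g : V ⧸ span (ZMod 2) {a} → ℕ) :
    tot (fun v : V => g ((span (ZMod 2) {a}).mkQ v)) = 2 * tot g := by
  classical
  unfold tot
  letI := Fintype.ofFinite V
  letI := Fintype.ofFinite (V ⧸ span (ZMod 2) {a})
  set π := (span (ZMod 2) {a}).mkQ with hπ
  rw [Finset.mul_sum, ← Finset.sum_fiberwise (s := Finset.univ) (g := fun v : V => π v)]
  refine Finset.sum_congr rfl fun y _ => ?_
  rw [Finset.sum_congr rfl (g := fun _ => g y) (by
    intro v hv; rw [(Finset.mem_filter.mp hv).2])]
  rw [Finset.sum_const, smul_eq_mul]
  congr 1
  obtain ⟨v0, rfl⟩ := Submodule.mkQ_surjective _ y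
  have : (Finset.univ.filter fun v : V => π v = π v0) = {v0, v0 + a} := by
    ext v
    simp only [Finset.mem_filter, Finset.mem_univ, true_and, Finset.mem_insert,
      Finset.mem_singleton]
    rw [← sub_eq_zero, ← map_sub, hπ, Submodule.mkQ_apply, Submodule.Quotient.mk_eq_zero,
      Submodule.mem_span_singleton]
    constructor
    · rintro ⟨c, hc⟩
      rcases zmod2_cases c with rfl | rfl
      · left; rw [zero_smul] at hc; exact (sub_eq_zero.mp hc.symm)
      · right; rw [one_smul] at hc; rw [hc]; abel
    · rintro (rfl | rfl)
      · exact ⟨0, by simp⟩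
      · exact ⟨1, by simp⟩
  rw [show (Finset.univ.filter fun v : V => π v = (span (ZMod 2) {a}).mkQ v0) = {v0, v0 + a} from
    this]
  rw [Finset.card_pair]
  intro h
  apply ha
  have := congrArg (fun w => w - v0) h
  simpa using this.symm

end Tot

section Phi
variable {V : Type} [AddCommGroup V] [Module (ZMod 2) V]

open Classical in
/-- indicator -/
noncomputable def ind (S : Set V) (v : V) : ℕ := if v ∈ S then 1 else 0

open Classical in
theorem tot_indS [Finite V] (A : Set V) : tot (ind A) = A.ncard := by
  have := tot_ind A 1
  rw [one_mul] at this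
  rw [← this]
  rfl

theorem ind_of_mem {S : Set V} {v : V} (h : v ∈ S) : ind S v = 1 := if_pos h
theorem ind_of_notMem {S : Set V} {v : V} (h : v ∉ S) : ind S v = 0 := if_neg h

open Classical in
/-- Twice the number of elements of `S` other than `p`, plus twice the number of full lines
through `p`. -/
noncomputable def Phi2 [Finite V] (S : Set V) (p : V) : ℕ :=
  tot (fun v : V => if v = 0 ∨ v = p then 0 else 2 * ind S v + ind S v * ind S (v + p))

/-- the four points of the subspace spanned by `p` and `a` -/
def InL (p a v : V) : Prop := v = 0 ∨ v = p ∨ v = a ∨ v = a + p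

theorem inL_add_p {p a v : V} : InL p a (v + p) ↔ InL p a v := by
  have key : ∀ w : V, InL p a w → InL p a (w + p) := by
    rintro w (rfl | rfl | rfl | rfl)
    · right; left; simp
    · left; exact ZModModule.add_self _
    · right; right; right; rfl
    · right; right; left
      linear_combination (norm := module) ZModModule.add_self p
  refine ⟨fun h => ?_, key v⟩
  have := key _ h
  have e : v + p + p = v := by linear_combination (norm := module) ZModModule.add_self p
  rwa [e] at this

theorem inL_add_a {p a v : V} : InL p a (v + a) ↔ InL p a v := by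
  have key : ∀ w : V, InL p a w → InL p a (w + a) := by
    rintro w (rfl | rfl | rfl | rfl)
    · right; right; left; simp
    · right; right; right; abel
    · left; exact ZModModule.add_self _
    · right; left
      linear_combination (norm := module) ZModModule.add_self a
  refine ⟨fun h => ?_, key v⟩
  have := key _ h
  have e : v + a + a = v := by linear_combination (norm := module) ZModModule.add_self a
  rwa [e] at this

/-- the contraction of `a`, as a set of nonzero vectors. -/
def contr (S : Set V) (a : V) : Set (V ⧸ span (ZMod 2) {a}) :=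
  ((span (ZMod 2) {a}).mkQ '' S) \ {0}

theorem mkQ_eq_zero_iff {a v : V} : (span (ZMod 2) {a}).mkQ v = 0 ↔ v = 0 ∨ v = a := by
  rw [Submodule.mkQ_apply, Submodule.Quotient.mk_eq_zero, Submodule.mem_span_singleton]
  constructor
  · rintro ⟨c, hc⟩
    rcases zmod2_cases c with rfl | rfl
    · left; simpa using hc.symm
    · right; simpa using hc.symm
  · rintro (rfl | rfl)
    · exact ⟨0, by simp⟩
    · exact ⟨1, by simp⟩

theorem mem_contr_iff {S : Set V} {a v : V} :
    (span (ZMod 2) {a}).mkQ v ∈ contr S a ↔ (v ≠ 0 ∧ v ≠ a) ∧ (v ∈ S ∨ v + a ∈ S) := by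
  unfold contr
  rw [Set.mem_sdiff, Set.mem_singleton_iff, mkQ_eq_zero_iff]
  push Not
  rw [and_comm]
  apply and_congr Iff.rfl
  constructor
  · rintro ⟨s, hs, h⟩
    rw [← sub_eq_zero, ← map_sub, mkQ_eq_zero_iff] at h
    rcases h with h | h
    · left; rwa [← sub_eq_zero.mp h]
    · right
      have : v + a = s := by
        rw [← h]; linear_combination (norm := module) ZModModule.add_self v - ZModModule.add_self v
      rwa [this]
  · rintro (h | h)
    · exact ⟨v, h, rfl⟩
    · refine ⟨v + a, h, ?_⟩
      rw [← sub_eq_zero, ← map_sub, mkQ_eq_zero_iff]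
      right; abel

open Classical in
theorem phi2_contr [Finite V] {S : Set V} {p a : V} (ha : a ≠ 0) :
    2 * Phi2 (contr S a) ((span (ZMod 2) {a}).mkQ p) =
      tot (fun v => if InL p a v then 0 else
        2 * max (ind S v) (ind S (v + a)) +
          max (ind S v) (ind S (v + a)) * max (ind S (v + p)) (ind S (v + p + a))) := by
  unfold Phi2
  rw [← tot_quot ha]
  apply tot_congr
  intro v
  set π := (span (ZMod 2) {a}).mkQ with hπ
  have h1 : π v = 0 ∨ π v = π p ↔ InL p a v := by
    rw [← sub_eq_zero (a := π v) (b := π p), ← map_sub, hπ, mkQ_eq_zero_iff, mkQ_eq_zero_iff]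
    unfold InL
    rw [sub_eq_zero, sub_eq_iff_eq_add]
    tauto
  by_cases h : InL p a v
  · rw [if_pos h, if_pos (h1.mpr h)]
  · rw [if_neg h, if_neg (fun h' => h (h1.mp h')), ← map_add]
    have hind : ∀ w : V, ¬ InL p a w → ind (contr S a) (π w) = max (ind S w) (ind S (w + a)) := by
      intro w hw
      have h0 : w ≠ 0 ∧ w ≠ a := by
        unfold InL at hw
        tauto
      by_cases h1 : w ∈ S
      · rw [ind_of_mem (mem_contr_iff.mpr ⟨h0, Or.inl h1⟩), ind_of_mem h1]
        unfold ind; split_ifs <;> rfl
      · by_cases h2 : w + a ∈ S
        · rw [ind_of_mem (mem_contr_iff.mpr ⟨h0, Or.inr h2⟩), ind_of_mem h2, ind_of_notMem h1]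
          rfl
        · rw [ind_of_notMem h1, ind_of_notMem h2, ind_of_notMem]
          · rfl
          · rw [mem_contr_iff]; tauto
    rw [hind v h, hind (v + p) (fun h' => h (inL_add_p.mp h'))]

open Classical in
/-- number of elements of `S` among the four lifts of a class, and the resulting penalty. -/
noncomputable def pen (S : Set V) (p a v : V) : ℕ :=
  if InL p a v then 0 else
    if ind S v + ind S (v + p) + ind S (v + a) + ind S (v + a + p) = 3 then 2 else
      if ind S v + ind S (v + p) + ind S (v + a) + ind S (v + a + p) = 4 then 6 else 0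

theorem ind_cases (S : Set V) (v : V) : ind S v = 0 ∨ ind S v = 1 := by
  by_cases h : v ∈ S
  · right; exact ind_of_mem h
  · left; exact ind_of_notMem h

open Classical in
/-- The counting identity for the two contractions of the full line `{p, a, a + p}`. -/
theorem count_identity [Finite V] {S : Set V} {p a : V} (hp : p ≠ 0) (ha : a ≠ 0) (hpa : a ≠ p)
    (haS : a ∈ S) (hapS : a + p ∈ S) (hpS : p ∈ S) :
    4 * Phi2 S p = 24 + 2 * Phi2 (contr S a) ((span (ZMod 2) {a}).mkQ p) +
      2 * Phi2 (contr S (a + p)) ((span (ZMod 2) {a + p}).mkQ p) + tot (pen S p a) := by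
  have hap : a + p ≠ 0 := by
    intro h
    apply hpa
    linear_combination (norm := module) h - ZModModule.add_self p
  rw [phi2_contr ha, phi2_contr hap]
  set H : V → ℕ := fun v => if InL p a v then 0 else 2 * ind S v + ind S v * ind S (v + p)
    with hH
  have hInL : ∀ v, InL p (a + p) v ↔ InL p a v := by
    intro v
    unfold InL
    have : a + p + p = a := by linear_combination (norm := module) ZModModule.add_self p
    rw [this]
    tauto
  set G1 : V → ℕ := fun v => if InL p a v then 0 else
        2 * max (ind S v) (ind S (v + a)) +
          max (ind S v) (ind S (v + a)) * max (ind S (v + p)) (ind S (v + a + p)) with hG1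
  set G2 : V → ℕ := fun v => if InL p a v then 0 else
        2 * max (ind S v) (ind S (v + a + p)) +
          max (ind S v) (ind S (v + a + p)) * max (ind S (v + p)) (ind S (v + a)) with hG2
  have e1 : tot (fun v => if InL p a v then 0 else
        2 * max (ind S v) (ind S (v + a)) +
          max (ind S v) (ind S (v + a)) * max (ind S (v + p)) (ind S (v + p + a))) = tot G1 := by
    apply tot_congr; intro v; simp only [hG1]; rw [add_right_comm v p a]
  have e2 : tot (fun v => if InL p (a + p) v then 0 else
        2 * max (ind S v) (ind S (v + (a + p))) +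
          max (ind S v) (ind S (v + (a + p))) * max (ind S (v + p)) (ind S (v + p + (a + p))))
        = tot G2 := by
    apply tot_congr; intro v; simp only [hG2, hInL]
    have h1 : v + (a + p) = v + a + p := by abel
    have h2 : v + p + (a + p) = v + a := by
      linear_combination (norm := module) ZModModule.add_self p
    rw [h1, h2]
  rw [e1, e2]
  -- the contribution of the line
  have e3 : Phi2 S p = 6 + tot H := by
    unfold Phi2
    have i1 : InL p a 0 := Or.inl rfl
    have i2 : InL p a p := Or.inr (Or.inl rfl)
    have i3 : InL p a a := Or.inr (Or.inr (Or.inl rfl))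
    have i4 : InL p a (a + p) := Or.inr (Or.inr (Or.inr rfl))
    have hap2 : a + p ≠ p := by intro h; apply ha; simpa using h
    have this : ∀ v, (if v = 0 ∨ v = p then 0 else 2 * ind S v + ind S v * ind S (v + p)) =
        3 * ind ({a, a + p} : Set V) v + H v := by
      intro v
      simp only [hH]
      by_cases h0 : v = 0
      · rw [h0, if_pos (Or.inl rfl), if_pos i1, ind_of_notMem]
        rintro (h | h)
        · exact ha h.symm
        · exact hap h.symm
      by_cases h1 : v = p
      · rw [h1, if_pos (Or.inr rfl), if_pos i2, ind_of_notMem]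
        rintro (h | h)
        · exact hpa h.symm
        · exact hap2 h.symm
      by_cases h2 : v = a
      · rw [h2, if_neg (by tauto), if_pos i3, ind_of_mem haS, ind_of_mem hapS,
          ind_of_mem (Set.mem_insert _ _)]
      by_cases h3 : v = a + p
      · have : a + p + p = a := by linear_combination (norm := module) ZModModule.add_self p
        rw [h3, if_neg (by tauto), if_pos i4, this, ind_of_mem hapS, ind_of_mem haS,
          ind_of_mem (Set.mem_insert_of_mem _ (Set.mem_singleton _))]
      have h5 : ind ({a, a + p} : Set V) v = 0 := by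
        apply ind_of_notMem
        rintro (h | h)
        · exact h2 h
        · exact h3 h
      rw [if_neg (by tauto), if_neg (by unfold InL; tauto), h5]
      simp
    rw [tot_congr this, tot_add, tot_mul, tot_indS, Set.ncard_pair]
    intro h; apply hp; simpa using h.symm
  rw [e3]
  -- symmetrisation
  have sym : ∀ f : V → ℕ, tot (fun v => f v + f (v + p) + f (v + a) + f (v + a + p)) =
      4 * tot f := by
    intro f
    have t1 := tot_translate f p
    have t2 := tot_translate f a
    have t3 : tot (fun v => f (v + a + p)) = tot f := by
      have := tot_translate f (a + p)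
      rw [← this]; apply tot_congr; intro v; rw [add_assoc]
    rw [tot_add (fun v => f v + f (v + p) + f (v + a)) (fun v => f (v + a + p)),
      tot_add (fun v => f v + f (v + p)) (fun v => f (v + a)), tot_add, t1, t2, t3]
    ring
  have s1 := sym H
  have s2 := sym G1
  have s3 := sym G2
  have key : tot (fun v => 4 * (H v + H (v + p) + H (v + a) + H (v + a + p))) =
      tot (fun v => ((G1 v + G1 (v + p) + G1 (v + a) + G1 (v + a + p)) +
        (G2 v + G2 (v + p) + G2 (v + a) + G2 (v + a + p))) + 4 * pen S p a v) := by
    apply tot_congr
    intro v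
    have n1 : v + p + p = v := by linear_combination (norm := module) ZModModule.add_self p
    have n2 : v + a + a = v := by linear_combination (norm := module) ZModModule.add_self a
    have n3 : v + p + a = v + a + p := by abel
    have n4 : v + a + p + p = v + a := by
      linear_combination (norm := module) ZModModule.add_self p
    have n5 : v + a + p + a = v + p := by
      linear_combination (norm := module) ZModModule.add_self a
    simp only [hH, hG1, hG2, pen, inL_add_p, inL_add_a, n1, n2, n3, n4, n5]
    by_cases h : InL p a v
    · simp only [if_pos h]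
    · simp only [if_neg h]
      rcases ind_cases S v with h1 | h1 <;> rcases ind_cases S (v + p) with h2 | h2 <;>
        rcases ind_cases S (v + a) with h3 | h3 <;> rcases ind_cases S (v + a + p) with h4 | h4 <;>
        simp [h1, h2, h3, h4]
  rw [tot_mul 4 (fun v => H v + H (v + p) + H (v + a) + H (v + a + p)),
    tot_add (fun v => (G1 v + G1 (v + p) + G1 (v + a) + G1 (v + a + p)) +
        (G2 v + G2 (v + p) + G2 (v + a) + G2 (v + a + p))) (fun v => 4 * pen S p a v),
    tot_add (fun v => (G1 v + G1 (v + p) + G1 (v + a) + G1 (v + a + p)))
      (fun v => (G2 v + G2 (v + p) + G2 (v + a) + G2 (v + a + p))),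
    tot_mul 4 (pen S p a), s1, s2, s3] at key
  omega

end Phi

end Pool.Agent.H690K5
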