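import Pool.Agent.H690K5.Lin
set_option autoImplicit false
set_option linter.unusedSectionVars false

/-!
# Rado's theorem over the field with two elements, and the covering theorem
-/

namespace Pool.Agent.H690K5
open Submodule

/-- Rado's theorem for binary vectors. -/
theorem rado {U ι : Type} [AddCommGroup U] [Module (ZMod 2) U] [Finite U] [Fintype ι]
    [DecidableEq ι] (n : ℕ) : ∀ (A : ι → Finset U), ∑ i, (A i).card = n →
    (∀ X : Finset ι, X.card ≤
      Module.finrank (ZMod 2) (span (ZMod 2) (⋃ i ∈ X, (A i : Set U)))) →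
    ∃ f : ι → U, (∀ i, f i ∈ A i) ∧ LinearIndependent (ZMod 2) f := by
  classical
  induction n using Nat.strong_induction_on with
  | _ n ih =>
  intro A hn hA
  by_cases hall : ∀ i, (A i).card ≤ 1
  · have hne : ∀ i, ∃ x, A i = {x} := by
      intro i
      rw [← Finset.card_eq_one]
      have h1 := hA {i}
      rw [Finset.card_singleton] at h1
      have h2 : (A i).Nonempty := by
        rw [Finset.nonempty_iff_ne_empty]
        intro hh
        simp [hh] at h1
      have := h2.card_pos
      have := hall i
      omega
    choose f hf using hne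
    refine ⟨f, fun i => by rw [hf i]; exact Finset.mem_singleton_self _, ?_⟩
    rw [linearIndependent_iff_card_le_finrank_span]
    have h1 := hA Finset.univ
    have h2 : (⋃ i ∈ (Finset.univ : Finset ι), (A i : Set U)) = Set.range f := by
      ext x
      simp only [Finset.mem_univ, Set.iUnion_true, Set.mem_iUnion, Set.mem_range]
      constructor
      · rintro ⟨i, hi⟩
        rw [hf i] at hi
        have hxi : x = f i := by simpa using hi
        exact ⟨i, hxi.symm⟩
      · rintro ⟨i, rfl⟩
        exact ⟨i, by rw [hf i]; simp⟩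
    rw [h2] at h1
    exact h1
  · push Not at hall
    obtain ⟨i0, hi0⟩ := hall
    obtain ⟨x, hx, y, hy, hxy⟩ := Finset.one_lt_card.mp hi0
    -- removing an element
    have hrem : ∀ z ∈ A i0, (∃ f : ι → U, (∀ i, f i ∈ A i) ∧ LinearIndependent (ZMod 2) f) ∨
        ∃ X : Finset ι, i0 ∈ X ∧ Module.finrank (ZMod 2) (span (ZMod 2)
          (⋃ i ∈ X, ((Function.update A i0 ((A i0).erase z)) i : Set U))) + 1 ≤ X.card := by
      intro z hz
      set A' := Function.update A i0 ((A i0).erase z) with hA'
      by_cases hgood : ∀ X : Finset ι, X.card ≤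
          Module.finrank (ZMod 2) (span (ZMod 2) (⋃ i ∈ X, (A' i : Set U)))
      · left
        have hlt : ∑ i, (A' i).card < n := by
          rw [← hn]
          apply Finset.sum_lt_sum
          · intro i _
            by_cases h : i = i0
            · subst h; rw [hA', Function.update_self]
              exact Finset.card_le_card (Finset.erase_subset _ _)
            · rw [hA', Function.update_of_ne h]
          · refine ⟨i0, Finset.mem_univ _, ?_⟩
            rw [hA', Function.update_self]
            exact Finset.card_erase_lt_of_mem hz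
        obtain ⟨f, hf1, hf2⟩ := ih _ hlt A' rfl hgood
        refine ⟨f, fun i => ?_, hf2⟩
        have := hf1 i
        by_cases h : i = i0
        · subst h; rw [hA', Function.update_self] at this
          exact Finset.mem_of_mem_erase this
        · rwa [hA', Function.update_of_ne h] at this
      · right
        push Not at hgood
        obtain ⟨X, hX⟩ := hgood
        refine ⟨X, ?_, hX⟩
        by_contra hcon
        have h1 := hA X
        have h2 : (⋃ i ∈ X, (A' i : Set U)) = ⋃ i ∈ X, (A i : Set U) := by
          refine Set.iUnion₂_congr fun i hi => ?_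
          rw [hA', Function.update_of_ne]
          rintro rfl; exact hcon hi
        rw [h2] at hX
        omega
    rcases hrem x hx with h1 | ⟨X, hX0, hX⟩
    · exact h1
    rcases hrem y hy with h1 | ⟨Y, hY0, hY⟩
    · exact h1
    exfalso
    set P := span (ZMod 2) (⋃ i ∈ X, ((Function.update A i0 ((A i0).erase x)) i : Set U)) with hP
    set Q := span (ZMod 2) (⋃ i ∈ Y, ((Function.update A i0 ((A i0).erase y)) i : Set U)) with hQ
    have hsub : ∀ (T : Finset ι) (z : U) (i : ι), i ∈ T → i ≠ i0 → ∀ v ∈ A i,
        v ∈ span (ZMod 2) (⋃ i ∈ T, ((Function.update A i0 ((A i0).erase z)) i : Set U)) := by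
      intro T z i hi hne v hv
      apply Submodule.subset_span
      rw [Set.mem_iUnion₂]
      refine ⟨i, hi, ?_⟩
      rw [Function.update_of_ne hne]; exact hv
    have hsub0 : ∀ (T : Finset ι) (z : U), i0 ∈ T → ∀ v ∈ A i0, v ≠ z →
        v ∈ span (ZMod 2) (⋃ i ∈ T, ((Function.update A i0 ((A i0).erase z)) i : Set U)) := by
      intro T z hi v hv hne
      apply Submodule.subset_span
      rw [Set.mem_iUnion₂]
      refine ⟨i0, hi, ?_⟩
      rw [Function.update_self]; exact Finset.mem_erase.mpr ⟨hne, hv⟩
    have h1 : span (ZMod 2) (⋃ i ∈ X ∪ Y, (A i : Set U)) ≤ P ⊔ Q := by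
      rw [Submodule.span_le]
      intro v hv
      rw [Set.mem_iUnion₂] at hv
      obtain ⟨i, hi, hvi⟩ := hv
      by_cases hi0' : i = i0
      · subst hi0'
        by_cases hvx : v = x
        · exact Submodule.mem_sup_right (hsub0 Y y hY0 v hvi (by rw [hvx]; exact hxy))
        · exact Submodule.mem_sup_left (hsub0 X x hX0 v hvi hvx)
      · rcases Finset.mem_union.mp hi with h | h
        · exact Submodule.mem_sup_left (hsub X x i h hi0' v hvi)
        · exact Submodule.mem_sup_right (hsub Y y i h hi0' v hvi)
    have h2 : span (ZMod 2) (⋃ i ∈ (X ∩ Y).erase i0, (A i : Set U)) ≤ P ⊓ Q := by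
      rw [Submodule.span_le]
      intro v hv
      rw [Set.mem_iUnion₂] at hv
      obtain ⟨i, hi, hvi⟩ := hv
      have hne := Finset.ne_of_mem_erase hi
      have hm := Finset.mem_inter.mp (Finset.mem_of_mem_erase hi)
      exact ⟨hsub X x i hm.1 hne v hvi, hsub Y y i hm.2 hne v hvi⟩
    have h3 := Submodule.finrank_mono h1
    have h4 := Submodule.finrank_mono h2
    have h5 := finrank_sup_add_finrank_inf_eq P Q
    have h6 := hA (X ∪ Y)
    have h7 := hA ((X ∩ Y).erase i0)
    have h8 := Finset.card_union_add_card_inter X Y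
    rw [Finset.card_erase_of_mem (Finset.mem_inter.mpr ⟨hX0, hY0⟩)] at h7
    have h9 : 0 < (X ∩ Y).card := Finset.card_pos.mpr ⟨i0, Finset.mem_inter.mpr ⟨hX0, hY0⟩⟩
    omega

/-- If every subset `X` of a set of binary vectors has at most `k` times its rank elements, then
some linear map to `GF(2)^k` has no zero on the set. -/
theorem cover {V : Type} [AddCommGroup V] [Module (ZMod 2) V] [Finite V] (S : Finset V) (k : ℕ)
    (h : ∀ X ⊆ S, X.card ≤ k * Module.finrank (ZMod 2) (span (ZMod 2) (X : Set V))) :
    ∃ F : V →ₗ[ZMod 2] (Fin k → ZMod 2), ∀ v ∈ S, F v ≠ 0 := by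
  classical
  let A : S → Finset (Fin k → V) := fun s => Finset.univ.image (fun i : Fin k => Pi.single i s.1)
  have hA : ∀ X : Finset S, X.card ≤
      Module.finrank (ZMod 2) (span (ZMod 2) (⋃ i ∈ X, (A i : Set (Fin k → V)))) := by
    intro X
    set X' : Finset V := X.image Subtype.val with hX'
    have hX'S : X' ⊆ S := by
      intro v hv
      obtain ⟨s, -, rfl⟩ := Finset.mem_image.mp hv
      exact s.2
    have hc : X'.card = X.card := Finset.card_image_of_injective _ Subtype.val_injective
    set T := span (ZMod 2) (⋃ i ∈ X, (A i : Set (Fin k → V))) with hT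
    have hsingle : ∀ (i : Fin k) (v : V), v ∈ span (ZMod 2) (X' : Set V) →
        (Pi.single i v : Fin k → V) ∈ T := by
      intro i v hv
      have h1 : span (ZMod 2) (X' : Set V) ≤
          T.comap (LinearMap.single (ZMod 2) (fun _ : Fin k => V) i) := by
        rw [Submodule.span_le]
        intro w hw
        obtain ⟨s, hs, rfl⟩ := Finset.mem_image.mp (Finset.mem_coe.mp hw)
        rw [SetLike.mem_coe, Submodule.mem_comap]
        apply Submodule.subset_span
        rw [Set.mem_iUnion₂]
        refine ⟨s, hs, ?_⟩
        rw [Finset.mem_coe]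
        exact Finset.mem_image.mpr ⟨i, Finset.mem_univ _, rfl⟩
      exact h1 hv
    let g : (Fin k → span (ZMod 2) (X' : Set V)) →ₗ[ZMod 2] T :=
      LinearMap.codRestrict T
        (LinearMap.pi fun i => (span (ZMod 2) (X' : Set V)).subtype ∘ₗ LinearMap.proj i) (by
          intro u
          have : (LinearMap.pi fun i => (span (ZMod 2) (X' : Set V)).subtype ∘ₗ LinearMap.proj i)
              u = ∑ i, (Pi.single i (u i).1 : Fin k → V) := by
            rw [Finset.univ_sum_single]; rfl
          rw [this]
          exact Submodule.sum_mem _ fun i _ => hsingle i _ (u i).2)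
    have hg : Function.Injective g := by
      intro u w huw
      ext i
      have := congrArg (fun t : T => t.1 i) huw
      exact this
    have h1 := LinearMap.finrank_le_finrank_of_injective hg
    have h2 : Module.finrank (ZMod 2) (Fin k → span (ZMod 2) (X' : Set V)) =
        k * Module.finrank (ZMod 2) (span (ZMod 2) (X' : Set V)) := by
      rw [Module.finrank_pi_fintype]; simp
    have h3 := h X' hX'S
    omega
  obtain ⟨f, hf, hfind⟩ := rado _ A rfl hA
  have hval : ∀ s : S, ∃ i : Fin k, f s = Pi.single i s.1 := by
    intro s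
    obtain ⟨i, -, hi⟩ := Finset.mem_image.mp (hf s)
    exact ⟨i, hi.symm⟩
  obtain ⟨G, hG⟩ := exists_values hfind.linearIndepOn_id (fun _ => 1)
  refine ⟨LinearMap.pi fun i => G ∘ₗ LinearMap.single (ZMod 2) (fun _ : Fin k => V) i, ?_⟩
  intro v hv h0
  obtain ⟨i, hi⟩ := hval ⟨v, hv⟩
  have h1 := congrFun h0 i
  have h2 := hG (f ⟨v, hv⟩) ⟨_, rfl⟩
  rw [hi] at h2
  have h3 : G (Pi.single i v) = 0 := h1
  rw [h3] at h2
  exact zero_ne_one h2

end Pool.Agent.H690K5
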