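import Pool.Agent.H690K5.Basic
import Pool.Agent.H690K5.Lin
set_option autoImplicit false
set_option linter.unusedSectionVars false

/-!
# From the configuration to a minor isomorphic to the cycle matroid of `K₅`
-/

namespace Pool.Agent.H690K5
open Submodule

/-- On a finite acyclic graph every function on the edges with values in the field with two
elements comes from a potential. -/
theorem potential_of_acyclic {X : Type} [Finite X] (n : ℕ) : ∀ (H : SimpleGraph X),
    H.IsAcyclic → H.edgeSet.ncard = n → ∀ g : Sym2 X → ZMod 2,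
    ∃ φ : X → ZMod 2, ∀ i j, H.Adj i j → φ i + φ j = g s(i, j) := by
  classical
  induction n with
  | zero =>
    intro H _ hn g
    refine ⟨fun _ => 0, fun i j hij => ?_⟩
    exfalso
    rw [Set.ncard_eq_zero] at hn
    have : s(i, j) ∈ H.edgeSet := hij
    rw [hn] at this
    exact this
  | succ n ih =>
    intro H hH hn g
    obtain ⟨e, he⟩ : H.edgeSet.Nonempty := by
      rw [← Set.ncard_pos]; omega
    induction e using Sym2.ind with
    | _ u v =>
    have huv : H.Adj u v := he
    set H' := H.deleteEdges {s(u, v)} with hH'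
    have hac : H'.IsAcyclic := hH.anti (H.deleteEdges_le _)
    have hcard : H'.edgeSet.ncard = n := by
      have h1 : H'.edgeSet = H.edgeSet \ {s(u, v)} := by
        rw [hH', SimpleGraph.edgeSet_deleteEdges]
      have h2 := Set.ncard_sdiff_singleton_add_one he (Set.toFinite H.edgeSet)
      rw [h1]; omega
    obtain ⟨φ, hφ⟩ := ih H' hac hcard g
    have hbr : H.IsBridge s(u, v) := (SimpleGraph.isAcyclic_iff_forall_isBridge.mp hH) huv
    have hnr : ¬ H'.Reachable u v := SimpleGraph.isBridge_iff.mp hbr
    set c : ZMod 2 := g s(u, v) + (φ u + φ v) with hc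
    refine ⟨fun w => φ w + if H'.Reachable u w then c else 0, fun i j hij => ?_⟩
    show (φ i + if H'.Reachable u i then c else 0) + (φ j + if H'.Reachable u j then c else 0) =
      g s(i, j)
    by_cases hij' : H'.Adj i j
    · have hiff : H'.Reachable u i ↔ H'.Reachable u j :=
        ⟨fun h => h.trans hij'.reachable, fun h => h.trans hij'.reachable.symm⟩
      have h1 := hφ i j hij'
      by_cases h2 : H'.Reachable u i
      · rw [if_pos h2, if_pos (hiff.mp h2)]
        linear_combination h1 + ZModModule.add_self c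
      · rw [if_neg h2, if_neg (fun h => h2 (hiff.mpr h))]
        linear_combination h1
    · have hs : s(i, j) = s(u, v) := by
        by_contra hcon
        apply hij'
        rw [hH', SimpleGraph.deleteEdges_adj]
        exact ⟨hij, hcon⟩
      have hru : H'.Reachable u u := SimpleGraph.Reachable.refl _
      rw [hs]
      rcases Sym2.eq_iff.mp hs with ⟨h1, h2⟩ | ⟨h1, h2⟩
      · rw [h1, h2, if_pos hru, if_neg hnr, hc]
        linear_combination ZModModule.add_self (φ u) + ZModModule.add_self (φ v)
      · rw [h1, h2, if_pos hru, if_neg hnr, hc]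
        linear_combination ZModModule.add_self (φ u) + ZModModule.add_self (φ v)

theorem exists_dual_of_indep {U κ : Type} [AddCommGroup U] [Module (ZMod 2) U] {v : κ → U}
    (hv : LinearIndependent (ZMod 2) v) (g : κ → ZMod 2) :
    ∃ ψ : U →ₗ[ZMod 2] ZMod 2, ∀ i, ψ (v i) = g i := by
  classical
  have hinj := hv.injective
  obtain ⟨ψ, hψ⟩ := exists_values hv.linearIndepOn_id
    (fun x => if h : ∃ i, v i = x then g h.choose else 0)
  refine ⟨ψ, fun i => ?_⟩
  rw [hψ (v i) ⟨i, rfl⟩]
  have h : ∃ j, v j = v i := ⟨i, rfl⟩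
  rw [dif_pos h]
  congr 1
  exact hinj h.choose_spec

theorem indep_of_dual {U κ : Type} [AddCommGroup U] [Module (ZMod 2) U] {v : κ → U}
    (h : ∀ i, ∃ ψ : U →ₗ[ZMod 2] ZMod 2, ψ (v i) = 1 ∧ ∀ j, j ≠ i → ψ (v j) = 0) :
    LinearIndependent (ZMod 2) v := by
  classical
  rw [linearIndependent_iff']
  intro s g hg i hi
  obtain ⟨ψ, h1, h2⟩ := h i
  have := congrArg ψ hg
  rw [map_sum, map_zero, Finset.sum_eq_single i] at this
  · rw [map_smul, h1] at this
    simpa using this
  · intro j _ hj
    rw [map_smul, h2 j hj, smul_zero]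
  · intro hh; exact absurd hi hh

/-- The configuration `HasK5` yields a minor isomorphic to the cycle matroid of `K₅`. -/
theorem minor_of_hasK5 {V : Type} [AddCommGroup V] [Module (ZMod 2) V] {S : Set V}
    (hS : HasK5 S) :
    ∃ (C : Set V) (h : (⊤ : SimpleGraph (Fin 5)).edgeSet → V),
      C ⊆ S ∧ Function.Injective h ∧ (∀ e, h e ∈ S \ C) ∧
      ∀ F : Set (⊤ : SimpleGraph (Fin 5)).edgeSet,
        (LinearIndependent (ZMod 2) (fun e : F => (Submodule.span (ZMod 2) C).mkQ (h e.1)) ↔
          (SimpleGraph.fromEdgeSet (Subtype.val '' F)).IsAcyclic) := by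
  classical
  obtain ⟨C, hC, a, b, c, d, hi, h1, h2, h3, h4, h5, h6, h7, h8, h9, h10⟩ := hS
  set W := span (ZMod 2) C with hW
  set β : Fin 5 → V := ![a, b, c, d, 0] with hβ
  -- representatives of the ten points
  have hpts : ∀ i j : Fin 5, i ≠ j → InM S W (β i + β j) := by
    have key : ∀ i j : Fin 5, i < j → InM S W (β i + β j) := by
      intro i j hij
      fin_cases i <;> fin_cases j <;> first
        | (exfalso; revert hij; decide)
        | (simp only [hβ]; simpa using h1)
        | (simp only [hβ]; simpa using h2)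
        | (simp only [hβ]; simpa using h3)
        | (simp only [hβ]; simpa using h4)
        | (simp only [hβ]; simpa using h5)
        | (simp only [hβ]; simpa using h6)
        | (simp only [hβ]; simpa using h7)
        | (simp only [hβ]; simpa using h8)
        | (simp only [hβ]; simpa using h9)
        | (simp only [hβ]; simpa using h10)
    intro i j hij
    rcases lt_or_gt_of_ne hij with h | h
    · exact key i j h
    · rw [add_comm]; exact key j i h
  have hrep : ∀ e : (⊤ : SimpleGraph (Fin 5)).edgeSet, ∃ s ∈ S, ∀ i j, e.1 = s(i, j) →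
      s + (β i + β j) ∈ W := by
    rintro ⟨e, he⟩
    induction e using Sym2.ind with
    | _ i j =>
    have hij : i ≠ j := by simpa using he
    obtain ⟨s, hs, hsW⟩ := hpts i j hij
    refine ⟨s, hs, fun k l hkl => ?_⟩
    rcases Sym2.eq_iff.mp hkl with ⟨rfl, rfl⟩ | ⟨rfl, rfl⟩
    · exact hsW
    · rw [add_comm (β j) (β i)]; exact hsW
  choose h hhS hhW using hrep
  -- functionals with prescribed potentials
  have hpot : ∀ g : Fin 5 → ZMod 2, ∃ ψ : (V ⧸ W) →ₗ[ZMod 2] ZMod 2,
      ∀ i j, ψ (W.mkQ (β i + β j)) = g i + g j := by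
    intro g
    have hli : LinearIndependent (ZMod 2) (fun i : Fin 4 => W.mkQ (![a, b, c, d] i)) := by
      rw [Fintype.linearIndependent_iff]
      intro f hf
      rw [Fin.sum_univ_four] at hf
      simp only [← map_smul, ← map_add] at hf
      rw [Submodule.mkQ_apply, Submodule.Quotient.mk_eq_zero] at hf
      obtain ⟨e1, e2, e3, e4⟩ := hi (f 0) (f 1) (f 2) (f 3) (by simpa using hf)
      intro i
      fin_cases i
      · exact e1
      · exact e2
      · exact e3
      · exact e4
    obtain ⟨ψ, hψ⟩ := exists_dual_of_indep hli (fun i => g i.castSucc + g 4)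
    have hval : ∀ i : Fin 5, ψ (W.mkQ (β i)) = g i + g 4 := by
      intro i
      have q0 := hψ 0
      have q1 := hψ 1
      have q2 := hψ 2
      have q3 := hψ 3
      fin_cases i
      · exact q0
      · exact q1
      · exact q2
      · exact q3
      · have : β (4 : Fin 5) = 0 := rfl
        show ψ (W.mkQ (β (4 : Fin 5))) = g 4 + g 4
        rw [this, map_zero, map_zero]
        exact (ZModModule.add_self _).symm
    refine ⟨ψ, fun i j => ?_⟩
    rw [map_add, map_add, hval, hval]
    linear_combination ZModModule.add_self (g 4)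
  have hmk : ∀ (e : (⊤ : SimpleGraph (Fin 5)).edgeSet) (i j : Fin 5), e.1 = s(i, j) →
      W.mkQ (h e) = W.mkQ (β i + β j) := by
    intro e i j hij
    rw [← sub_eq_zero, ← map_sub, Submodule.mkQ_apply, Submodule.Quotient.mk_eq_zero,
      ZModModule.sub_eq_add]
    exact hhW e i j hij
  -- the vertex functionals detect incidence
  have hinc : ∀ k : Fin 5, ∃ ψ : (V ⧸ W) →ₗ[ZMod 2] ZMod 2,
      ∀ e : (⊤ : SimpleGraph (Fin 5)).edgeSet, ψ (W.mkQ (h e)) = if k ∈ e.1 then 1 else 0 := by
    intro k
    obtain ⟨ψ, hψ⟩ := hpot (fun i => if i = k then 1 else 0)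
    refine ⟨ψ, ?_⟩
    rintro ⟨e, he⟩
    induction e using Sym2.ind with
    | _ i j =>
    have hij : i ≠ j := by simpa using he
    rw [hmk _ i j rfl, hψ]
    simp only [Sym2.mem_iff]
    by_cases hik : i = k
    · subst hik
      rw [if_pos rfl, if_neg (Ne.symm hij), if_pos (Or.inl rfl), add_zero]
    · by_cases hjk : j = k
      · subst hjk
        rw [if_neg hik, if_pos rfl, if_pos (Or.inr rfl), zero_add]
      · rw [if_neg hik, if_neg hjk, if_neg (by rintro (r | r); exacts [hik r.symm, hjk r.symm]),
          add_zero]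
  have hinjq : ∀ e e' : (⊤ : SimpleGraph (Fin 5)).edgeSet, W.mkQ (h e) = W.mkQ (h e') →
      e = e' := by
    intro e e' hee
    apply Subtype.ext
    apply Sym2.ext
    intro k
    obtain ⟨ψ, hψ⟩ := hinc k
    have q1 := hψ e
    have q2 := hψ e'
    rw [hee, q2] at q1
    by_cases r1 : k ∈ e.1 <;> by_cases r2 : k ∈ e'.1 <;> simp [r1, r2] at q1 ⊢
  refine ⟨C, h, hC, fun e e' hee => hinjq e e' (by rw [hee]), fun e => ⟨hhS e, ?_⟩, fun F => ?_⟩
  · intro heC
    obtain ⟨k, hk⟩ : ∃ k, k ∈ e.1 := by
      obtain ⟨e, he⟩ := e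
      induction e using Sym2.ind with
      | _ i j => exact ⟨i, Sym2.mem_mk_left _ _⟩
    obtain ⟨ψ, hψ⟩ := hinc k
    have q1 := hψ e
    have q2 : W.mkQ (h e) = 0 := by
      rw [Submodule.mkQ_apply, Submodule.Quotient.mk_eq_zero]
      exact Submodule.subset_span heC
    rw [q2, map_zero, if_pos hk] at q1
    exact zero_ne_one q1
  · set H := SimpleGraph.fromEdgeSet (Subtype.val '' F) with hH
    have hadj : ∀ i j, H.Adj i j → ∃ e ∈ F, e.1 = s(i, j) := by
      intro i j hij
      rw [hH, SimpleGraph.fromEdgeSet_adj] at hij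
      obtain ⟨⟨e, heF, he⟩, -⟩ := hij
      exact ⟨e, heF, he⟩
    constructor
    · intro hli
      rw [SimpleGraph.isAcyclic_iff_forall_isBridge]
      intro e0 he0
      induction e0 using Sym2.ind with
      | _ u v =>
      have huv : H.Adj u v := by simpa using he0
      obtain ⟨e, heF, he⟩ := hadj u v huv
      rw [SimpleGraph.isBridge_iff]
      intro hreach
      obtain ⟨ψ, hψ⟩ := exists_dual_of_indep hli (fun f => if f.1 = e then 1 else 0)
      have hψe : ψ (W.mkQ (β u + β v)) = 1 := by
        rw [← hmk e u v he]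
        have := hψ ⟨e, heF⟩
        rw [if_pos rfl] at this
        exact this
      have hstep : ∀ i j, (H.deleteEdges {s(u, v)}).Adj i j →
          ψ (W.mkQ (β i)) = ψ (W.mkQ (β j)) := by
        intro i j hij
        rw [SimpleGraph.deleteEdges_adj] at hij
        obtain ⟨f, hfF, hf⟩ := hadj i j hij.1
        have hfe : f ≠ e := by
          rintro rfl
          apply hij.2
          rw [← hf, ← he]; rfl
        have := hψ ⟨f, hfF⟩
        rw [if_neg hfe] at this
        have h0 : ψ (W.mkQ (β i + β j)) = 0 := by rw [← hmk f i j hf]; exact this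
        rw [map_add, map_add] at h0
        linear_combination h0 - ZModModule.add_self (ψ (W.mkQ (β j)))
      have hconst : ∀ {i j : Fin 5}, (H.deleteEdges {s(u, v)}).Walk i j →
          ψ (W.mkQ (β i)) = ψ (W.mkQ (β j)) := by
        intro i j p
        induction p with
        | nil => rfl
        | cons hadj' _ ih => exact (hstep _ _ hadj').trans ih
      obtain ⟨p⟩ := hreach
      have := hconst p
      rw [map_add, map_add, this] at hψe
      rw [ZModModule.add_self] at hψe
      exact zero_ne_one hψe
    · intro hac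
      apply indep_of_dual
      rintro ⟨e0, he0⟩
      obtain ⟨n, hn⟩ := potential_of_acyclic _ H hac rfl (fun e => if e = e0.1 then 1 else 0)
      obtain ⟨ψ, hψ⟩ := hpot n
      have hval : ∀ f : F, ψ (W.mkQ (h f.1)) = if f.1 = e0 then 1 else 0 := by
        rintro ⟨⟨f, hf⟩, hfF⟩
        induction f using Sym2.ind with
        | _ i j =>
        have hij : i ≠ j := by simpa using hf
        have hadj' : H.Adj i j := by
          rw [hH, SimpleGraph.fromEdgeSet_adj]
          exact ⟨⟨_, hfF, rfl⟩, hij⟩
        rw [hmk _ i j rfl, hψ]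
        have := hn i j hadj'
        rw [this]
        by_cases hh : s(i, j) = e0.1
        · rw [if_pos hh, if_pos (Subtype.ext hh)]
        · rw [if_neg hh, if_neg (fun h' => hh (congrArg Subtype.val h'))]
      refine ⟨ψ, ?_, ?_⟩
      · rw [hval ⟨e0, he0⟩, if_pos rfl]
      · intro f hf
        rw [hval f, if_neg]
        intro h'
        exact hf (Subtype.ext h')

end Pool.Agent.H690K5
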