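import Pool.Agent.H690K5.Star
import Pool.Agent.H690K5.Cover
import Pool.Agent.H690K5.Graph

set_option autoImplicit false

/-!
# The critical exponent of a binary matroid without an `M(K₅)`-minor is at most six

The proof bounds the number of elements: such a simple matroid of rank `r ≥ 2` has at most
`6 r - 8` elements (`Pool.Agent.H690K5.bound_all`).  The covering theorem then gives a linear map
to `GF(2)^6` without zeros on the set.
-/

namespace Pool.Agent.H690K5.CriticalSix

/-- For every set `S` of nonzero vectors over `GF(2)` whose vector matroid has no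
contraction-deletion minor isomorphic to the cycle matroid of `K₅`, some linear map to `GF(2)^6`
is nonzero on all of `S`, i.e. the critical exponent is at most six. -/
theorem result :
    ∀ (n : ℕ) (S : Set (Fin n → ZMod 2)), (0 : Fin n → ZMod 2) ∉ S →
      (¬ ∃ (C : Set (Fin n → ZMod 2))
          (h : (⊤ : SimpleGraph (Fin 5)).edgeSet → (Fin n → ZMod 2)),
          C ⊆ S ∧ Function.Injective h ∧ (∀ e, h e ∈ S \ C) ∧
          ∀ F : Set (⊤ : SimpleGraph (Fin 5)).edgeSet,
            (LinearIndependent (ZMod 2)
                (fun e : F => (Submodule.span (ZMod 2) C).mkQ (h e.1)) ↔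
              (SimpleGraph.fromEdgeSet (Subtype.val '' F)).IsAcyclic)) →
      ∃ f : (Fin n → ZMod 2) →ₗ[ZMod 2] (Fin 6 → ZMod 2), ∀ v ∈ S, f v ≠ 0 := by
  classical
  intro n S h0 hK
  have hno : ¬ Pool.Agent.H690K5.HasK5 S := fun hh => hK (Pool.Agent.H690K5.minor_of_hasK5 hh)
  obtain ⟨F, hF⟩ := Pool.Agent.H690K5.cover (V := Fin n → ZMod 2) S.toFinite.toFinset 6 (by
    intro X hX
    have hXS : (X : Set (Fin n → ZMod 2)) ⊆ S := by
      intro v hv
      exact (Set.Finite.mem_toFinset _).mp (hX (Finset.mem_coe.mp hv))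
    have h1 := Pool.Agent.H690K5.card_le (X : Set (Fin n → ZMod 2)) (fun hh => h0 (hXS hh))
      (fun hh => hno (hh.mono hXS))
    rwa [Set.ncard_coe_finset] at h1)
  exact ⟨F, fun v hv => hF v ((Set.Finite.mem_toFinset _).mpr hv)⟩

end Pool.Agent.H690K5.CriticalSix
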