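import Pool.Agent.H690K5.Min
set_option autoImplicit false
set_option linter.unusedSectionVars false
set_option linter.style.haveILetI false

/-!
# The case of independent full lines
-/

namespace Pool.Agent.H690K5
open Submodule

theorem k5_of_triangle {V : Type} [AddCommGroup V] [Module (ZMod 2) V] {S : Set V} {x y z p : V}
    (hi : Ind4 (span (ZMod 2) (∅ : Set V)) x y z p) (hx : x ∈ S) (hy : y ∈ S) (hz : z ∈ S)
    (hp : p ∈ S) (hxy : x + y ∈ S) (hxz : x + z ∈ S) (hxp : x + p ∈ S) (hyz : y + z ∈ S)
    (hyp : y + p ∈ S) (hzp : z + p ∈ S) : HasK5 S :=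
  ⟨∅, Set.empty_subset _, x, y, z, p, hi, InM.of_mem _ hx, InM.of_mem _ hy, InM.of_mem _ hz,
    InM.of_mem _ hp, InM.of_mem _ hxy, InM.of_mem _ hxz, InM.of_mem _ hxp, InM.of_mem _ hyz,
    InM.of_mem _ hyp, InM.of_mem _ hzp⟩

/-- the family `a` on `J` together with `p` has dual functionals -/
def DualFam {V : Type} [AddCommGroup V] [Module (ZMod 2) V] {ι : Type} (p : V) (a : ι → V)
    (J : Finset ι) : Prop :=
  (∃ φ : V →ₗ[ZMod 2] ZMod 2, φ p = 1 ∧ ∀ j ∈ J, φ (a j) = 0) ∧
    ∀ i ∈ J, ∃ ψ : V →ₗ[ZMod 2] ZMod 2, ψ p = 0 ∧ ψ (a i) = 1 ∧ ∀ j ∈ J, j ≠ i → ψ (a j) = 0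

section
variable {ι : Type} [DecidableEq ι]

/-- number of edge elements over a pair -/
noncomputable def ed {V : Type} [AddCommGroup V] (S : Set V) (p : V) (a : ι → V) (i j : ι) : ℕ :=
  ind S (a i + a j) + ind S (a i + a j + p)

/-- total number of edge elements, counted twice -/
noncomputable def E2 {V : Type} [AddCommGroup V] (S : Set V) (p : V) (a : ι → V) (J : Finset ι) :
    ℕ :=
  ∑ i ∈ J, ∑ j ∈ J, if i = j then 0 else ed S p a i j

theorem ed_symm {V : Type} [AddCommGroup V] (S : Set V) (p : V) (a : ι → V) (i j : ι) :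
    ed S p a i j = ed S p a j i := by
  unfold ed; rw [add_comm (a i) (a j)]

theorem E2_erase {V : Type} [AddCommGroup V] (S : Set V) (p : V) (a : ι → V) (J : Finset ι)
    {k : ι} (hk : k ∈ J) :
    E2 S p a J = E2 S p a (J.erase k) + 2 * ∑ j ∈ J.erase k, ed S p a k j := by
  unfold E2
  have h1 : ∀ f : ι → ℕ, ∑ i ∈ J, f i = f k + ∑ i ∈ J.erase k, f i :=
    fun f => (Finset.add_sum_erase J f hk).symm
  rw [h1, h1]
  rw [if_pos rfl, zero_add]
  have h2 : ∀ i ∈ J.erase k, (∑ j ∈ J, if i = j then 0 else ed S p a i j) =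
      ed S p a k i + ∑ j ∈ J.erase k, if i = j then 0 else ed S p a i j := by
    intro i hi
    rw [h1, if_neg (Finset.ne_of_mem_erase hi), ed_symm]
  rw [Finset.sum_congr rfl h2, Finset.sum_add_distrib]
  have h3 : ∑ j ∈ J.erase k, (if k = j then 0 else ed S p a k j) =
      ∑ j ∈ J.erase k, ed S p a k j := by
    refine Finset.sum_congr rfl fun j hj => ?_
    rw [if_neg (Finset.ne_of_mem_erase hj).symm]
  rw [h3]
  ring

theorem ind_contr {V : Type} [AddCommGroup V] [Module (ZMod 2) V] {S : Set V} {e v : V}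
    (h0 : v ≠ 0) (h1 : v ≠ e) :
    ind (contr S e) ((span (ZMod 2) {e}).mkQ v) = max (ind S v) (ind S (v + e)) := by
  by_cases h2 : v ∈ S
  · rw [ind_of_mem (mem_contr_iff.mpr ⟨⟨h0, h1⟩, Or.inl h2⟩), ind_of_mem h2]
    rcases ind_cases S (v + e) with h | h <;> rw [h] <;> rfl
  · by_cases h3 : v + e ∈ S
    · rw [ind_of_mem (mem_contr_iff.mpr ⟨⟨h0, h1⟩, Or.inr h3⟩), ind_of_mem h3, ind_of_notMem h2]
      rfl
    · rw [ind_of_notMem h2, ind_of_notMem h3, ind_of_notMem]
      · rfl
      · rw [mem_contr_iff]; tauto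

theorem gamma_bound (n : ℕ) : ∀ (J : Finset ι), J.card = n + 1 → ∀ (V : Type) [AddCommGroup V]
    [Module (ZMod 2) V] [Finite V] (S : Set V) (p : V) (a : ι → V), ¬ HasK5 S → p ∈ S →
    (∀ i ∈ J, a i ∈ S ∧ a i + p ∈ S) → DualFam p a J → E2 S p a J + 4 ≤ 4 * J.card := by
  induction n with
  | zero =>
    intro J hJ V _ _ _ S p a _ _ _ _
    obtain ⟨i, rfl⟩ := Finset.card_eq_one.mp (by simpa using hJ)
    simp [E2]
  | succ n ih =>
    intro J hJ V _ _ _ S p a hK hp ha hd
    by_cases hE : ∃ i ∈ J, ∃ j ∈ J, i ≠ j ∧ ∃ ε : ZMod 2, a i + a j + ε • p ∈ S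
    swap
    · have : E2 S p a J = 0 := by
        unfold E2
        refine Finset.sum_eq_zero fun i hi => Finset.sum_eq_zero fun j hj => ?_
        by_cases hij : i = j
        · rw [if_pos hij]
        · rw [if_neg hij]
          have q1 : ind S (a i + a j) = 0 :=
            ind_of_notMem fun h => hE ⟨i, hi, j, hj, hij, 0, by simpa using h⟩
          have q2 : ind S (a i + a j + p) = 0 :=
            ind_of_notMem fun h => hE ⟨i, hi, j, hj, hij, 1, by simpa using h⟩
          unfold ed
          rw [q1, q2]; rfl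
      rw [this]; omega
    obtain ⟨i1, hi1, j1, hj1, hij, ε, he⟩ := hE
    set e := a i1 + a j1 + ε • p with hedef
    obtain ⟨⟨φ, hφp, hφa⟩, hψ⟩ := hd
    obtain ⟨ψj, hψjp, hψj1, hψja⟩ := hψ j1 hj1
    obtain ⟨ψi, hψip, hψi1, hψia⟩ := hψ i1 hi1
    have hφe : φ e = ε := by
      rw [hedef, map_add, map_add, map_smul, hφp, hφa _ hi1, hφa _ hj1]; simp
    have hψje : ψj e = 1 := by
      rw [hedef, map_add, map_add, map_smul, hψjp, hψj1, hψja _ hi1 hij]; simp
    have hψie : ψi e = 1 := by
      rw [hedef, map_add, map_add, map_smul, hψip, hψi1, hψia _ hj1 hij.symm]; simp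
    have he0 : e ≠ 0 := by
      intro h; rw [h, map_zero] at hψje; exact zero_ne_one hψje
    set J' := J.erase j1 with hJ'
    set J2 := J'.erase i1 with hJ2
    have hi1J' : i1 ∈ J' := Finset.mem_erase.mpr ⟨hij, hi1⟩
    have hJ'card : J'.card = n + 1 := by
      rw [hJ', Finset.card_erase_of_mem hj1, hJ]; rfl
    -- a vector killed by `ψj` but not zero is suitable
    have hsuit : ∀ v : V, v ≠ 0 → ψj v = 0 → v ≠ 0 ∧ v ≠ e := by
      intro v h1 h2
      refine ⟨h1, ?_⟩
      rintro rfl
      rw [hψje] at h2; exact one_ne_zero h2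
    have hp0 : p ≠ 0 := by
      rintro rfl; rw [map_zero] at hφp; exact zero_ne_one hφp
    have hanz : ∀ i ∈ J, a i ≠ 0 ∧ a i + p ≠ 0 := by
      intro i hi
      obtain ⟨ψ, h1, h2, -⟩ := hψ i hi
      constructor
      · intro h; rw [h, map_zero] at h2; exact zero_ne_one h2
      · intro h
        have := congrArg ψ h
        rw [map_add, h1, h2, map_zero, add_zero] at this; exact one_ne_zero this
    have hpair : ∀ i ∈ J, ∀ j ∈ J, i ≠ j → a i + a j ≠ 0 ∧ a i + a j + p ≠ 0 := by
      intro i hi j hj hne
      obtain ⟨ψ, h1, h2, h3⟩ := hψ i hi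
      have h4 := h3 j hj hne.symm
      constructor
      · intro h
        have := congrArg ψ h
        rw [map_add, h2, h4, map_zero, add_zero] at this; exact one_ne_zero this
      · intro h
        have := congrArg ψ h
        rw [map_add, map_add, h1, h2, h4, map_zero, add_zero, add_zero] at this
        exact one_ne_zero this
    have hker : ∀ i ∈ J', ψj (a i) = 0 := fun i hi =>
      hψja i (Finset.mem_of_mem_erase hi) (Finset.ne_of_mem_erase hi)
    set π := (span (ZMod 2) {e}).mkQ with hπ
    -- lifting functionals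
    have hlift : ∀ ψ : V →ₗ[ZMod 2] ZMod 2, ψ e = 0 →
        ∃ ψ' : (V ⧸ span (ZMod 2) {e}) →ₗ[ZMod 2] ZMod 2, ∀ v, ψ' (π v) = ψ v := by
      intro ψ h
      refine ⟨(span (ZMod 2) {e}).liftQ ψ ?_, fun v => ?_⟩
      · rw [Submodule.span_le]
        rintro _ rfl
        exact h
      · rfl
    -- the induction hypothesis
    have hIH := ih J' hJ'card (V ⧸ span (ZMod 2) {e}) (contr S e) (π p) (fun i => π (a i))
      (not_hasK5_contr he hK)
      (mem_contr_iff.mpr ⟨hsuit p hp0 hψjp, Or.inl hp⟩)
      (by
        intro i hi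
        have hiJ := Finset.mem_of_mem_erase hi
        refine ⟨mem_contr_iff.mpr ⟨hsuit _ (hanz i hiJ).1 (hker i hi), Or.inl (ha i hiJ).1⟩, ?_⟩
        rw [← map_add]
        exact mem_contr_iff.mpr ⟨hsuit _ (hanz i hiJ).2 (by rw [map_add, hker i hi, hψjp, add_zero]),
          Or.inl (ha i hiJ).2⟩)
      (by
        constructor
        · obtain ⟨φ', hφ'⟩ := hlift (φ + ε • ψj) (by
            rw [LinearMap.add_apply, LinearMap.smul_apply, hφe, hψje, smul_eq_mul, mul_one]
            exact ZModModule.add_self ε)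
          refine ⟨φ', ?_, ?_⟩
          · rw [hφ', LinearMap.add_apply, LinearMap.smul_apply, hφp, hψjp, smul_zero, add_zero]
          · intro j hj
            rw [hφ', LinearMap.add_apply, LinearMap.smul_apply, hker j hj,
              hφa j (Finset.mem_of_mem_erase hj), smul_zero, add_zero]
        · intro i hi
          have hiJ := Finset.mem_of_mem_erase hi
          by_cases hii : i = i1
          · subst hii
            obtain ⟨ψ', hψ'⟩ := hlift (ψi + ψj) (by
              rw [LinearMap.add_apply, hψie, hψje]; decide)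
            refine ⟨ψ', ?_, ?_, ?_⟩
            · rw [hψ', LinearMap.add_apply, hψip, hψjp, add_zero]
            · rw [hψ', LinearMap.add_apply, hψi1, hker i hi, add_zero]
            · intro j hj hji
              rw [hψ', LinearMap.add_apply, hker j hj, hψia j (Finset.mem_of_mem_erase hj) hji,
                add_zero]
          · obtain ⟨ψ, h1, h2, h3⟩ := hψ i hiJ
            obtain ⟨ψ', hψ'⟩ := hlift ψ (by
              rw [hedef, map_add, map_add, map_smul, h1, h3 i1 hi1 (Ne.symm hii),
                h3 j1 hj1 (Finset.ne_of_mem_erase hi).symm]; simp)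
            exact ⟨ψ', by rw [hψ', h1], by rw [hψ', h2], fun j hj hji => by
              rw [hψ', h3 j (Finset.mem_of_mem_erase hj) hji]⟩)
    -- the comparison of the counts
    have hc1 := E2_erase S p a J hj1
    have hc2 := E2_erase S p a J' hi1J'
    have hc3 := E2_erase (contr S e) (π p) (fun i => π (a i)) J' hi1J'
    have hsumj : ∑ j ∈ J', ed S p a j1 j = ed S p a j1 i1 + ∑ j ∈ J2, ed S p a j1 j :=
      (Finset.add_sum_erase J' _ hi1J').symm
    have hed2 : ed S p a j1 i1 ≤ 2 := by
      unfold ed
      have := ind_cases S (a j1 + a i1)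
      have := ind_cases S (a j1 + a i1 + p)
      omega
    have hc4 : E2 S p a J2 ≤ E2 (contr S e) (π p) (fun i => π (a i)) J2 := by
      unfold E2
      refine Finset.sum_le_sum fun i hi => Finset.sum_le_sum fun j hj => ?_
      by_cases hijj : i = j
      · rw [if_pos hijj, if_pos hijj]
      · rw [if_neg hijj, if_neg hijj]
        have hiJ' := Finset.mem_of_mem_erase hi
        have hjJ' := Finset.mem_of_mem_erase hj
        have hpr := hpair i (Finset.mem_of_mem_erase hiJ') j (Finset.mem_of_mem_erase hjJ') hijj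
        have k1 := hsuit (a i + a j) hpr.1 (by rw [map_add, hker i hiJ', hker j hjJ', add_zero])
        have k2 := hsuit (a i + a j + p) hpr.2
          (by rw [map_add, map_add, hker i hiJ', hker j hjJ', hψjp, add_zero, add_zero])
        unfold ed
        simp only [← map_add]
        rw [hπ, ind_contr k1.1 k1.2, ind_contr k2.1 k2.2]
        exact add_le_add (le_max_left _ _) (le_max_left _ _)
    have hc5 : ∑ j ∈ J2, ed S p a i1 j + ∑ j ∈ J2, ed S p a j1 j ≤
        ∑ j ∈ J2, ed (contr S e) (π p) (fun i => π (a i)) i1 j := by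
      rw [← Finset.sum_add_distrib]
      refine Finset.sum_le_sum fun j hj => ?_
      have hjJ' := Finset.mem_of_mem_erase hj
      have hjJ := Finset.mem_of_mem_erase hjJ'
      have hji : i1 ≠ j := (Finset.ne_of_mem_erase hj).symm
      have hjj : j1 ≠ j := (Finset.ne_of_mem_erase hjJ').symm
      have hpr := hpair i1 hi1 j hjJ hji
      have k1 := hsuit (a i1 + a j) hpr.1
        (by rw [map_add, hker i1 hi1J', hker j hjJ', add_zero])
      have k2 := hsuit (a i1 + a j + p) hpr.2
          (by rw [map_add, map_add, hker i1 hi1J', hker j hjJ', hψjp, add_zero, add_zero])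
      unfold ed
      simp only [← map_add]
      rw [hπ, ind_contr k1.1 k1.2, ind_contr k2.1 k2.2]
      -- no balanced triangle
      have hbal : ∀ δ : ZMod 2, ¬ (a i1 + a j + δ • p ∈ S ∧ a j1 + a j + (ε + δ) • p ∈ S) := by
        rintro δ ⟨hf, hg⟩
        apply hK
        obtain ⟨ψk, hψkp, hψk1, hψka⟩ := hψ j hjJ
        have hfull : ∀ i ∈ J, ∀ κ : ZMod 2, a i + κ • p ∈ S ∧ a i + κ • p + p ∈ S := by
          intro i hi κ
          rcases zmod2_cases κ with rfl | rfl
          · simpa using ha i hi
          · rw [one_smul]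
            refine ⟨(ha i hi).2, ?_⟩
            have : a i + p + p = a i := by
              linear_combination (norm := module) ZModModule.add_self p
            rw [this]; exact (ha i hi).1
        refine k5_of_triangle (x := a i1) (y := a j1 + ε • p) (z := a j + δ • p) (p := p) ?_
          (ha i1 hi1).1 (hfull j1 hj1 ε).1 (hfull j hjJ δ).1 hp ?_ ?_ (ha i1 hi1).2 ?_
          (hfull j1 hj1 ε).2 (hfull j hjJ δ).2
        · intro α β γ κ h
          rw [Submodule.span_empty, Submodule.mem_bot] at h
          have e1 := congrArg ψi h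
          have e2 := congrArg ψj h
          have e3 := congrArg ψk h
          have e4 := congrArg φ h
          simp only [map_add, map_smul, map_zero, hψip, hψi1, hψia _ hj1 hij.symm,
            hψia _ hjJ hji.symm] at e1
          simp only [map_add, map_smul, map_zero, hψjp, hψj1, hψja _ hi1 hij,
            hψja _ hjJ hjj.symm] at e2
          simp only [map_add, map_smul, map_zero, hψkp, hψk1, hψka _ hi1 hji,
            hψka _ hj1 hjj] at e3
          simp only [map_add, map_smul, map_zero, hφp, hφa _ hi1, hφa _ hj1, hφa _ hjJ] at e4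
          simp at e1 e2 e3
          subst e1 e2 e3
          simp at e4
          exact ⟨rfl, rfl, rfl, e4⟩
        · rw [← add_assoc]; exact he
        · rw [← add_assoc]; exact hf
        · have : a j1 + ε • p + (a j + δ • p) = a j1 + a j + (ε + δ) • p := by module
          rw [this]; exact hg
      have v1 : a i1 + a j + e = a j1 + a j + ε • p := by
        rw [hedef]; linear_combination (norm := module) ZModModule.add_self (a i1)
      have v2 : a i1 + a j + p + e = a j1 + a j + (ε + 1) • p := by
        rw [hedef]; linear_combination (norm := module) ZModModule.add_self (a i1)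
      rw [v1, v2]
      have b0 := hbal 0
      have b1 := hbal 1
      rw [zero_smul, add_zero, add_zero] at b0
      rw [one_smul] at b1
      have c0 := ind_cases S (a i1 + a j)
      have c1 := ind_cases S (a i1 + a j + p)
      have c2 := ind_cases S (a j1 + a j + ε • p)
      have c3 := ind_cases S (a j1 + a j + (ε + 1) • p)
      have d0 : ind S (a i1 + a j) = 0 ∨ ind S (a j1 + a j + ε • p) = 0 := by
        by_contra hh
        push Not at hh
        exact b0 ⟨by by_contra h'; exact hh.1 (ind_of_notMem h'),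
          by by_contra h'; exact hh.2 (ind_of_notMem h')⟩
      have d1 : ind S (a i1 + a j + p) = 0 ∨ ind S (a j1 + a j + (ε + 1) • p) = 0 := by
        by_contra hh
        push Not at hh
        exact b1 ⟨by by_contra h'; exact hh.1 (ind_of_notMem h'),
          by by_contra h'; exact hh.2 (ind_of_notMem h')⟩
      have hsum : ind S (a j1 + a j) + ind S (a j1 + a j + p) =
          ind S (a j1 + a j + ε • p) + ind S (a j1 + a j + (ε + 1) • p) := by
        rcases zmod2_cases ε with h | h
        · rw [h]; simp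
        · rw [h, one_smul, show (1 + 1 : ZMod 2) = 0 from rfl, zero_smul, add_zero]
          ring
      omega
    rw [← hJ', hsumj] at hc1
    rw [← hJ2] at hc2 hc3
    omega

end

end Pool.Agent.H690K5
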