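import Pool.Agent.H690K5.Nbr
import Pool.Agent.H690K5.Gamma
set_option autoImplicit false
set_option linter.unusedSectionVars false
set_option linter.style.haveILetI false

/-!
# The end of the induction
-/

namespace Pool.Agent.H690K5
open Submodule

section
variable {V : Type} [AddCommGroup V] [Module (ZMod 2) V] [Finite V]

theorem indepOn_mkQ {s : Set V} {p a : V} (hs : LinearIndepOn (ZMod 2) id s)
    (hd : Disjoint (span (ZMod 2) s) (span (ZMod 2) {p, a})) :
    LinearIndepOn (ZMod 2) (span (ZMod 2) {p, a}).mkQ s := by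
  have h : LinearIndependent (ZMod 2) (fun x : s => id x.1) := hs
  have h2 := h.map (f := (span (ZMod 2) {p, a}).mkQ) (by
    rw [Submodule.ker_mkQ]
    have : Set.range (fun x : s => id x.1) = s := by simp
    rw [this]; exact hd)
  exact h2

/-- The full classes form an independent set: impossible. -/
theorem Cex.not_indep {ρ : ℕ} {S : Set V} {p : V} (h : Cex ρ S p) {φ : V →ₗ[ZMod 2] ZMod 2}
    (hφp : φ p = 1) (A : Finset V) (hA : ∀ x, x ∈ A ↔ x ∈ S ∧ φ x = 0 ∧ x + p ∈ S) :
    ¬ LinearIndepOn (ZMod 2) id (A : Set V) := by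
  classical
  intro hind
  have hAne : A.Nonempty := by
    obtain ⟨a, ha, hap⟩ := h.exists_full
    rcases zmod2_cases (φ a) with h0 | h0
    · exact ⟨a, (hA a).mpr ⟨ha, h0, hap⟩⟩
    · refine ⟨a + p, (hA _).mpr ⟨hap, ?_, ?_⟩⟩
      · rw [map_add, h0, hφp]; decide
      · have : a + p + p = a := by linear_combination (norm := module) ZModModule.add_self p
        rw [this]; exact ha
  have hker : span (ZMod 2) (A : Set V) ≤ LinearMap.ker φ := by
    rw [Submodule.span_le]
    intro x hx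
    exact ((hA x).mp hx).2.1
  have hpA : p ∉ span (ZMod 2) (A : Set V) := by
    intro hh
    have := hker hh
    rw [LinearMap.mem_ker, hφp] at this
    exact one_ne_zero this
  have hbig : LinearIndepOn (ZMod 2) id (insert p (A : Set V)) := by
    apply hind.insert
    simpa using hpA
  have hdual : DualFam p (id : V → V) A := by
    refine ⟨⟨φ, hφp, fun j hj => ((hA j).mp hj).2.1⟩, fun i hi => ?_⟩
    obtain ⟨ψ, hψ⟩ := exists_values hbig (fun v => if v = i then 1 else 0)
    refine ⟨ψ, ?_, ?_, ?_⟩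
    · rw [hψ p (Set.mem_insert _ _), if_neg]
      rintro rfl
      exact hpA (Submodule.subset_span hi)
    · rw [id, hψ i (Set.mem_insert_of_mem _ hi), if_pos rfl]
    · intro j hj hji
      rw [id, hψ j (Set.mem_insert_of_mem _ hj), if_neg hji]
  obtain ⟨n, hn⟩ : ∃ n, A.card = n + 1 := ⟨A.card - 1, by have := hAne.card_pos; omega⟩
  have h1 := gamma_bound n A hn V S p id h.hK h.hp
    (fun i hi => ⟨((hA i).mp hi).1, ((hA i).mp hi).2.2⟩) hdual
  have h2 : 4 * A.card ≤ E2 S p id A := by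
    unfold E2
    rw [mul_comm, ← smul_eq_mul, ← Finset.sum_const]
    refine Finset.sum_le_sum fun i hi => ?_
    obtain ⟨hiS, hiφ, hip⟩ := (hA i).mp hi
    have h3 := h.four_le_nb hiS hip hφp hiφ
    set N := (Nb S p i φ).toFinite.toFinset with hN
    have hNmem : ∀ x, x ∈ N ↔ x ∈ Nb S p i φ := fun x => by simp [hN]
    have h4 : (Nb S p i φ).ncard = N.card := Set.ncard_eq_toFinset_card _ _
    have hNA : N ⊆ A := by
      intro x hx
      rw [hNmem] at hx
      exact (hA x).mpr ⟨hx.2.2.1, hx.1, hx.2.2.2.1⟩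
    calc 4 ≤ N.card := by omega
      _ = ∑ j ∈ N, 1 := by simp
      _ ≤ ∑ j ∈ N, (if i = j then 0 else ed S p id i j) := by
          refine Finset.sum_le_sum fun j hj => ?_
          rw [hNmem] at hj
          obtain ⟨-, hL, -, -, hor⟩ := hj
          have hij : i ≠ j := by
            rintro rfl
            exact hL (Or.inr (Or.inr (Or.inl rfl)))
          rw [if_neg hij]
          unfold ed
          simp only [id]
          rw [add_comm i j]
          rcases hor with h5 | h5
          · rw [ind_of_mem h5]; omega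
          · rw [ind_of_mem h5]; omega
      _ ≤ ∑ j ∈ A, (if i = j then 0 else ed S p id i j) :=
          Finset.sum_le_sum_of_subset hNA
  omega

/-- Case (i): some full class of a minimal circuit has a neighbour outside the circuit. -/
theorem Cex.no_outside {ρ : ℕ} {S : Set V} {p : V} (h : Cex ρ S p) {φ : V →ₗ[ZMod 2] ZMod 2}
    (hφp : φ p = 1) (D : Finset V) (hD : ∀ x ∈ D, x ∈ S ∧ φ x = 0 ∧ x + p ∈ S)
    (hsum : ∑ v ∈ D, v = 0) (hcard : 4 ≤ D.card)
    (hprop : ∀ D' ⊆ D, D'.Nonempty → D' ≠ D → ∑ v ∈ D', v ≠ 0)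
    {d1 x : V} (hd1 : d1 ∈ D) (hx : x ∈ Nb S p d1 φ)
    (hxspan : x ∉ span (ZMod 2) (D : Set V)) : False := by
  classical
  obtain ⟨hd1S, hd1φ, hd1p⟩ := hD d1 hd1
  have hpp : ∀ v : V, v + p + p = v := fun v => by
    linear_combination (norm := module) ZModModule.add_self p
  obtain ⟨hxφ, hxL, hxS, hxp, hxor⟩ := hx
  -- the representative
  obtain ⟨κ, y, hy, hyS, hyp, hya⟩ : ∃ (κ : ZMod 2) (y : V), y = x + κ • p ∧ y ∈ S ∧
      y + p ∈ S ∧ y + d1 ∈ S := by
    rcases hxor with h1 | h1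
    · exact ⟨0, x, by simp, hxS, hxp, h1⟩
    · refine ⟨1, x + p, by simp, hxp, by rw [hpp]; exact hxS, ?_⟩
      rw [add_right_comm]; exact h1
  have hyL : ¬ InL p d1 y := by
    rcases zmod2_cases κ with h0 | h0
    · rw [hy, h0, zero_smul, add_zero]; exact hxL
    · rw [hy, h0, one_smul, inL_add_p]; exact hxL
  -- the omitted element
  obtain ⟨dk, hdk⟩ : (D.erase d1).Nonempty := by
    rw [← Finset.card_pos, Finset.card_erase_of_mem hd1]; omega
  have hdkD : dk ∈ D := Finset.mem_of_mem_erase hdk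
  have hdk1 : dk ≠ d1 := Finset.ne_of_mem_erase hdk
  set B := D.erase dk with hB
  set I0 := B.erase d1 with hI0
  have hd1B : d1 ∈ B := Finset.mem_erase.mpr ⟨hdk1.symm, hd1⟩
  have hBD : B ⊆ D := Finset.erase_subset _ _
  have hI0D : I0 ⊆ D := (Finset.erase_subset _ _).trans hBD
  have hkerD : span (ZMod 2) (D : Set V) ≤ LinearMap.ker φ := by
    rw [Submodule.span_le]
    intro v hv
    exact (hD v hv).2.1
  have hBspan : span (ZMod 2) (B : Set V) ≤ span (ZMod 2) (D : Set V) :=
    Submodule.span_mono (by exact_mod_cast hBD)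
  have hBind : LinearIndepOn (ZMod 2) id (B : Set V) := by
    apply indep_of_sums
    intro D' hD' hne
    apply hprop D' (hD'.trans hBD) hne
    rintro rfl
    exact (Finset.mem_erase.mp (hD' hdkD)).1 rfl
  have hpB : p ∉ span (ZMod 2) (B : Set V) := by
    intro hh
    have := hkerD (hBspan hh)
    rw [LinearMap.mem_ker, hφp] at this
    exact one_ne_zero this
  have h1 : LinearIndepOn (ZMod 2) id (insert p (B : Set V)) := by
    apply hBind.insert
    simpa using hpB
  have hyB : y ∉ span (ZMod 2) (insert p (B : Set V)) := by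
    intro hh
    have hx' : x ∈ span (ZMod 2) (insert p (B : Set V)) := by
      have : x = y + κ • p := by
        rw [hy]
        rcases zmod2_cases κ with h0 | h0
        · rw [h0]; simp
        · rw [h0, one_smul, hpp]
      rw [this]
      exact Submodule.add_mem _ hh (Submodule.smul_mem _ _ (Submodule.subset_span
        (Set.mem_insert _ _)))
    rw [Submodule.mem_span_insert] at hx'
    obtain ⟨c, z, hz, hxz⟩ := hx'
    have hc : c = 0 := by
      have := congrArg φ hxz
      rw [map_add, map_smul, hφp, hxφ, LinearMap.mem_ker.mp (hkerD (hBspan hz))] at this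
      simpa using this.symm
    rw [hc, zero_smul, zero_add] at hxz
    apply hxspan
    rw [hxz]
    exact hBspan hz
  have h2 : LinearIndepOn (ZMod 2) id (insert y (insert p (B : Set V))) := by
    apply h1.insert
    simpa using hyB
  -- splitting off the line
  have hyne : y ≠ p ∧ y ≠ d1 := by
    constructor
    · rintro hh; apply hyL; rw [hh]; exact Or.inr (Or.inl rfl)
    · rintro hh; apply hyL; rw [hh]; exact Or.inr (Or.inr (Or.inl rfl))
  have hpI0 : p ∉ I0 := fun hh => hpB (Submodule.subset_span (Finset.mem_of_mem_erase hh))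
  have hsplit : insert y (insert p (B : Set V)) = insert y (I0 : Set V) ∪ {p, d1} := by
    ext v
    simp only [Set.mem_insert_iff, Set.mem_union, Set.mem_singleton_iff, Finset.mem_coe, hI0,
      Finset.mem_erase]
    constructor
    · rintro (h | h | h)
      · left; left; exact h
      · right; left; exact h
      · by_cases hv : v = d1
        · right; right; exact hv
        · left; right; exact ⟨hv, h⟩
    · rintro ((h | h) | (h | h))
      · left; exact h
      · right; right; exact h.2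
      · right; left; exact h
      · right; right; rw [h]; exact hd1B
  have hdisj : Disjoint (insert y (I0 : Set V)) {p, d1} := by
    rw [Set.disjoint_left]
    rintro v (rfl | hv) (hv2 | hv2)
    · exact hyne.1 hv2
    · exact hyne.2 hv2
    · rw [hv2] at hv; exact hpI0 hv
    · rw [Set.mem_singleton_iff] at hv2
      rw [hv2] at hv
      exact (Finset.mem_erase.mp hv).1 rfl
  rw [hsplit, linearIndepOn_id_union_iff hdisj] at h2
  obtain ⟨h3, -, h4⟩ := h2
  have hind := indepOn_mkQ h3 h4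
  have hyI0 : y ∉ (I0 : Set V) := by
    intro hh
    exact hyB (Submodule.subset_span (Set.mem_insert_of_mem _ (Finset.mem_of_mem_erase hh)))
  have hI0L : ∀ i ∈ I0, ¬ InL p d1 i := by
    intro i hi hh
    have hiD := hI0D hi
    rw [← mem_span_pair_iff_inL] at hh
    have := (Submodule.disjoint_def.mp h4) i
      (Submodule.subset_span (Set.mem_insert_of_mem _ hi)) hh
    exact h.h0 (this ▸ (hD i hiD).1)
  have hI0ne : I0.Nonempty := by
    rw [← Finset.card_pos, hI0, Finset.card_erase_of_mem hd1B, hB,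
      Finset.card_erase_of_mem hdkD]
    omega
  apply h.hK
  apply k5_of_path (p := p) (a := d1) (x := y) (I0 : Set V) h.hp hd1S hd1p
    (pa_indep h.p_ne (h.a_ne_zero hd1S) (h.a_ne_p hd1p)) hyS hyp hya
    (fun i hi => (hD i (hI0D hi)).1) hyI0 hind
  · intro V1 V2 hd hcov hyV
    by_contra hcon
    push Not at hcon
    obtain ⟨i, hi⟩ := hI0ne
    have hiS := (hD i (hI0D hi)).1
    rcases h.conn hd1S hd1p V1 V2 hd hcov with h5 | h5
    · exact hI0L i hi (mkQ_pair_eq_zero_iff.mp
        ((Submodule.disjoint_def.mp hd) _ (h5 i hiS) (hcon i hi)))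
    · exact hyL (mkQ_pair_eq_zero_iff.mp ((Submodule.disjoint_def.mp hd) _ hyV (h5 y hyS)))
  · intro d hd C hC hIC
    obtain ⟨hdS, hdφ, hdp⟩ := hD d (hI0D hd)
    obtain ⟨hkS, hkφ, hkp⟩ := hD dk hdkD
    have hrest : dk + (d + d1) ∈ span (ZMod 2) C := by
      have e1 : ∑ v ∈ D, v = dk + (d1 + (d + ∑ v ∈ I0.erase d, v)) := by
        rw [← Finset.add_sum_erase D _ hdkD, ← hB, ← Finset.add_sum_erase B _ hd1B, ← hI0,
          ← Finset.add_sum_erase I0 _ hd]
      have e2 : dk + (d + d1) = ∑ v ∈ I0.erase d, v := by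
        rw [hsum] at e1
        linear_combination (norm := module) - e1 - ZModModule.add_self (∑ v ∈ I0.erase d, v)
      rw [e2]
      refine Submodule.sum_mem _ fun v hv => Submodule.subset_span (hIC ⟨?_, ?_⟩)
      · exact Finset.mem_of_mem_erase hv
      · exact Finset.ne_of_mem_erase hv
    refine ⟨InM.of_mem _ hdS, InM.of_mem _ hdp, ⟨dk, hkS, hrest⟩, ⟨dk + p, hkp, ?_⟩⟩
    have : dk + p + (d + d1 + p) = dk + (d + d1) := by
      linear_combination (norm := module) ZModModule.add_self p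
    rw [this]; exact hrest

/-- Case (ii): all neighbours of the full classes of a minimal circuit are in the circuit. -/
theorem Cex.no_inside {ρ : ℕ} {S : Set V} {p : V} (h : Cex ρ S p) {φ : V →ₗ[ZMod 2] ZMod 2}
    (hφp : φ p = 1) (D : Finset V) (hDne : D.Nonempty)
    (hD : ∀ x ∈ D, x ∈ S ∧ φ x = 0 ∧ x + p ∈ S)
    (hsum : ∑ v ∈ D, v = 0)
    (hprop : ∀ D' ⊆ D, D'.Nonempty → D' ≠ D → ∑ v ∈ D', v ≠ 0)
    (hin : ∀ d ∈ D, ∀ x ∈ Nb S p d φ, x ∈ D) : False := by
  classical
  have hpp : ∀ v : V, v + p + p = v := fun v => by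
    linear_combination (norm := module) ZModModule.add_self p
  -- finite neighbourhoods
  have hN : ∀ d ∈ D, ∃ N : Finset V, (∀ x, x ∈ N ↔ x ∈ Nb S p d φ) ∧ 4 ≤ N.card ∧ N ⊆ D := by
    intro d hd
    refine ⟨(Nb S p d φ).toFinite.toFinset, fun x => by simp, ?_, ?_⟩
    · rw [← Set.ncard_eq_toFinset_card]
      exact h.four_le_nb (hD d hd).1 (hD d hd).2.2 hφp (hD d hd).2.1
    · intro x hx
      exact hin d hd x (by simpa using hx)
  have hne : ∀ {d x : V}, x ∈ Nb S p d φ → x ≠ d := by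
    rintro d x hx rfl
    exact hx.2.1 (Or.inr (Or.inr (Or.inl rfl)))
  obtain ⟨d2, hd2⟩ := hDne
  obtain ⟨N2, hN2, hN2c, hN2D⟩ := hN d2 hd2
  obtain ⟨d3, hd3N⟩ : N2.Nonempty := by rw [← Finset.card_pos]; omega
  have hd3 := hN2D hd3N
  rw [hN2] at hd3N
  have h32 : d3 ≠ d2 := hne hd3N
  obtain ⟨d1, hd1N, h13⟩ : ∃ d1 ∈ N2, d1 ∉ ({d3} : Finset V) :=
    Finset.exists_mem_notMem_of_card_lt_card (by rw [Finset.card_singleton]; omega)
  have hd1 := hN2D hd1N
  rw [hN2] at hd1N
  have h12 : d1 ≠ d2 := hne hd1N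
  rw [Finset.mem_singleton] at h13
  obtain ⟨N3, hN3, hN3c, hN3D⟩ := hN d3 hd3
  obtain ⟨d4, hd4N, h4⟩ : ∃ d4 ∈ N3, d4 ∉ ({d1, d2} : Finset V) :=
    Finset.exists_mem_notMem_of_card_lt_card
      (lt_of_le_of_lt (Finset.card_le_two) (by omega))
  have hd4 := hN3D hd4N
  rw [hN3] at hd4N
  have h43 : d4 ≠ d3 := hne hd4N
  rw [Finset.mem_insert, Finset.mem_singleton, not_or] at h4
  obtain ⟨h41, h42⟩ := h4
  -- a fifth element
  have hD5 : 5 ≤ D.card := by
    have h1 : insert d2 N2 ⊆ D := Finset.insert_subset hd2 hN2D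
    have h2 : d2 ∉ N2 := by
      intro hh; rw [hN2] at hh; exact hne hh rfl
    have := Finset.card_le_card h1
    rw [Finset.card_insert_of_notMem h2] at this
    omega
  obtain ⟨d5, hd5, h5⟩ : ∃ d5 ∈ D, d5 ∉ ({d1, d2, d3, d4} : Finset V) :=
    Finset.exists_mem_notMem_of_card_lt_card
      (lt_of_le_of_lt (Finset.card_le_four) (by omega))
  simp only [Finset.mem_insert, Finset.mem_singleton, not_or] at h5
  obtain ⟨h51, h52, h53, h54⟩ := h5
  -- the edges
  have hedge : ∀ {d x : V}, x ∈ Nb S p d φ → ∃ κ : ZMod 2, x + d + κ • p ∈ S := by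
    intro d x hx
    rcases hx.2.2.2.2 with h1 | h1
    · exact ⟨0, by simpa using h1⟩
    · exact ⟨1, by simpa using h1⟩
  obtain ⟨κ1, he12⟩ := hedge hd1N
  obtain ⟨κ2, he23⟩ := hedge hd3N
  obtain ⟨κ3, he34⟩ := hedge hd4N
  have hfull : ∀ d ∈ D, ∀ κ : ZMod 2, d + κ • p ∈ S := by
    intro d hd κ
    rcases zmod2_cases κ with rfl | rfl
    · simpa using (hD d hd).1
    · simpa using (hD d hd).2.2
  set e1 := d1 + κ1 • p with he1
  set e3 := d3 + κ2 • p with he3
  set e4 := d4 + (κ3 + κ2) • p with he4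
  -- the remaining elements
  set D1 := D.erase d4 with hD1
  set R1 := D1.erase d1 with hR1
  set R2 := R1.erase d2 with hR2
  set R3 := R2.erase d3 with hR3
  set R := R3.erase d5 with hR
  have m1 : d1 ∈ D1 := Finset.mem_erase.mpr ⟨Ne.symm h41, hd1⟩
  have m2 : d2 ∈ R1 := Finset.mem_erase.mpr ⟨h12.symm, Finset.mem_erase.mpr ⟨Ne.symm h42, hd2⟩⟩
  have m3 : d3 ∈ R2 := Finset.mem_erase.mpr ⟨h32, Finset.mem_erase.mpr ⟨h13 ∘ Eq.symm,
    Finset.mem_erase.mpr ⟨h43.symm, hd3⟩⟩⟩
  have m5 : d5 ∈ R3 := Finset.mem_erase.mpr ⟨h53, Finset.mem_erase.mpr ⟨h52,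
    Finset.mem_erase.mpr ⟨h51, Finset.mem_erase.mpr ⟨h54, hd5⟩⟩⟩⟩
  have hsum' : d4 + (d1 + (d2 + (d3 + (d5 + ∑ v ∈ R, v)))) = 0 := by
    rw [← hsum, ← Finset.add_sum_erase D _ hd4, ← hD1, ← Finset.add_sum_erase D1 _ m1, ← hR1,
      ← Finset.add_sum_erase R1 _ m2, ← hR2, ← Finset.add_sum_erase R2 _ m3, ← hR3,
      ← Finset.add_sum_erase R3 _ m5]
  set κ5 : ZMod 2 := κ1 + κ2 + (κ3 + κ2) + 1 with hκ5
  set c5 := d5 + κ5 • p with hc5
  have hRD : R ⊆ D1 := ((((Finset.erase_subset _ _).trans (Finset.erase_subset _ _)).trans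
    (Finset.erase_subset _ _)).trans (Finset.erase_subset _ _))
  have hRDD : R ⊆ D := hRD.trans (Finset.erase_subset _ _)
  set C : Set V := insert c5 (R : Set V) with hC
  have hCS : C ⊆ S := by
    rintro v (rfl | hv)
    · exact hfull d5 hd5 κ5
    · exact (hD v (hRDD hv)).1
  have hW : e1 + d2 + e3 + e4 + p ∈ span (ZMod 2) C := by
    have e : e1 + d2 + e3 + e4 + p = c5 + ∑ v ∈ R, v := by
      rw [he1, he3, he4, hc5, hκ5]
      linear_combination (norm := module) hsum' - ZModModule.add_self (∑ v ∈ R, v) -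
        ZModModule.add_self d5
    rw [e]
    exact Submodule.add_mem _ (Submodule.subset_span (Set.mem_insert _ _))
      (Submodule.sum_mem _ fun v hv => Submodule.subset_span (Set.mem_insert_of_mem _ hv))
  -- independence
  have hD1ind : LinearIndepOn (ZMod 2) id (D1 : Set V) := by
    apply indep_of_sums
    intro D' hD' hne
    apply hprop D' (hD'.trans (Finset.erase_subset _ _)) hne
    rintro rfl
    exact (Finset.mem_erase.mp (hD' hd4)).1 rfl
  have hker : span (ZMod 2) (D1 : Set V) ≤ LinearMap.ker φ := by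
    rw [Submodule.span_le]
    intro v hv
    exact (hD v (Finset.mem_of_mem_erase hv)).2.1
  have hpD1 : p ∉ span (ZMod 2) (D1 : Set V) := by
    intro hh
    have := hker hh
    rw [LinearMap.mem_ker, hφp] at this
    exact one_ne_zero this
  have hbig : LinearIndepOn (ZMod 2) id (insert p (D1 : Set V)) := by
    apply hD1ind.insert
    simpa using hpD1
  have hpn : ∀ v ∈ D1, v ≠ p := by
    rintro v hv rfl
    exact hpD1 (Submodule.subset_span hv)
  have l1 : d1 ∈ D1 := m1
  have l2 : d2 ∈ D1 := Finset.mem_of_mem_erase m2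
  have l3 : d3 ∈ D1 := Finset.mem_of_mem_erase (Finset.mem_of_mem_erase m3)
  have l5 : d5 ∈ D1 := Finset.mem_of_mem_erase (Finset.mem_of_mem_erase
    (Finset.mem_of_mem_erase m5))
  have hRne : ∀ v ∈ R, v ≠ d1 ∧ v ≠ d2 ∧ v ≠ d3 ∧ v ≠ d5 := by
    intro v hv
    simp only [hR, hR3, hR2, hR1, Finset.mem_erase] at hv
    exact ⟨hv.2.2.2.1, hv.2.2.1, hv.2.1, hv.1⟩
  -- a functional with prescribed values vanishing on the contracted set
  have hfun : ∀ x1 x2 x3 xp : ZMod 2, ∃ f : V →ₗ[ZMod 2] ZMod 2, f d1 = x1 ∧ f d2 = x2 ∧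
      f d3 = x3 ∧ f p = xp ∧ span (ZMod 2) C ≤ LinearMap.ker f := by
    intro x1 x2 x3 xp
    obtain ⟨f, hf⟩ := exists_values hbig (fun v => if v = d1 then x1 else if v = d2 then x2 else
      if v = d3 then x3 else if v = p then xp else if v = d5 then κ5 * xp else 0)
    have f1 : f d1 = x1 := by rw [hf d1 (Set.mem_insert_of_mem _ l1), if_pos rfl]
    have f2 : f d2 = x2 := by
      rw [hf d2 (Set.mem_insert_of_mem _ l2), if_neg h12.symm, if_pos rfl]
    have f3 : f d3 = x3 := by
      rw [hf d3 (Set.mem_insert_of_mem _ l3), if_neg (h13 ∘ Eq.symm), if_neg h32, if_pos rfl]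
    have fp : f p = xp := by
      rw [hf p (Set.mem_insert _ _), if_neg (hpn d1 l1).symm, if_neg (hpn d2 l2).symm,
        if_neg (hpn d3 l3).symm, if_pos rfl]
    have f5 : f d5 = κ5 * xp := by
      rw [hf d5 (Set.mem_insert_of_mem _ l5), if_neg h51, if_neg h52, if_neg h53,
        if_neg (hpn d5 l5), if_pos rfl]
    refine ⟨f, f1, f2, f3, fp, ?_⟩
    rw [Submodule.span_le]
    rintro v (rfl | hv)
    · rw [SetLike.mem_coe, LinearMap.mem_ker, hc5, map_add, map_smul, f5, fp, smul_eq_mul]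
      exact ZModModule.add_self _
    · obtain ⟨n1, n2, n3, n5⟩ := hRne v hv
      rw [SetLike.mem_coe, LinearMap.mem_ker, hf v (Set.mem_insert_of_mem _ (hRD hv)),
        if_neg n1, if_neg n2, if_neg n3, if_neg (hpn v (hRD hv)), if_neg n5]
  apply h.hK
  refine ⟨C, hCS, d2 + p, e1, e1 + p, d2 + e3, ?_, InM.of_mem _ (hD d2 hd2).2.2,
    InM.of_mem _ (hfull d1 hd1 κ1), ?_, ?_, ?_, ?_, ?_, ?_, ?_, ?_⟩
  · intro α β γ δ hmem
    obtain ⟨g1, a1, a2, a3, a4, a5⟩ := hfun 1 0 0 0
    obtain ⟨g2, b1, b2, b3, b4, b5⟩ := hfun 0 1 0 0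
    obtain ⟨g3, c1, c2, c3, c4, c5'⟩ := hfun 0 0 1 0
    obtain ⟨g4, k1, k2, k3, k4, k5⟩ := hfun κ1 0 κ2 1
    have r1 := a5 hmem
    have r2 := b5 hmem
    have r3 := c5' hmem
    have r4 := k5 hmem
    rw [LinearMap.mem_ker, he1, he3] at r1 r2 r3 r4
    simp only [map_add, map_smul, a1, a2, a3, a4, b1, b2, b3, b4, c1, c2, c3, c4, k1, k2, k3, k4,
      smul_eq_mul] at r1 r2 r3 r4
    revert r1 r2 r3 r4
    clear_value κ5
    clear * -
    revert α β γ δ κ1 κ2
    decide
  · have : e1 + p = d1 + (κ1 + 1) • p := by rw [he1]; module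
    rw [this]; exact InM.of_mem _ (hfull d1 hd1 _)
  · apply InM.of_mem
    have : d2 + e3 = d3 + d2 + κ2 • p := by rw [he3]; module
    rw [this]; exact he23
  · refine ⟨d4 + d3 + κ3 • p, he34, ?_⟩
    have : d4 + d3 + κ3 • p + (d2 + p + e1) = e1 + d2 + e3 + e4 + p := by
      rw [he3, he4]
      linear_combination (norm := module) - κ2 • ZModModule.add_self p
    rw [this]; exact hW
  · apply InM.of_mem
    have : d2 + p + (e1 + p) = d1 + d2 + κ1 • p := by
      rw [he1]; linear_combination (norm := module) ZModModule.add_self p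
    rw [this]; exact he12
  · apply InM.of_mem
    have : d2 + p + (d2 + e3) = d3 + (κ2 + 1) • p := by
      rw [he3]; linear_combination (norm := module) ZModModule.add_self d2
    rw [this]; exact hfull d3 hd3 _
  · apply InM.of_mem
    have : e1 + (e1 + p) = p := by linear_combination (norm := module) ZModModule.add_self e1
    rw [this]; exact h.hp
  · refine ⟨d4 + (κ3 + κ2 + 1) • p, hfull d4 hd4 _, ?_⟩
    have : d4 + (κ3 + κ2 + 1) • p + (e1 + (d2 + e3)) = e1 + d2 + e3 + e4 + p := by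
      rw [he4]; module
    rw [this]; exact hW
  · refine ⟨e4, hfull d4 hd4 _, ?_⟩
    have : e4 + (e1 + p + (d2 + e3)) = e1 + d2 + e3 + e4 + p := by abel
    rw [this]; exact hW

end

end Pool.Agent.H690K5
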