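import Pool.Agent.H690K5.Basic
import Pool.Agent.H690K5.Lin
set_option autoImplicit false
set_option linter.unusedSectionVars false

/-!
# Counting triangles and contracting one point
-/

namespace Pool.Agent.H690K5
open Submodule Finset

section Sums
variable {V : Type} [AddCommGroup V] [Module (ZMod 2) V] [Fintype V] [DecidableEq V]

/-- the indicator function of a finite set. -/
def ix (S : Finset V) (x : V) : ℕ := if x ∈ S then 1 else 0

/-- the number of elements `y` of `S` with `y + p` in `S`. -/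
def dg (S : Finset V) (p : V) : ℕ := (S.filter (fun y => y + p ∈ S)).card

/-- the number of ordered pairs of elements of `S` whose sum is in `S`. -/
def PP (S : Finset V) : ℕ := ∑ p ∈ S, dg S p

theorem sum_ix (S : Finset V) : ∑ x, ix S x = S.card := by
  unfold ix
  rw [Finset.sum_ite_mem, Finset.univ_inter, Finset.sum_const, smul_eq_mul, mul_one]

theorem dg_eq (S : Finset V) (p : V) : dg S p = ∑ y, ix S y * ix S (y + p) := by
  unfold dg ix
  rw [Finset.card_filter, ← Finset.sum_filter_add_sum_filter_not Finset.univ (fun y => y ∈ S)]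
  have h2 : ∑ x ∈ Finset.univ.filter (fun y => ¬ y ∈ S), (if x ∈ S then 1 else 0) *
      (if x + p ∈ S then 1 else 0) = 0 := by
    apply Finset.sum_eq_zero
    intro x hx
    rw [if_neg (Finset.mem_filter.mp hx).2, zero_mul]
  rw [h2, add_zero]
  have h3 : Finset.univ.filter (fun y => y ∈ S) = S := by ext; simp
  rw [h3]
  apply Finset.sum_congr rfl
  intro x hx
  rw [if_pos hx, one_mul]

theorem PP_eq (S : Finset V) : PP S = ∑ x, ∑ y, ix S x * ix S y * ix S (x + y) := by
  unfold PP
  have h1 : ∀ x, ∑ y, ix S x * ix S y * ix S (x + y) = if x ∈ S then dg S x else 0 := by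
    intro x
    rw [dg_eq]
    by_cases hx : x ∈ S
    · rw [if_pos hx]
      apply Finset.sum_congr rfl
      intro y _
      rw [ix, if_pos hx, one_mul, add_comm x y]
    · rw [if_neg hx]
      apply Finset.sum_eq_zero
      intro y _
      rw [ix, if_neg hx, zero_mul, zero_mul]
  rw [Finset.sum_congr rfl (fun x _ => h1 x), Finset.sum_ite_mem, Finset.univ_inter]

theorem sum_translate (f : V → ℕ) (p : V) : ∑ x, f (x + p) = ∑ x, f x :=
  Fintype.sum_equiv (Equiv.addRight p) _ _ (fun _ => rfl)

theorem sum_translate' (f : V → ℕ) (p : V) : ∑ x, f (p + x) = ∑ x, f x :=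
  Fintype.sum_equiv (Equiv.addLeft p) _ _ (fun _ => rfl)

theorem add_add_cancel (x p : V) : x + p + p = x := by
  rw [add_assoc, ZModModule.add_self, add_zero]

/-- Sums of functions that are periodic modulo `p`. -/
theorem sum_per {φ : V →ₗ[ZMod 2] ZMod 2} {p : V} (hφ : φ p = 1) (f : V → ℕ)
    (hf : ∀ x, f (x + p) = f x) :
    ∑ x, f x = 2 * ∑ x ∈ Finset.univ.filter (fun x => φ x = 0), f x := by
  rw [← Finset.sum_filter_add_sum_filter_not Finset.univ (fun x => φ x = 0), two_mul]
  congr 1
  refine Finset.sum_nbij' (fun x => x + p) (fun x => x + p) ?_ ?_ ?_ ?_ ?_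
  · intro x hx
    rw [Finset.mem_filter] at hx ⊢
    refine ⟨Finset.mem_univ _, ?_⟩
    rw [map_add, hφ, (zmod2_cases (φ x)).resolve_left hx.2]
    rfl
  · intro x hx
    rw [Finset.mem_filter] at hx ⊢
    refine ⟨Finset.mem_univ _, ?_⟩
    rw [map_add, hφ, hx.2, zero_add]
    exact one_ne_zero
  · intro x _; exact add_add_cancel x p
  · intro x _; exact add_add_cancel x p
  · intro x _; exact (hf x).symm

theorem tri_per {φ : V →ₗ[ZMod 2] ZMod 2} {p : V} (hφ : φ p = 1) (f g h : V → ℕ)
    (hf : ∀ x, f (x + p) = f x) (hg : ∀ x, g (x + p) = g x) (hh : ∀ x, h (x + p) = h x) :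
    ∑ x, ∑ y, f x * g y * h (x + y) =
      4 * ∑ x ∈ Finset.univ.filter (fun x => φ x = 0),
        ∑ y ∈ Finset.univ.filter (fun x => φ x = 0), f x * g y * h (x + y) := by
  rw [sum_per hφ (fun x => ∑ y, f x * g y * h (x + y))]
  · rw [show (4 : ℕ) = 2 * 2 from rfl, mul_assoc]
    congr 1
    rw [Finset.mul_sum]
    apply Finset.sum_congr rfl
    intro x _
    rw [sum_per hφ (fun y => f x * g y * h (x + y))]
    intro y
    have : x + (y + p) = x + y + p := by abel
    simp only [this, hg, hh]
  · intro x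
    apply Finset.sum_congr rfl
    intro y _
    have : x + p + y = x + y + p := by abel
    simp only [this, hf, hh]

end Sums

section Ctr
variable {V : Type} [AddCommGroup V] [Module (ZMod 2) V] [Fintype V] [DecidableEq V]

/-- the contraction of `p`, realised in the kernel of `φ`. -/
def ctr (φ : V →ₗ[ZMod 2] ZMod 2) (p : V) (S : Finset V) : Finset V :=
  Finset.univ.filter (fun x => φ x = 0 ∧ x ≠ 0 ∧ (x ∈ S ∨ x + p ∈ S))

/-- the full lines through `p`, represented in the kernel of `φ`. -/
def DD (φ : V →ₗ[ZMod 2] ZMod 2) (p : V) (S : Finset V) : Finset V :=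
  Finset.univ.filter (fun x => φ x = 0 ∧ x ∈ S ∧ x + p ∈ S)

/-- the number of ordered pairs of different full lines through `p` spanning a plane with a further
point. -/
def EE (φ : V →ₗ[ZMod 2] ZMod 2) (p : V) (S : Finset V) : ℕ :=
  ((DD φ p S ×ˢ DD φ p S).filter
    (fun q => q.1 ≠ q.2 ∧ (q.1 + q.2 ∈ S ∨ q.1 + q.2 + p ∈ S))).card

theorem mem_ctr {φ : V →ₗ[ZMod 2] ZMod 2} {p : V} {S : Finset V} {x : V} :
    x ∈ ctr φ p S ↔ φ x = 0 ∧ x ≠ 0 ∧ (x ∈ S ∨ x + p ∈ S) := by
  simp [ctr]

theorem mem_DD {φ : V →ₗ[ZMod 2] ZMod 2} {p : V} {S : Finset V} {x : V} :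
    x ∈ DD φ p S ↔ φ x = 0 ∧ x ∈ S ∧ x + p ∈ S := by
  simp [DD]

/-- the indicator of the contraction, pulled back. -/
def jx (p : V) (S : Finset V) (x : V) : ℕ :=
  if x = 0 ∨ x = p then 0 else if x ∈ S ∨ x + p ∈ S then 1 else 0

/-- the indicator of the full lines through `p`. -/
def dx (p : V) (S : Finset V) (x : V) : ℕ := ix S x * ix S (x + p)

/-- the indicator of `{0, p}`. -/
def zx (p : V) (x : V) : ℕ := if x = 0 ∨ x = p then 1 else 0

theorem add_p_eq_zero_or {p x : V} : (x + p = 0 ∨ x + p = p) ↔ (x = 0 ∨ x = p) := by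
  constructor
  · rintro (h | h)
    · right
      linear_combination (norm := module) h - ZModModule.add_self p
    · left; simpa using h
  · rintro (rfl | rfl)
    · right; simp
    · left; exact ZModModule.add_self _

theorem jx_per (p : V) (S : Finset V) (x : V) : jx p S (x + p) = jx p S x := by
  unfold jx
  simp only [add_p_eq_zero_or, add_add_cancel]
  by_cases h : x = 0 ∨ x = p
  · rw [if_pos h, if_pos h]
  · rw [if_neg h, if_neg h]
    congr 1
    rw [or_comm]

theorem dx_per (p : V) (S : Finset V) (x : V) : dx p S (x + p) = dx p S x := by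
  unfold dx
  rw [add_add_cancel, mul_comm]

theorem zx_per (p : V) (x : V) : zx p (x + p) = zx p x := by
  unfold zx
  simp only [add_p_eq_zero_or]

theorem ix_cases (S : Finset V) (x : V) : ix S x = 0 ∨ ix S x = 1 := by
  unfold ix; split_ifs <;> simp

theorem jx_generic {p : V} {S : Finset V} {x : V} (h : ¬ (x = 0 ∨ x = p)) :
    jx p S x = max (ix S x) (ix S (x + p)) := by
  unfold jx ix
  rw [if_neg h]
  by_cases h1 : x ∈ S <;> by_cases h2 : x + p ∈ S <;> simp [h1, h2]

theorem generic_ineq (a1 a2 b1 b2 c1 c2 : ℕ) (ha1 : a1 = 0 ∨ a1 = 1) (ha2 : a2 = 0 ∨ a2 = 1)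
    (hb1 : b1 = 0 ∨ b1 = 1) (hb2 : b2 = 0 ∨ b2 = 1) (hc1 : c1 = 0 ∨ c1 = 1)
    (hc2 : c2 = 0 ∨ c2 = 1) :
    a1 * b1 * c1 + a2 * b1 * c2 + a1 * b2 * c2 + a2 * b2 * c1 ≤
      max a1 a2 * max b1 b2 * max c1 c2 + (a1 * a2) * (b1 * b2) * max c1 c2 +
      (a1 * a2) * (c1 * c2) * max b1 b2 + (b1 * b2) * (c1 * c2) * max a1 a2 := by
  rcases ha1 with rfl | rfl <;> rcases ha2 with rfl | rfl <;> rcases hb1 with rfl | rfl <;>
    rcases hb2 with rfl | rfl <;> rcases hc1 with rfl | rfl <;> rcases hc2 with rfl | rfl <;>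
    simp

theorem pointwise {p : V} {S : Finset V} (h0 : (0 : V) ∉ S) (x y : V) :
    ix S x * ix S y * ix S (x + y) + ix S (x + p) * ix S y * ix S (x + y + p) +
      ix S x * ix S (y + p) * ix S (x + y + p) + ix S (x + p) * ix S (y + p) * ix S (x + y) ≤
    jx p S x * jx p S y * jx p S (x + y) + dx p S x * dx p S y * jx p S (x + y) +
      dx p S x * dx p S (x + y) * jx p S y + dx p S y * dx p S (x + y) * jx p S x +
      (2 * zx p x * dx p S y + 2 * zx p y * dx p S x + 2 * zx p (x + y) * dx p S x) := by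
  have i0 : ix S 0 = 0 := by unfold ix; rw [if_neg h0]
  have hle : ∀ v, ix S v ≤ 1 := fun v => by rcases ix_cases S v with h | h <;> omega
  by_cases hx : x = 0 ∨ x = p
  · -- left side is at most `2 * d y`
    have hz : zx p x = 1 := by unfold zx; rw [if_pos hx]
    have hL : ix S x * ix S y * ix S (x + y) + ix S (x + p) * ix S y * ix S (x + y + p) +
      ix S x * ix S (y + p) * ix S (x + y + p) + ix S (x + p) * ix S (y + p) * ix S (x + y)
        ≤ 2 * dx p S y := by
      unfold dx
      rcases hx with rfl | rfl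
      · rw [zero_add, zero_add, i0]
        rcases ix_cases S p with h | h <;> rcases ix_cases S y with h' | h' <;>
          rcases ix_cases S (y + p) with h'' | h'' <;> simp [h, h', h'']
      · rw [ZModModule.add_self, i0, add_comm x y, add_add_cancel]
        rcases ix_cases S x with h | h <;> rcases ix_cases S y with h' | h' <;>
          rcases ix_cases S (y + x) with h'' | h'' <;> simp [h, h', h'']
    rw [hz]
    refine hL.trans ?_
    have := Nat.zero_le (jx p S x * jx p S y * jx p S (x + y) + dx p S x * dx p S y *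
      jx p S (x + y) + dx p S x * dx p S (x + y) * jx p S y + dx p S y * dx p S (x + y) * jx p S x)
    have := Nat.zero_le (2 * zx p y * dx p S x + 2 * zx p (x + y) * dx p S x)
    linarith
  by_cases hy : y = 0 ∨ y = p
  · have hz : zx p y = 1 := by unfold zx; rw [if_pos hy]
    have hL : ix S x * ix S y * ix S (x + y) + ix S (x + p) * ix S y * ix S (x + y + p) +
      ix S x * ix S (y + p) * ix S (x + y + p) + ix S (x + p) * ix S (y + p) * ix S (x + y)
        ≤ 2 * dx p S x := by
      unfold dx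
      rcases hy with rfl | rfl
      · rw [zero_add, add_zero, i0]
        rcases ix_cases S p with h | h <;> rcases ix_cases S x with h' | h' <;>
          rcases ix_cases S (x + p) with h'' | h'' <;> simp [h, h', h'']
      · rw [ZModModule.add_self, i0, add_add_cancel]
        rcases ix_cases S y with h | h <;> rcases ix_cases S x with h' | h' <;>
          rcases ix_cases S (x + y) with h'' | h'' <;> simp [h, h', h'']
    rw [hz]
    refine hL.trans ?_
    have := Nat.zero_le (jx p S x * jx p S y * jx p S (x + y) + dx p S x * dx p S y *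
      jx p S (x + y) + dx p S x * dx p S (x + y) * jx p S y + dx p S y * dx p S (x + y) * jx p S x)
    have := Nat.zero_le (2 * zx p x * dx p S y)
    have := Nat.zero_le (2 * zx p (x + y) * dx p S x)
    linarith
  by_cases hxy : x + y = 0 ∨ x + y = p
  · have hz : zx p (x + y) = 1 := by unfold zx; rw [if_pos hxy]
    have hL : ix S x * ix S y * ix S (x + y) + ix S (x + p) * ix S y * ix S (x + y + p) +
      ix S x * ix S (y + p) * ix S (x + y + p) + ix S (x + p) * ix S (y + p) * ix S (x + y)
        ≤ 2 * dx p S x := by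
      unfold dx
      rcases hxy with h | h
      · have hyx : y = x := by
          linear_combination (norm := module) h - ZModModule.add_self x
        rw [hyx, ZModModule.add_self, zero_add, i0]
        rcases ix_cases S p with h | h <;> rcases ix_cases S x with h' | h' <;>
          rcases ix_cases S (x + p) with h'' | h'' <;> simp [h, h', h'']
      · have hyx : y = x + p := by
          linear_combination (norm := module) h - ZModModule.add_self x
        rw [h, hyx, add_add_cancel, ZModModule.add_self, i0]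
        rcases ix_cases S p with h | h <;> rcases ix_cases S x with h' | h' <;>
          rcases ix_cases S (x + p) with h'' | h'' <;> simp [h, h', h'']
    rw [hz]
    refine hL.trans ?_
    have := Nat.zero_le (jx p S x * jx p S y * jx p S (x + y) + dx p S x * dx p S y *
      jx p S (x + y) + dx p S x * dx p S (x + y) * jx p S y + dx p S y * dx p S (x + y) * jx p S x)
    have := Nat.zero_le (2 * zx p x * dx p S y)
    have := Nat.zero_le (2 * zx p y * dx p S x)
    linarith
  · refine le_trans ?_ (Nat.le_add_right _ _)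
    rw [jx_generic hx, jx_generic hy, jx_generic hxy]
    unfold dx
    exact generic_ineq _ _ _ _ _ _ (ix_cases _ _) (ix_cases _ _) (ix_cases _ _) (ix_cases _ _)
      (ix_cases _ _) (ix_cases _ _)

theorem sum_zx {p : V} (hp : p ≠ 0) : ∑ x, zx p x = 2 := by
  unfold zx
  rw [← Finset.card_filter]
  have : Finset.univ.filter (fun x : V => x = 0 ∨ x = p) = {0, p} := by
    ext x; simp
  rw [this, Finset.card_pair hp.symm]

theorem sum_dx {φ : V →ₗ[ZMod 2] ZMod 2} {p : V} (hφ : φ p = 1) (S : Finset V) :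
    ∑ x, dx p S x = 2 * (DD φ p S).card := by
  rw [sum_per hφ _ (dx_per p S)]
  congr 1
  unfold DD dx ix
  rw [← Finset.filter_filter, Finset.card_filter]
  apply Finset.sum_congr rfl
  intro x _
  by_cases h1 : x ∈ S <;> by_cases h2 : x + p ∈ S <;> simp [h1, h2]

theorem jx_ker {φ : V →ₗ[ZMod 2] ZMod 2} {p : V} (hφ : φ p = 1) (S : Finset V) {x : V}
    (hx : φ x = 0) : jx p S x = ix (ctr φ p S) x := by
  unfold jx ix
  have hxp : x ≠ p := by
    rintro rfl; rw [hφ] at hx; exact one_ne_zero hx
  by_cases h0 : x = 0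
  · rw [if_pos (Or.inl h0), if_neg]
    rw [mem_ctr]; tauto
  · rw [if_neg (by tauto)]
    by_cases h : x ∈ S ∨ x + p ∈ S
    · rw [if_pos h, if_pos]; rw [mem_ctr]; tauto
    · rw [if_neg h, if_neg]; rw [mem_ctr]; tauto

theorem dx_ker {φ : V →ₗ[ZMod 2] ZMod 2} {p : V} (S : Finset V) {x : V}
    (hx : φ x = 0) : dx p S x = ix (DD φ p S) x := by
  unfold dx ix
  by_cases h1 : x ∈ S <;> by_cases h2 : x + p ∈ S <;> simp [mem_DD, h1, h2, hx]

theorem tri_jjj {φ : V →ₗ[ZMod 2] ZMod 2} {p : V} (hφ : φ p = 1) (S : Finset V) :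
    ∑ x, ∑ y, jx p S x * jx p S y * jx p S (x + y) = 4 * PP (ctr φ p S) := by
  rw [tri_per hφ _ _ _ (jx_per p S) (jx_per p S) (jx_per p S), PP_eq]
  congr 1
  have hout : ∀ x, x ∉ Finset.univ.filter (fun x => φ x = 0) → ix (ctr φ p S) x = 0 := by
    intro x hx
    unfold ix
    rw [if_neg]
    rw [mem_ctr]
    intro h
    exact hx (Finset.mem_filter.mpr ⟨Finset.mem_univ _, h.1⟩)
  rw [← Finset.sum_subset (Finset.subset_univ (Finset.univ.filter (fun x => φ x = 0)))
    (fun x _ hx => Finset.sum_eq_zero (fun y _ => by rw [hout x hx, zero_mul, zero_mul]))]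
  apply Finset.sum_congr rfl
  intro x hx
  rw [← Finset.sum_subset (Finset.subset_univ (Finset.univ.filter (fun x => φ x = 0)))
    (fun y _ hy => by rw [hout y hy, mul_zero, zero_mul])]
  apply Finset.sum_congr rfl
  intro y hy
  have hx' := (Finset.mem_filter.mp hx).2
  have hy' := (Finset.mem_filter.mp hy).2
  rw [jx_ker hφ S hx', jx_ker hφ S hy', jx_ker hφ S (by rw [map_add, hx', hy', add_zero])]

theorem EE_eq {φ : V →ₗ[ZMod 2] ZMod 2} {p : V} (hφ : φ p = 1) (S : Finset V) :
    ∑ x, ∑ y, dx p S x * dx p S y * jx p S (x + y) = 4 * EE φ p S := by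
  rw [tri_per hφ _ _ _ (dx_per p S) (dx_per p S) (jx_per p S)]
  congr 1
  have hout : ∀ x, x ∉ DD φ p S → ix (DD φ p S) x = 0 := by
    intro x hx; unfold ix; rw [if_neg hx]
  have hsub : DD φ p S ⊆ Finset.univ.filter (fun x => φ x = 0) := by
    intro x hx
    exact Finset.mem_filter.mpr ⟨Finset.mem_univ _, (mem_DD.mp hx).1⟩
  have h1 : ∀ x ∈ Finset.univ.filter (fun x => φ x = 0),
      ∑ y ∈ Finset.univ.filter (fun x => φ x = 0), dx p S x * dx p S y * jx p S (x + y) =
      ∑ y ∈ DD φ p S, ix (DD φ p S) x * jx p S (x + y) := by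
    intro x hx
    rw [← Finset.sum_subset hsub (fun y hy hy' => by
      rw [dx_ker (φ := φ) S (Finset.mem_filter.mp hy).2, hout y hy', mul_zero, zero_mul])]
    apply Finset.sum_congr rfl
    intro y hy
    rw [dx_ker (φ := φ) S (Finset.mem_filter.mp hx).2, dx_ker (φ := φ) S (mem_DD.mp hy).1]
    have : ix (DD φ p S) y = 1 := by unfold ix; rw [if_pos hy]
    rw [this, mul_one]
  rw [Finset.sum_congr rfl h1, ← Finset.sum_subset hsub (fun x _ hx' => Finset.sum_eq_zero
    (fun y _ => by rw [hout x hx', zero_mul]))]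
  unfold EE
  rw [Finset.card_filter, Finset.sum_product]
  apply Finset.sum_congr rfl
  intro x hx
  apply Finset.sum_congr rfl
  intro y hy
  have : ix (DD φ p S) x = 1 := by unfold ix; rw [if_pos hx]
  rw [this, one_mul]
  unfold jx
  have hx' := mem_DD.mp hx
  have hy' := mem_DD.mp hy
  have hne : x + y ≠ p := by
    intro h
    have := congrArg φ h
    rw [map_add, hx'.1, hy'.1, hφ, add_zero] at this
    exact zero_ne_one this
  by_cases hxy : x = y
  · subst hxy
    rw [if_pos (Or.inl (ZModModule.add_self x)), if_neg (by tauto)]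
  · have h0 : x + y ≠ 0 := by
      intro h; apply hxy
      linear_combination (norm := module) h - ZModModule.add_self y
    rw [if_neg (by tauto)]
    by_cases h : x + y ∈ S ∨ x + y + p ∈ S
    · rw [if_pos h, if_pos ⟨hxy, h⟩]
    · rw [if_neg h, if_neg (fun h' => h h'.2)]

/-- **The counting inequality.** -/
theorem PP_le_ctr {φ : V →ₗ[ZMod 2] ZMod 2} {p : V} (hφ : φ p = 1) {S : Finset V}
    (h0 : (0 : V) ∉ S) :
    PP S ≤ PP (ctr φ p S) + 6 * (DD φ p S).card + 3 * EE φ p S := by
  have hp : p ≠ 0 := by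
    rintro rfl; rw [map_zero] at hφ; exact zero_ne_one hφ
  have h1 : ∑ x, ∑ y, (ix S x * ix S y * ix S (x + y) +
      ix S (x + p) * ix S y * ix S (x + y + p) +
      ix S x * ix S (y + p) * ix S (x + y + p) + ix S (x + p) * ix S (y + p) * ix S (x + y)) ≤
    ∑ x, ∑ y, (jx p S x * jx p S y * jx p S (x + y) + dx p S x * dx p S y * jx p S (x + y) +
      dx p S x * dx p S (x + y) * jx p S y + dx p S y * dx p S (x + y) * jx p S x +
      (2 * zx p x * dx p S y + 2 * zx p y * dx p S x + 2 * zx p (x + y) * dx p S x)) :=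
    Finset.sum_le_sum fun x _ => Finset.sum_le_sum fun y _ => pointwise h0 x y
  simp only [Finset.sum_add_distrib] at h1
  have e2 : ∑ x, ∑ y, ix S (x + p) * ix S y * ix S (x + y + p) = PP S := by
    rw [PP_eq, ← sum_translate (fun x => ∑ y, ix S x * ix S y * ix S (x + y)) p]
    apply Finset.sum_congr rfl; intro x _
    apply Finset.sum_congr rfl; intro y _
    rw [show x + y + p = x + p + y by abel]
  have e3 : ∑ x, ∑ y, ix S x * ix S (y + p) * ix S (x + y + p) = PP S := by
    rw [PP_eq]
    apply Finset.sum_congr rfl; intro x _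
    rw [← sum_translate (fun y => ix S x * ix S y * ix S (x + y)) p]
    apply Finset.sum_congr rfl; intro y _
    rw [show x + y + p = x + (y + p) by abel]
  have e4 : ∑ x, ∑ y, ix S (x + p) * ix S (y + p) * ix S (x + y) = PP S := by
    rw [PP_eq, ← sum_translate (fun x => ∑ y, ix S x * ix S y * ix S (x + y)) p]
    apply Finset.sum_congr rfl; intro x _
    rw [← sum_translate (fun y => ix S (x + p) * ix S y * ix S (x + p + y)) p]
    apply Finset.sum_congr rfl; intro y _
    rw [show x + p + (y + p) = x + y + p + p by abel, add_add_cancel]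
  have e5 := tri_jjj hφ S
  have e6 := EE_eq hφ S
  have e7 : ∑ x, ∑ y, dx p S x * dx p S (x + y) * jx p S y = 4 * EE φ p S := by
    rw [← e6]
    apply Finset.sum_congr rfl; intro x _
    rw [← sum_translate' (fun y => dx p S x * dx p S y * jx p S (x + y)) x]
    apply Finset.sum_congr rfl; intro y _
    rw [show x + (x + y) = y + x + x by abel, add_add_cancel]
  have e8 : ∑ x, ∑ y, dx p S y * dx p S (x + y) * jx p S x = 4 * EE φ p S := by
    rw [← e7, Finset.sum_comm]
    apply Finset.sum_congr rfl; intro x _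
    apply Finset.sum_congr rfl; intro y _
    rw [add_comm x y]
  have e9 : ∑ x, ∑ y, 2 * zx p x * dx p S y = 8 * (DD φ p S).card := by
    have : ∀ x, ∑ y, 2 * zx p x * dx p S y = zx p x * (4 * (DD φ p S).card) := by
      intro x
      rw [← Finset.mul_sum, sum_dx hφ]; ring
    rw [Finset.sum_congr rfl (fun x _ => this x), ← Finset.sum_mul, sum_zx hp]; ring
  have e10 : ∑ x, ∑ y, 2 * zx p y * dx p S x = 8 * (DD φ p S).card := by
    rw [← e9, Finset.sum_comm]
  have e11 : ∑ x, ∑ y, 2 * zx p (x + y) * dx p S x = 8 * (DD φ p S).card := by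
    have : ∀ x, ∑ y, 2 * zx p (x + y) * dx p S x = 4 * dx p S x := by
      intro x
      rw [← Finset.sum_mul, ← Finset.mul_sum, sum_translate' (fun y => zx p y) x, sum_zx hp]
      norm_num
    rw [Finset.sum_congr rfl (fun x _ => this x), ← Finset.mul_sum, sum_dx hφ]; ring
  rw [e2, e3, e4, e5, e6, e7, e8, e9, e10, e11, ← PP_eq] at h1
  omega

theorem dg_eq_DD {φ : V →ₗ[ZMod 2] ZMod 2} {p : V} (hφ : φ p = 1) (S : Finset V) :
    dg S p = 2 * (DD φ p S).card := by
  rw [dg_eq, ← sum_dx hφ]
  rfl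

theorem card_ctr {φ : V →ₗ[ZMod 2] ZMod 2} {p : V} (hφ : φ p = 1) {S : Finset V}
    (h0 : (0 : V) ∉ S) (hpS : p ∈ S) :
    S.card = (ctr φ p S).card + 1 + (DD φ p S).card := by
  have hp : p ≠ 0 := fun h => h0 (h ▸ hpS)
  have i0 : ix S 0 = 0 := by unfold ix; rw [if_neg h0]
  have ip : ix S p = 1 := by unfold ix; rw [if_pos hpS]
  have h1 : ∀ x, ix S x + ix S (x + p) = jx p S x + dx p S x + zx p x := by
    intro x
    by_cases hx : x = 0 ∨ x = p
    · have : jx p S x = 0 := by unfold jx; rw [if_pos hx]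
      have hz : zx p x = 1 := by unfold zx; rw [if_pos hx]
      rw [this, hz]
      unfold dx
      rcases hx with rfl | rfl
      · rw [zero_add, i0, ip]
      · rw [ZModModule.add_self, i0, ip]
    · have hz : zx p x = 0 := by unfold zx; rw [if_neg hx]
      rw [jx_generic hx, hz]
      unfold dx
      rcases ix_cases S x with h | h <;> rcases ix_cases S (x + p) with h' | h' <;> simp [h, h']
  have h2 := Finset.sum_congr (rfl : (Finset.univ : Finset V) = _) (fun x _ => h1 x)
  simp only [Finset.sum_add_distrib] at h2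
  rw [sum_translate (ix S) p, sum_ix, sum_dx hφ, sum_zx hp, sum_per hφ _ (jx_per p S)] at h2
  have h3 : ∑ x ∈ Finset.univ.filter (fun x => φ x = 0), jx p S x = (ctr φ p S).card := by
    rw [← sum_ix, ← Finset.sum_subset (Finset.subset_univ (Finset.univ.filter (fun x => φ x = 0)))]
    · apply Finset.sum_congr rfl
      intro x hx
      exact jx_ker hφ S (Finset.mem_filter.mp hx).2
    · intro x _ hx
      unfold ix
      rw [if_neg]
      rw [mem_ctr]
      intro h
      exact hx (Finset.mem_filter.mpr ⟨Finset.mem_univ _, h.1⟩)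
  rw [h3] at h2
  omega

theorem dg_lt {p : V} {S : Finset V} (h0 : (0 : V) ∉ S) (hpS : p ∈ S) : dg S p + 1 ≤ S.card := by
  unfold dg
  have h1 : S.filter (fun y => y + p ∈ S) ⊆ S.erase p := by
    intro y hy
    rw [Finset.mem_filter] at hy
    rw [Finset.mem_erase]
    refine ⟨?_, hy.1⟩
    rintro rfl
    rw [ZModModule.add_self] at hy
    exact h0 hy.2
  have h2 := Finset.card_le_card h1
  rw [Finset.card_erase_of_mem hpS] at h2
  have := Finset.card_pos.mpr ⟨p, hpS⟩
  omega

theorem EE_le {φ : V →ₗ[ZMod 2] ZMod 2} {p : V} (S : Finset V) :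
    EE φ p S ≤ (DD φ p S).card * ((DD φ p S).card - 1) := by
  unfold EE
  have h1 : (DD φ p S ×ˢ DD φ p S).filter
    (fun q => q.1 ≠ q.2 ∧ (q.1 + q.2 ∈ S ∨ q.1 + q.2 + p ∈ S)) ⊆ (DD φ p S).offDiag := by
    intro q hq
    rw [Finset.mem_filter, Finset.mem_product] at hq
    rw [Finset.mem_offDiag]
    exact ⟨hq.1.1, hq.1.2, hq.2.1⟩
  have h2 := Finset.card_le_card h1
  rw [Finset.offDiag_card] at h2
  refine h2.trans (le_of_eq ?_)
  rw [Nat.mul_sub, mul_one]

end Ctr

section Minor
variable {V : Type} [AddCommGroup V] [Module (ZMod 2) V]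

/-- A minor of the image under a map with kernel spanned by elements of `S` is a minor. -/
theorem HasK5.of_map {U : Type} [AddCommGroup U] [Module (ZMod 2) U] (f : V →ₗ[ZMod 2] U)
    {S : Set V} (C0 : Set V) (hC0 : C0 ⊆ S) (hker : LinearMap.ker f = span (ZMod 2) C0)
    (h : HasK5 (f '' S)) : HasK5 S := by
  obtain ⟨C, hC, a, b, c, d, hi, h1, h2, h3, h4, h5, h6, h7, h8, h9, h10⟩ := h
  have hmap : (span (ZMod 2) (C0 ∪ (S ∩ f ⁻¹' C))).map f = span (ZMod 2) C := by
    rw [Submodule.map_span]
    apply le_antisymm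
    · rw [Submodule.span_le]
      rintro _ ⟨v, hv | hv, rfl⟩
      · have : f v = 0 := by
          have : v ∈ LinearMap.ker f := by rw [hker]; exact Submodule.subset_span hv
          exact this
        rw [this]
        exact Submodule.zero_mem _
      · exact Submodule.subset_span hv.2
    · rw [Submodule.span_le]
      intro y hy
      obtain ⟨v, hv, rfl⟩ := hC hy
      exact Submodule.subset_span ⟨v, Or.inr ⟨hv, hy⟩, rfl⟩
  have key : span (ZMod 2) (C0 ∪ (S ∩ f ⁻¹' C)) = (span (ZMod 2) C).comap f := by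
    rw [← hmap, Submodule.comap_map_eq, hker]
    symm
    apply sup_eq_left.mpr
    exact Submodule.span_mono Set.subset_union_left
  have hrange : ∀ v : U, InM (f '' S) (span (ZMod 2) C) v → ∃ w, f w = v := by
    rintro v ⟨_, ⟨s, hs, rfl⟩, hsv⟩
    have hle : span (ZMod 2) C ≤ LinearMap.range f := by
      rw [Submodule.span_le]
      intro y hy
      obtain ⟨v, hv, rfl⟩ := hC hy
      exact ⟨v, rfl⟩
    obtain ⟨w, hw⟩ := hle hsv
    refine ⟨w + s, ?_⟩
    rw [map_add, hw]
    linear_combination (norm := module) ZModModule.add_self (f s)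
  obtain ⟨a, rfl⟩ := hrange a h1
  obtain ⟨b, rfl⟩ := hrange b h2
  obtain ⟨c, rfl⟩ := hrange c h3
  obtain ⟨d, rfl⟩ := hrange d h4
  have hIn : ∀ v : V, InM (f '' S) (span (ZMod 2) C) (f v) →
      InM S (span (ZMod 2) (C0 ∪ (S ∩ f ⁻¹' C))) v := by
    rintro v ⟨_, ⟨s, hs, rfl⟩, hsv⟩
    refine ⟨s, hs, ?_⟩
    rw [key, Submodule.mem_comap, map_add]
    exact hsv
  refine ⟨C0 ∪ (S ∩ f ⁻¹' C), Set.union_subset hC0 Set.inter_subset_left, a, b, c, d, ?_, hIn _ h1,
    hIn _ h2, hIn _ h3, hIn _ h4, hIn _ ?_, hIn _ ?_, hIn _ ?_, hIn _ ?_, hIn _ ?_, hIn _ ?_⟩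
  · intro α β γ δ hh
    apply hi α β γ δ
    rw [key, Submodule.mem_comap] at hh
    simpa only [map_add, map_smul] using hh
  all_goals rw [map_add]; assumption

variable [Fintype V] [DecidableEq V]

theorem not_hasK5_ctr {φ : V →ₗ[ZMod 2] ZMod 2} {p : V} (hφ : φ p = 1) {S : Finset V}
    (hpS : p ∈ S) (hK : ¬ HasK5 (S : Set V)) : ¬ HasK5 (ctr φ p S : Set V) := by
  intro h
  apply hK
  let f : V →ₗ[ZMod 2] V := LinearMap.id + φ.smulRight p
  have hf : ∀ v, f v = v + φ v • p := fun v => rfl
  apply HasK5.of_map f {p} (by simpa using hpS)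
  · apply le_antisymm
    · intro v hv
      rw [LinearMap.mem_ker, hf] at hv
      rw [Submodule.mem_span_singleton]
      exact ⟨φ v, by linear_combination (norm := module) hv - ZModModule.add_self v⟩
    · rw [Submodule.span_le]
      rintro v hv
      rw [Set.mem_singleton_iff] at hv
      rw [hv, SetLike.mem_coe, LinearMap.mem_ker, hf, hφ, one_smul]
      exact ZModModule.add_self p
  · refine h.mono ?_
    intro x hx
    rw [Finset.mem_coe, mem_ctr] at hx
    obtain ⟨hx0, -, hx⟩ := hx
    rcases hx with hx | hx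
    · exact ⟨x, hx, by rw [hf, hx0, zero_smul, add_zero]⟩
    · refine ⟨x + p, hx, ?_⟩
      rw [hf, map_add, hx0, hφ, zero_add, one_smul, add_add_cancel]

theorem zero_notMem_ctr {φ : V →ₗ[ZMod 2] ZMod 2} {p : V} {S : Finset V} : (0 : V) ∉ ctr φ p S := by
  intro h
  exact (mem_ctr.mp h).2.1 rfl

theorem finrank_ctr {φ : V →ₗ[ZMod 2] ZMod 2} {p : V} (hφ : φ p = 1) {S : Finset V}
    (hpS : p ∈ S) :
    Module.finrank (ZMod 2) (span (ZMod 2) (ctr φ p S : Set V)) + 1 ≤
      Module.finrank (ZMod 2) (span (ZMod 2) (S : Set V)) := by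
  apply Submodule.finrank_lt_finrank_of_lt
  rw [SetLike.lt_iff_le_and_exists]
  have hpS' : p ∈ span (ZMod 2) (S : Set V) := Submodule.subset_span (Finset.mem_coe.mpr hpS)
  refine ⟨?_, p, hpS', ?_⟩
  · rw [Submodule.span_le]
    intro x hx
    rw [Finset.mem_coe, mem_ctr] at hx
    rcases hx.2.2 with h | h
    · exact Submodule.subset_span (Finset.mem_coe.mpr h)
    · have := Submodule.add_mem _ (Submodule.subset_span (R := ZMod 2) (Finset.mem_coe.mpr h)) hpS'
      rw [add_add_cancel] at this
      exact this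
  · intro h
    have hle : span (ZMod 2) (ctr φ p S : Set V) ≤ LinearMap.ker φ := by
      rw [Submodule.span_le]
      intro x hx
      rw [Finset.mem_coe, mem_ctr] at hx
      exact hx.1
    have := hle h
    rw [LinearMap.mem_ker, hφ] at this
    exact one_ne_zero this

end Minor

end Pool.Agent.H690K5
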