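import Pool.Agent.H690K5.FCount
set_option autoImplicit false
set_option linter.unusedSectionVars false

/-!
# Full lines through a point
-/

namespace Pool.Agent.H690K5
open Submodule

section
variable {V : Type} [AddCommGroup V] [Module (ZMod 2) V]

/-- Three full lines `a, b, c` through `p` whose three planes contain further points of even sign
give an `M(K₅)`-minor. -/
theorem k5_even {S C : Set V} (hC : C ⊆ S) {p a b c : V}
    (hi : Ind4 (span (ZMod 2) C) p a b c) (hp : p ∈ S)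
    (ha : InM S (span (ZMod 2) C) a)
    (hap : InM S (span (ZMod 2) C) (a + p))
    (hb : InM S (span (ZMod 2) C) b)
    (hbp : InM S (span (ZMod 2) C) (b + p))
    (hc : InM S (span (ZMod 2) C) c)
    (hcp : InM S (span (ZMod 2) C) (c + p)) (σ τ : ZMod 2)
    (hab : InM S (span (ZMod 2) C) (a + b + σ • p))
    (hac : InM S (span (ZMod 2) C) (a + c + τ • p))
    (hbc : InM S (span (ZMod 2) C) (b + c + (σ + τ) • p)) : HasK5 S := by
  have hlift : ∀ (v : V) (ε : ZMod 2), InM S (span (ZMod 2) C) v →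
      InM S (span (ZMod 2) C) (v + p) → InM S (span (ZMod 2) C) (v + ε • p) := by
    intro v ε h1 h2
    rcases zmod2_cases ε with rfl | rfl
    · simpa using h1
    · simpa using h2
  have hlift' : ∀ (v : V) (ε : ZMod 2), InM S (span (ZMod 2) C) v →
      InM S (span (ZMod 2) C) (v + p) → InM S (span (ZMod 2) C) (p + (v + ε • p)) := by
    intro v ε h1 h2
    have := hlift v (ε + 1) h1 h2
    have e : p + (v + ε • p) = v + (ε + 1) • p := by module
    rw [e]; exact this
  refine ⟨C, hC, p, a, b + σ • p, c + τ • p, ?_, InM.of_mem _ hp, ha, hlift b σ hb hbp,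
    hlift c τ hc hcp, ?_, hlift' b σ hb hbp, hlift' c τ hc hcp, ?_, ?_, ?_⟩
  · intro α β γ δ h
    have := hi (α + γ * σ + δ * τ) β γ δ (by
      have e : (α + γ * σ + δ * τ) • p + β • a + γ • b + δ • c =
        α • p + β • a + γ • (b + σ • p) + δ • (c + τ • p) := by module
      rw [e]; exact h)
    obtain ⟨h1, h2, h3, h4⟩ := this
    subst h3 h4
    refine ⟨by simpa using h1, h2, rfl, rfl⟩
  · rw [add_comm p a]; exact hap
  · rw [← add_assoc]; exact hab
  · rw [← add_assoc]; exact hac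
  · have e : b + σ • p + (c + τ • p) = b + c + (σ + τ) • p := by module
    rw [e]; exact hbc

/-- the planes spanned by `p, x, y` contain a further point. -/
def Adj (S : Set V) (p x y : V) : Prop := x + y ∈ S ∨ x + y + p ∈ S

theorem Adj.symm {S : Set V} {p x y : V} (h : Adj S p x y) : Adj S p y x := by
  unfold Adj; rw [add_comm y x]; exact h

theorem Adj.sign {S : Set V} {p x y : V} (h : Adj S p x y) : ∃ σ : ZMod 2, x + y + σ • p ∈ S := by
  rcases h with h | h
  · exact ⟨0, by simpa using h⟩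
  · exact ⟨1, by simpa using h⟩

theorem span_empty_bot : span (ZMod 2) (∅ : Set V) = ⊥ := Submodule.span_empty

theorem add_ne_zero_of_ne {a b : V} (h : a ≠ b) : a + b ≠ 0 := by
  intro h'
  apply h
  linear_combination (norm := module) h' - ZModModule.add_self b

theorem eq_of_add_zero {a b : V} (h : a + b = 0) : a = b := by
  linear_combination (norm := module) h - ZModModule.add_self b

/-- Independence of `p` and three elements of the kernel. -/
theorem ind4_ker {φ : V →ₗ[ZMod 2] ZMod 2} {p a b c : V} (hφ : φ p = 1)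
    (ha : φ a = 0) (hb : φ b = 0) (hc : φ c = 0)
    (ha0 : a ≠ 0) (hb0 : b ≠ 0) (hc0 : c ≠ 0) (hab : a + b ≠ 0) (hac : a + c ≠ 0)
    (hbc : b + c ≠ 0) (habc : a + b + c ≠ 0) : Ind4 (⊥ : Submodule (ZMod 2) V) p a b c := by
  intro α β γ δ h
  rw [Submodule.mem_bot] at h
  have h1 := congrArg φ h
  simp only [map_add, map_smul, hφ, ha, hb, hc, mul_zero, add_zero, map_zero, smul_eq_mul,
    mul_one] at h1
  subst h1
  rw [zero_smul, zero_add] at h
  rcases zmod2_cases β with rfl | rfl <;> rcases zmod2_cases γ with rfl | rfl <;>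
    rcases zmod2_cases δ with rfl | rfl <;> simp_all

/-- Independence of `p` and four elements of the kernel. -/
theorem ind5_ker {φ : V →ₗ[ZMod 2] ZMod 2} {p a b c d : V} (hφ : φ p = 1)
    (ha : φ a = 0) (hb : φ b = 0) (hc : φ c = 0) (hd : φ d = 0)
    (ha0 : a ≠ 0) (hb0 : b ≠ 0) (hc0 : c ≠ 0) (hd0 : d ≠ 0)
    (hab : a + b ≠ 0) (hac : a + c ≠ 0) (had : a + d ≠ 0)
    (hbc : b + c ≠ 0) (hbd : b + d ≠ 0) (hcd : c + d ≠ 0)
    (habc : a + b + c ≠ 0) (habd : a + b + d ≠ 0) (hacd : a + c + d ≠ 0) (hbcd : b + c + d ≠ 0)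
    (habcd : a + b + c + d ≠ 0) (α β γ δ ε : ZMod 2)
    (h : α • p + β • a + γ • b + δ • c + ε • d = 0) :
    α = 0 ∧ β = 0 ∧ γ = 0 ∧ δ = 0 ∧ ε = 0 := by
  have h1 := congrArg φ h
  simp only [map_add, map_smul, hφ, ha, hb, hc, hd, mul_zero, add_zero, map_zero, smul_eq_mul,
    mul_one] at h1
  subst h1
  rw [zero_smul, zero_add] at h
  rcases zmod2_cases β with rfl | rfl <;> rcases zmod2_cases γ with rfl | rfl <;>
    rcases zmod2_cases δ with rfl | rfl <;> rcases zmod2_cases ε with rfl | rfl <;> simp_all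

/-- Data of a full line through `p`, represented in the kernel of `φ`. -/
def FL (φ : V →ₗ[ZMod 2] ZMod 2) (S : Set V) (p x : V) : Prop :=
  φ x = 0 ∧ x ∈ S ∧ x + p ∈ S

/-- The triangle with even sign. -/
theorem sign_odd {S : Set V} {φ : V →ₗ[ZMod 2] ZMod 2} {p a b c : V} (hφ : φ p = 1)
    (h0 : (0 : V) ∉ S) (hp : p ∈ S) (hK : ¬ HasK5 S)
    (ha : FL φ S p a) (hb : FL φ S p b) (hc : FL φ S p c)
    (hab : a ≠ b) (hac : a ≠ c) (hbc : b ≠ c) (habc : a + b + c ≠ 0) (σ τ υ : ZMod 2)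
    (h1 : a + b + σ • p ∈ S) (h2 : a + c + τ • p ∈ S) (h3 : b + c + υ • p ∈ S) :
    υ = σ + τ + 1 := by
  by_contra hne
  have hυ : υ = σ + τ :=
    (by decide : ∀ σ τ υ : ZMod 2, ¬ υ = σ + τ + 1 → υ = σ + τ) σ τ υ hne
  subst hυ
  apply hK
  have hne0 : ∀ x, x ∈ S → x ≠ 0 := fun x hx h => h0 (h ▸ hx)
  apply k5_even (C := ∅) (Set.empty_subset _) (p := p) (a := a) (b := b) (c := c) _ hp
    (InM.of_mem _ ha.2.1) (InM.of_mem _ ha.2.2) (InM.of_mem _ hb.2.1) (InM.of_mem _ hb.2.2)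
    (InM.of_mem _ hc.2.1) (InM.of_mem _ hc.2.2) σ τ (InM.of_mem _ h1) (InM.of_mem _ h2)
    (InM.of_mem _ h3)
  rw [span_empty_bot]
  exact ind4_ker hφ ha.1 hb.1 hc.1 (hne0 _ ha.2.1) (hne0 _ hb.2.1) (hne0 _ hc.2.1)
    (add_ne_zero_of_ne hab) (add_ne_zero_of_ne hac) (add_ne_zero_of_ne hbc) habc

/-- A full plane through `p` and a further full line adjacent to two lines in the plane. -/
theorem no_plane {S : Set V} {φ : V →ₗ[ZMod 2] ZMod 2} {p a b c : V} (hφ : φ p = 1)
    (h0 : (0 : V) ∉ S) (hp : p ∈ S) (hK : ¬ HasK5 S)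
    (ha : FL φ S p a) (hb : FL φ S p b) (hc : FL φ S p c) (hd : FL φ S p (a + b))
    (hab : a ≠ b) (hac : a ≠ c) (hbc : b ≠ c) (habc : a + b + c ≠ 0)
    (h1 : Adj S p a c) (h2 : Adj S p b c) : False := by
  obtain ⟨σ, hσ⟩ := h1.sign
  obtain ⟨τ, hτ⟩ := h2.sign
  have h3 : ∀ ε : ZMod 2, a + b + ε • p ∈ S := by
    intro ε
    rcases zmod2_cases ε with rfl | rfl
    · simpa using hd.2.1
    · simpa using hd.2.2
  have := sign_odd hφ h0 hp hK ha hb hc hab hac hbc habc 0 σ τ (h3 0) hσ hτ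
  have := sign_odd hφ h0 hp hK ha hb hc hab hac hbc habc 1 σ τ (h3 1) hσ hτ
  subst this
  exact (by decide : ∀ σ : ZMod 2, ¬ (1 + σ + 1 = 0 + σ + 1)) σ this

/-- Two adjacent triangles of full lines. -/
theorem no_theta {S : Set V} {φ : V →ₗ[ZMod 2] ZMod 2} {p a b c d : V} (hφ : φ p = 1)
    (h0 : (0 : V) ∉ S) (hp : p ∈ S) (hK : ¬ HasK5 S)
    (ha : FL φ S p a) (hb : FL φ S p b) (hc : FL φ S p c) (hd : FL φ S p d)
    (hab : a ≠ b) (hac : a ≠ c) (had : a ≠ d) (hbc : b ≠ c) (hbd : b ≠ d) (hcd : c ≠ d)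
    (habc : a + b + c ≠ 0) (habd : a + b + d ≠ 0) (hacd : a + c + d ≠ 0) (hbcd : b + c + d ≠ 0)
    (habcd : a + b + c + d ≠ 0)
    (h1 : Adj S p a b) (h2 : Adj S p a c) (h3 : Adj S p b c) (h4 : Adj S p a d)
    (h5 : Adj S p b d) : False := by
  have hne0 : ∀ x, x ∈ S → x ≠ 0 := fun x hx h => h0 (h ▸ hx)
  obtain ⟨σ1, hσ1⟩ := h1.sign
  obtain ⟨σ2, hσ2⟩ := h2.sign
  obtain ⟨σ3, hσ3⟩ := h3.sign
  obtain ⟨σ4, hσ4⟩ := h4.sign
  obtain ⟨σ5, hσ5⟩ := h5.sign
  have hodd := sign_odd hφ h0 hp hK ha hb hc hab hac hbc habc σ1 σ2 σ3 hσ1 hσ2 hσ3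
  subst hodd
  have hind := ind5_ker hφ ha.1 hb.1 hc.1 hd.1 (hne0 _ ha.2.1) (hne0 _ hb.2.1) (hne0 _ hc.2.1)
    (hne0 _ hd.2.1) (add_ne_zero_of_ne hab) (add_ne_zero_of_ne hac) (add_ne_zero_of_ne had)
    (add_ne_zero_of_ne hbc) (add_ne_zero_of_ne hbd) (add_ne_zero_of_ne hcd) habc habd hacd hbcd
    habcd
  apply hK
  -- contract the point on the plane of `a` and `c`
  set e := a + c + σ2 • p with he
  have hmem : e ∈ span (ZMod 2) {e} := Submodule.mem_span_singleton_self e
  have hboth : ∀ ε : ZMod 2, InM S (span (ZMod 2) {e}) (a + b + ε • p) := by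
    intro ε
    by_cases hε : ε = σ1
    · subst hε; exact InM.of_mem _ hσ1
    · have hε' : ε = σ1 + 1 :=
        (by decide : ∀ σ ε : ZMod 2, ¬ ε = σ → ε = σ + 1) σ1 ε hε
      refine InM.congr (InM.of_mem _ hσ3) ?_
      have : b + c + (σ1 + σ2 + 1) • p + (a + b + ε • p) = e := by
        rw [hε', he]
        have h2 : (σ1 + σ2 + 1 + (σ1 + 1)) = σ2 :=
          (by decide : ∀ σ1 σ2 : ZMod 2, (σ1 + σ2 + 1 + (σ1 + 1)) = σ2) σ1 σ2
        linear_combination (norm := module) ZModModule.add_self b + congrArg (· • p) h2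
      rw [this]; exact hmem
  refine k5_even (C := {e}) (by simpa using hσ2) (p := p) (a := a) (b := b) (c := d) ?_ hp
    (InM.of_mem _ ha.2.1) (InM.of_mem _ ha.2.2) (InM.of_mem _ hb.2.1) (InM.of_mem _ hb.2.2)
    (InM.of_mem _ hd.2.1) (InM.of_mem _ hd.2.2) (σ4 + σ5) σ4 (hboth _) (InM.of_mem _ hσ4) ?_
  · intro α β γ δ h
    obtain ⟨ε, hε⟩ := Submodule.mem_span_singleton.mp h
    have := hind (α + ε * σ2) (β + ε) γ ε δ (by
      rw [he] at hε
      linear_combination (norm := module) (-1 : ZMod 2) • hε +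
        ZModModule.add_self (ε • (a + c + σ2 • p)))
    obtain ⟨h1, h2, h3, h4, h5⟩ := this
    subst h4
    refine ⟨by simpa using h1, by simpa using h2, h3, h5⟩
  · have : σ4 + σ5 + σ4 = σ5 :=
      (by decide : ∀ σ4 σ5 : ZMod 2, σ4 + σ5 + σ4 = σ5) σ4 σ5
    rw [this]; exact InM.of_mem _ hσ5

/-- Four full lines with five adjacent pairs sum to zero. -/
theorem sum_zero_of_adj {S : Set V} {φ : V →ₗ[ZMod 2] ZMod 2} {p a b c d : V} (hφ : φ p = 1)
    (h0 : (0 : V) ∉ S) (hp : p ∈ S) (hK : ¬ HasK5 S)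
    (ha : FL φ S p a) (hb : FL φ S p b) (hc : FL φ S p c) (hd : FL φ S p d)
    (hab : a ≠ b) (hac : a ≠ c) (had : a ≠ d) (hbc : b ≠ c) (hbd : b ≠ d) (hcd : c ≠ d)
    (h1 : Adj S p a b) (h2 : Adj S p a c) (h3 : Adj S p b c) (h4 : Adj S p a d)
    (h5 : Adj S p b d) : a + b + c + d = 0 := by
  have hne0 : ∀ x, x ∈ S → x ≠ 0 := fun x hx h => h0 (h ▸ hx)
  by_contra hsum
  -- three-term relations
  have key : ∀ x y z w : V, FL φ S p x → FL φ S p y → FL φ S p z → FL φ S p w → x ≠ y → x ≠ w →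
      y ≠ w → z ≠ w → x + y + z = 0 → Adj S p x w → Adj S p y w → False := by
    intro x y z w hx hy hz hw hxy hxw hyw hzw hs h1 h2
    have e : z = x + y := by
      have := eq_of_add_zero hs; exact this.symm
    refine no_plane hφ h0 hp hK hx hy hw (e ▸ hz) hxy hxw hyw ?_ h1 h2
    rw [← e]; exact add_ne_zero_of_ne hzw
  have t1 : a + b + c ≠ 0 := fun hs => key a b c d ha hb hc hd hab had hbd hcd hs h4 h5
  have t2 : a + b + d ≠ 0 := fun hs => key a b d c ha hb hd hc hab hac hbc hcd.symm hs h2 h3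
  have t3 : a + c + d ≠ 0 := fun hs => by
    exact key a c d b ha hc hd hb hac hab hbc.symm hbd.symm hs h1 h3.symm
  have t4 : b + c + d ≠ 0 := fun hs => by
    exact key b c d a hb hc hd ha hbc hab.symm hac.symm had.symm hs h1.symm h2.symm
  exact no_theta hφ h0 hp hK ha hb hc hd hab hac had hbc hbd hcd t1 t2 t3 t4 hsum h1 h2 h3 h4 h5

end

section Fin
variable {V : Type} [AddCommGroup V] [Module (ZMod 2) V] [Fintype V] [DecidableEq V]

theorem FL_of_mem {φ : V →ₗ[ZMod 2] ZMod 2} {p : V} {S : Finset V} {x : V}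
    (h : x ∈ DD φ p S) : FL φ (S : Set V) p x := by
  have := mem_DD.mp h
  exact ⟨this.1, this.2.1, this.2.2⟩

/-- If there are few non-adjacent pairs, then at most one pair is not adjacent. -/
theorem exists_pair {φ : V →ₗ[ZMod 2] ZMod 2} {p : V} {S : Finset V}
    (h : (DD φ p S).card * ((DD φ p S).card - 1) ≤ EE φ p S + 3) :
    ∃ u v, ∀ x ∈ DD φ p S, ∀ y ∈ DD φ p S, x ≠ y →
      Adj (S : Set V) p x y ∨ (x = u ∧ y = v) ∨ (x = v ∧ y = u) := by
  classical
  set D := DD φ p S with hD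
  set N := D.offDiag.filter (fun q => ¬ Adj (S : Set V) p q.1 q.2) with hN
  have hcard : N.card + EE φ p S = D.card * (D.card - 1) := by
    have h1 : EE φ p S = (D.offDiag.filter (fun q => Adj (S : Set V) p q.1 q.2)).card := by
      unfold EE
      congr 1
      ext q
      simp only [Finset.mem_filter, Finset.mem_product, Finset.mem_offDiag, Adj, Finset.mem_coe]
      tauto
    rw [h1, hN, add_comm, Finset.card_filter_add_card_filter_not, Finset.offDiag_card,
      Nat.mul_sub, mul_one]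
  have hN3 : N.card ≤ 3 := by omega
  by_cases hne : N.Nonempty
  · obtain ⟨⟨u, v⟩, huv⟩ := hne
    refine ⟨u, v, fun x hx y hy hxy => ?_⟩
    by_contra hcon
    push Not at hcon
    obtain ⟨h1, h2, h3⟩ := hcon
    have hmem : ∀ x y, (x, y) ∈ N ↔ x ∈ D ∧ y ∈ D ∧ x ≠ y ∧ ¬ Adj (S : Set V) p x y := by
      intro x y
      rw [hN, Finset.mem_filter, Finset.mem_offDiag]
      tauto
    have huv' := (hmem u v).mp huv
    have m1 : (v, u) ∈ N := (hmem v u).mpr ⟨huv'.2.1, huv'.1, huv'.2.2.1.symm,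
      fun h => huv'.2.2.2 h.symm⟩
    have m2 : (x, y) ∈ N := (hmem x y).mpr ⟨hx, hy, hxy, h1⟩
    have m3 : (y, x) ∈ N := (hmem y x).mpr ⟨hy, hx, hxy.symm, fun h => h1 h.symm⟩
    have hsub : ({(u, v), (v, u), (x, y), (y, x)} : Finset (V × V)) ⊆ N := by
      intro q hq
      simp only [Finset.mem_insert, Finset.mem_singleton] at hq
      rcases hq with rfl | rfl | rfl | rfl <;> assumption
    have hc := Finset.card_le_card hsub
    have hcard4 : ({(u, v), (v, u), (x, y), (y, x)} : Finset (V × V)).card = 4 := by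
      rw [Finset.card_insert_of_notMem, Finset.card_insert_of_notMem,
        Finset.card_insert_of_notMem, Finset.card_singleton]
      · simp only [Finset.mem_singleton, Prod.mk.injEq, not_and]
        intro h; exact fun _ => hxy h
      · simp only [Finset.mem_insert, Finset.mem_singleton, Prod.mk.injEq, not_or, not_and]
        exact ⟨fun h h' => h3 h.symm h'.symm, fun h h' => h2 h'.symm h.symm⟩
      · simp only [Finset.mem_insert, Finset.mem_singleton, Prod.mk.injEq, not_or, not_and]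
        exact ⟨fun h _ => huv'.2.2.1 h, fun h h' => h2 h.symm h'.symm,
          fun h h' => h3 h'.symm h.symm⟩
    omega
  · refine ⟨0, 0, fun x hx y hy hxy => ?_⟩
    left
    by_contra hcon
    apply hne
    refine ⟨(x, y), ?_⟩
    rw [hN, Finset.mem_filter, Finset.mem_offDiag]
    exact ⟨⟨hx, hy, hxy⟩, hcon⟩

theorem exists_two_of_card {D : Finset V} (h : 2 ≤ D.card) : ∃ a ∈ D, ∃ b ∈ D, a ≠ b := by
  obtain ⟨a, ha, b, hb, hab⟩ := Finset.one_lt_card.mp (show 1 < D.card by omega)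
  exact ⟨a, ha, b, hb, hab⟩

/-- With at most one non-adjacent pair there are at most four full lines. -/
theorem four_relation {φ : V →ₗ[ZMod 2] ZMod 2} {p : V} (hφ : φ p = 1) {S : Finset V}
    (h0 : (0 : V) ∉ S) (hp : p ∈ S) (hK : ¬ HasK5 (S : Set V)) (h4 : 4 ≤ (DD φ p S).card)
    (h : (DD φ p S).card * ((DD φ p S).card - 1) ≤ EE φ p S + 3) :
    ∃ a ∈ DD φ p S, ∃ b ∈ DD φ p S, a ≠ b ∧ Adj (S : Set V) p a b ∧
      ∀ c ∈ DD φ p S, ∀ d ∈ DD φ p S, c ≠ a → c ≠ b → d ≠ a → d ≠ b → c ≠ d →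
        Adj (S : Set V) p a c ∧ Adj (S : Set V) p b c ∧ a + b + c + d = 0 := by
  obtain ⟨u, v, huv⟩ := exists_pair h
  have hc : 2 ≤ ((DD φ p S) \ {u, v}).card := by
    have h1 := Finset.le_card_sdiff ({u, v} : Finset V) (DD φ p S)
    have h2 : ({u, v} : Finset V).card ≤ 2 := Finset.card_le_two
    omega
  obtain ⟨a, ha, b, hb, hab⟩ := exists_two_of_card hc
  rw [Finset.mem_sdiff, Finset.mem_insert, Finset.mem_singleton] at ha hb
  push Not at ha hb
  have hA : ∀ x ∈ DD φ p S, x ≠ a → Adj (S : Set V) p a x := by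
    intro x hx hxa
    rcases huv a ha.1 x hx hxa.symm with h | h | h
    · exact h
    · exact absurd h.1 ha.2.1
    · exact absurd h.1 ha.2.2
  have hB : ∀ x ∈ DD φ p S, x ≠ b → Adj (S : Set V) p b x := by
    intro x hx hxb
    rcases huv b hb.1 x hx hxb.symm with h | h | h
    · exact h
    · exact absurd h.1 hb.2.1
    · exact absurd h.1 hb.2.2
  refine ⟨a, ha.1, b, hb.1, hab, hA b hb.1 hab.symm, ?_⟩
  intro c hc d hd hca hcb hda hdb hcd
  refine ⟨hA c hc hca, hB c hc hcb, ?_⟩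
  exact sum_zero_of_adj hφ (by simpa using h0) (Finset.mem_coe.mpr hp) hK (FL_of_mem ha.1)
    (FL_of_mem hb.1) (FL_of_mem hc) (FL_of_mem hd) hab hca.symm hda.symm hcb.symm hdb.symm hcd
    (hA b hb.1 hab.symm) (hA c hc hca) (hB c hc hcb) (hA d hd hda) (hB d hd hdb)

/-- At least five full lines through `p` leave two pairs which are not adjacent. -/
theorem EE_le_of_five {φ : V →ₗ[ZMod 2] ZMod 2} {p : V} (hφ : φ p = 1) {S : Finset V}
    (h0 : (0 : V) ∉ S) (hp : p ∈ S) (hK : ¬ HasK5 (S : Set V)) (h5 : 5 ≤ (DD φ p S).card) :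
    EE φ p S + 4 ≤ (DD φ p S).card * ((DD φ p S).card - 1) := by
  by_contra hcon
  obtain ⟨a, ha, b, hb, hab, -, hrel⟩ := four_relation hφ h0 hp hK (by omega) (by omega)
  have hc : 2 < ((DD φ p S) \ {a, b}).card := by
    have h1 := Finset.le_card_sdiff ({a, b} : Finset V) (DD φ p S)
    have h2 : ({a, b} : Finset V).card ≤ 2 := Finset.card_le_two
    omega
  obtain ⟨x, hx, y, hy, z, hz, hxy, hxz, hyz⟩ := Finset.two_lt_card.mp hc
  rw [Finset.mem_sdiff, Finset.mem_insert, Finset.mem_singleton] at hx hy hz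
  push Not at hx hy hz
  have h1 := (hrel x hx.1 y hy.1 hx.2.1 hx.2.2 hy.2.1 hy.2.2 hxy).2.2
  have h2 := (hrel x hx.1 z hz.1 hx.2.1 hx.2.2 hz.2.1 hz.2.2 hxz).2.2
  apply hyz
  linear_combination (norm := module) h1 - h2

/-- The configuration of twelve points: the complement of a line in a solid. -/
structure P12 (S : Set V) (a b m n : V) : Prop where
  ind : Ind4 (⊥ : Submodule (ZMod 2) V) a b m n
  mem : ∀ α β γ δ : ZMod 2, ¬ (α = 0 ∧ β = 0) → α • a + β • b + γ • m + δ • n ∈ S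
  nmem : ∀ γ δ : ZMod 2, γ • m + δ • n ∉ S

/-- Four full lines, almost all pairs of which are adjacent, give a configuration of twelve
points. -/
theorem exists_P12 {φ : V →ₗ[ZMod 2] ZMod 2} {p : V} (hφ : φ p = 1) {S : Finset V}
    (h0 : (0 : V) ∉ S) (hp : p ∈ S) (hK : ¬ HasK5 (S : Set V)) (h4 : (DD φ p S).card = 4)
    (h : 9 ≤ EE φ p S) : ∃ a b m n, P12 (S : Set V) a b m n := by
  obtain ⟨x, hx, y, hy, hxy, hadj, hrel⟩ := four_relation hφ h0 hp hK (by omega) (by
    rw [h4]; omega)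
  have hc : 1 < ((DD φ p S) \ {x, y}).card := by
    have h1 := Finset.le_card_sdiff ({x, y} : Finset V) (DD φ p S)
    have h2 : ({x, y} : Finset V).card ≤ 2 := Finset.card_le_two
    omega
  obtain ⟨z, hz, w, hw, hzw⟩ := Finset.one_lt_card.mp hc
  rw [Finset.mem_sdiff, Finset.mem_insert, Finset.mem_singleton] at hz hw
  push Not at hz hw
  obtain ⟨hxz, hyz, hsum⟩ := hrel z hz.1 w hw.1 hz.2.1 hz.2.2 hw.2.1 hw.2.2 hzw
  have hS0 : (0 : V) ∉ (S : Set V) := by simpa using h0
  have Fx := FL_of_mem hx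
  have Fy := FL_of_mem hy
  have Fz := FL_of_mem hz.1
  have Fw := FL_of_mem hw.1
  have hwe : w = x + y + z := (eq_of_add_zero hsum).symm
  have hne0 : ∀ x, x ∈ (S : Set V) → x ≠ 0 := fun x hx h => hS0 (h ▸ hx)
  have hxyz : x + y + z ≠ 0 := by rw [← hwe]; exact hne0 _ Fw.2.1
  obtain ⟨σ, hσ⟩ := hadj.sign
  obtain ⟨τ, hτ⟩ := hxz.sign
  obtain ⟨υ, hυ⟩ := hyz.sign
  have hodd : ∀ σ τ υ : ZMod 2, x + y + σ • p ∈ (S : Set V) → x + z + τ • p ∈ (S : Set V) →
      y + z + υ • p ∈ (S : Set V) → υ = σ + τ + 1 := fun σ τ υ h1 h2 h3 =>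
    sign_odd hφ hS0 hp hK Fx Fy Fz hxy hz.2.1.symm hz.2.2.symm hxyz σ τ υ h1 h2 h3
  have hυ' := hodd σ τ υ hσ hτ hυ
  have n1 : x + y + (σ + 1) • p ∉ (S : Set V) := by
    intro hh
    have := hodd _ τ υ hh hτ hυ
    rw [hυ'] at this
    exact (by decide : ∀ σ τ : ZMod 2, ¬ (σ + τ + 1 = σ + 1 + τ + 1)) σ τ this
  have n2 : x + z + (τ + 1) • p ∉ (S : Set V) := by
    intro hh
    have := hodd σ _ υ hσ hh hυ
    rw [hυ'] at this
    exact (by decide : ∀ σ τ : ZMod 2, ¬ (σ + τ + 1 = σ + (τ + 1) + 1)) σ τ this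
  have n3 : y + z + (σ + τ) • p ∉ (S : Set V) := by
    intro hh
    have := hodd σ τ _ hσ hτ hh
    exact (by decide : ∀ σ τ : ZMod 2, ¬ (σ + τ = σ + τ + 1)) σ τ this
  subst hυ'
  have hind := ind4_ker hφ Fx.1 Fy.1 Fz.1 (hne0 _ Fx.2.1) (hne0 _ Fy.2.1) (hne0 _ Fz.2.1)
    (add_ne_zero_of_ne hxy) (add_ne_zero_of_ne hz.2.1.symm) (add_ne_zero_of_ne hz.2.2.symm) hxyz
  -- the coordinates
  refine ⟨p, x, x + y + (σ + 1) • p, x + z + (τ + 1) • p, ?_, ?_, ?_⟩
  · intro α β γ δ hh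
    have := hind (α + γ * (σ + 1) + δ * (τ + 1)) (β + γ + δ) γ δ (by
      rw [Submodule.mem_bot] at hh ⊢
      rw [← hh]; module)
    obtain ⟨h1, h2, h3, h4⟩ := this
    subst h3 h4
    exact ⟨by simpa using h1, by simpa using h2, rfl, rfl⟩
  · -- membership
    have hL : ∀ (v : V) (ε : ZMod 2), FL φ (S : Set V) p v → v + ε • p ∈ (S : Set V) := by
      intro v ε hv
      rcases zmod2_cases ε with rfl | rfl
      · simpa using hv.2.1
      · simpa using hv.2.2
    have hxx : ∀ v : V, v + v = 0 := fun v => ZModModule.add_self v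
    intro α β γ δ hαβ
    have e : α • p + β • x + γ • (x + y + (σ + 1) • p) + δ • (x + z + (τ + 1) • p) =
        (β + γ + δ) • x + γ • y + δ • z + (α + γ * (σ + 1) + δ * (τ + 1)) • p := by module
    rw [e]
    rcases zmod2_cases γ with rfl | rfl <;> rcases zmod2_cases δ with rfl | rfl
    · rcases zmod2_cases β with rfl | rfl
      · have : α = 1 := (zmod2_cases α).resolve_left (fun h => hαβ ⟨h, rfl⟩)
        subst this
        simpa using hp
      · have := hL x α Fx
        convert this using 1; module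
    · rcases zmod2_cases β with rfl | rfl
      · have : α = 1 := (zmod2_cases α).resolve_left (fun h => hαβ ⟨h, rfl⟩)
        subst this
        convert hτ using 1
        have h2 : (1 + 0 * (σ + 1) + 1 * (τ + 1) : ZMod 2) = τ :=
          (by decide : ∀ σ τ : ZMod 2, (1 + 0 * (σ + 1) + 1 * (τ + 1) : ZMod 2) = τ) σ τ
        rw [h2]; module
      · have := hL z (α + (τ + 1)) Fz
        convert this using 1
        linear_combination (norm := module) hxx x
    · rcases zmod2_cases β with rfl | rfl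
      · have : α = 1 := (zmod2_cases α).resolve_left (fun h => hαβ ⟨h, rfl⟩)
        subst this
        convert hσ using 1
        have h2 : (1 + 1 * (σ + 1) + 0 * (τ + 1) : ZMod 2) = σ :=
          (by decide : ∀ σ τ : ZMod 2, (1 + 1 * (σ + 1) + 0 * (τ + 1) : ZMod 2) = σ) σ τ
        rw [h2]; module
      · have := hL y (α + (σ + 1)) Fy
        convert this using 1
        linear_combination (norm := module) hxx x
    · rcases zmod2_cases β with rfl | rfl
      · have : α = 1 := (zmod2_cases α).resolve_left (fun h => hαβ ⟨h, rfl⟩)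
        subst this
        convert hυ using 1
        have h2 : (1 + 1 * (σ + 1) + 1 * (τ + 1) : ZMod 2) = σ + τ + 1 :=
          (by decide : ∀ σ τ : ZMod 2, (1 + 1 * (σ + 1) + 1 * (τ + 1) : ZMod 2) = σ + τ + 1) σ τ
        rw [h2]
        linear_combination (norm := module) hxx x
      · have := hL (x + y + z) (α + (σ + 1) + (τ + 1)) (hwe ▸ Fw)
        convert this using 1
        linear_combination (norm := module) hxx x
  · intro γ δ
    have e : γ • (x + y + (σ + 1) • p) + δ • (x + z + (τ + 1) • p) =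
        (γ + δ) • x + γ • y + δ • z + (γ * (σ + 1) + δ * (τ + 1)) • p := by module
    rw [e]
    have hxx : ∀ v : V, v + v = 0 := fun v => ZModModule.add_self v
    rcases zmod2_cases γ with rfl | rfl <;> rcases zmod2_cases δ with rfl | rfl
    · simpa using h0
    · intro hh
      apply n2
      convert hh using 1
      module
    · intro hh
      apply n1
      convert hh using 1
      module
    · intro hh
      apply n3
      convert hh using 1
      have h2 : (1 * (σ + 1) + 1 * (τ + 1) : ZMod 2) = σ + τ :=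
        (by decide : ∀ σ τ : ZMod 2, (1 * (σ + 1) + 1 * (τ + 1) : ZMod 2) = σ + τ) σ τ
      rw [h2]
      linear_combination (norm := module) (-1 : ZMod 2) • hxx x

end Fin

end Pool.Agent.H690K5
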