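import Pool.Agent.H690K5.FMerge
set_option autoImplicit false
set_option linter.unusedSectionVars false

/-!
# The bound `PP S + 24 ≤ 10 |S|` and its consequence `|S| ≤ 5 rank`
-/

namespace Pool.Agent.H690K5
open Submodule

section Comp
variable {V : Type} [AddCommGroup V] [Module (ZMod 2) V]

/-- A component modulo `W`. -/
theorem exists_component [Finite V] (W : Submodule (ZMod 2) V) {S : Set V}
    (hS : ∃ s ∈ S, s ∉ W) :
    ∃ T ⊆ S, T.Nonempty ∧ (∀ t ∈ T, t ∉ W) ∧ Conn W T ∧ ∃ V1 V2 : Submodule (ZMod 2) V,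
      W ≤ V1 ∧ W ≤ V2 ∧ V1 ⊓ V2 ≤ W ∧ (∀ t ∈ T, t ∈ V1) ∧ (∀ s ∈ S, s ∉ T → s ∈ V2) := by
  classical
  have hex : ∃ n, ∃ V1 V2 : Submodule (ZMod 2) V, W ≤ V1 ∧ W ≤ V2 ∧ V1 ⊓ V2 ≤ W ∧
      (∀ s ∈ S, s ∈ V1 ∨ s ∈ V2) ∧ (∃ s ∈ S, s ∈ V1 ∧ s ∉ W) ∧
      Module.finrank (ZMod 2) V1 = n := by
    obtain ⟨s, hs, hsW⟩ := hS
    exact ⟨_, ⊤, W, le_top, le_rfl, inf_le_right, fun s _ => Or.inl trivial,
      ⟨s, hs, trivial, hsW⟩, rfl⟩
  obtain ⟨V1, V2, hW1, hW2, hinf, hcov, ⟨s0, hs0, hs01, hs0W⟩, hn⟩ := Nat.find_spec hex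
  refine ⟨{s | s ∈ S ∧ s ∈ V1 ∧ s ∉ W}, fun s hs => hs.1, ⟨s0, hs0, hs01, hs0W⟩,
    fun t ht => ht.2.2, ?_, V1, V2, hW1, hW2, hinf, fun t ht => ht.2.1, ?_⟩
  · intro U1 U2 h1 h2 h12 hcovT
    by_cases hex1 : ∃ t, (t ∈ S ∧ t ∈ V1 ∧ t ∉ W) ∧ t ∈ U1
    · left
      obtain ⟨t0, ht0, ht01⟩ := hex1
      have hmin := Nat.find_min' hex (m := Module.finrank (ZMod 2) (U1 ⊓ V1 : Submodule (ZMod 2) V))
        ⟨U1 ⊓ V1, V2 ⊔ (U2 ⊓ V1), le_inf h1 hW1, hW2.trans le_sup_left, ?_, ?_,
          ⟨t0, ht0.1, ⟨ht01, ht0.2.1⟩, ht0.2.2⟩, rfl⟩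
      · rw [← hn] at hmin
        have heq : U1 ⊓ V1 = V1 := Submodule.eq_of_le_of_finrank_le inf_le_right hmin
        intro t ht
        have : t ∈ U1 ⊓ V1 := by rw [heq]; exact ht.2.1
        exact this.1
      · rintro x ⟨⟨hx1, hx2⟩, hx3⟩
        obtain ⟨y, hy, z, hz, rfl⟩ := Submodule.mem_sup.mp hx3
        have hyV1 : y ∈ V1 := (Submodule.add_mem_iff_left V1 hz.2).mp hx2
        have hyW : y ∈ W := hinf ⟨hyV1, hy⟩
        exact h12 ⟨hx1, U2.add_mem (h2 hyW) hz.1⟩
      · intro s hs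
        rcases hcov s hs with h3 | h3
        · by_cases hsW : s ∈ W
          · left; exact ⟨h1 hsW, h3⟩
          · rcases hcovT s ⟨hs, h3, hsW⟩ with h4 | h4
            · left; exact ⟨h4, h3⟩
            · right; exact Submodule.mem_sup_right ⟨h4, h3⟩
        · right; exact Submodule.mem_sup_left h3
    · right
      intro t ht
      exact (hcovT t ht).resolve_left (fun h' => hex1 ⟨t, ht, h'⟩)
  · intro s hs hsT
    rcases hcov s hs with h3 | h3
    · by_contra h4
      exact hsT ⟨hs, h3, fun hW => h4 (hW2 hW)⟩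
    · exact h3

end Comp

section Main
variable {V : Type} [AddCommGroup V] [Module (ZMod 2) V] [Fintype V] [DecidableEq V]

theorem ix_of_mem {S : Finset V} {x : V} (h : x ∈ S) : ix S x = 1 := by
  unfold ix; rw [if_pos h]

theorem ix_of_notMem {S : Finset V} {x : V} (h : x ∉ S) : ix S x = 0 := by
  unfold ix; rw [if_neg h]

theorem ix_pos {S : Finset V} {x : V} (h : ix S x ≠ 0) : x ∈ S := by
  by_contra h'; exact h (ix_of_notMem h')

theorem PP_pos_iff {S : Finset V} : 0 < PP S ↔ ∃ x ∈ S, ∃ y ∈ S, x + y ∈ S := by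
  unfold PP dg
  rw [Finset.sum_pos_iff]
  constructor
  · rintro ⟨x, hx, h⟩
    obtain ⟨y, hy⟩ := Finset.card_pos.mp h
    rw [Finset.mem_filter] at hy
    exact ⟨x, hx, y, hy.1, by rw [add_comm]; exact hy.2⟩
  · rintro ⟨x, hx, y, hy, hxy⟩
    refine ⟨x, hx, Finset.card_pos.mpr ⟨y, ?_⟩⟩
    rw [Finset.mem_filter]
    exact ⟨hy, by rw [add_comm]; exact hxy⟩

/-- The number of points and pairs in a configuration of rank two. -/
theorem small_rank {S : Finset V} (h0 : (0 : V) ∉ S) {G : Submodule (ZMod 2) V}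
    (hG : Module.finrank (ZMod 2) G ≤ 2) (hS : ∀ s ∈ S, s ∈ G) :
    10 * S.card ≤ PP S + 24 := by
  classical
  have hcardG : Nat.card G ≤ 4 := by
    rw [Module.natCard_eq_pow_finrank (K := ZMod 2), Nat.card_eq_fintype_card, ZMod.card]
    calc 2 ^ Module.finrank (ZMod 2) G ≤ 2 ^ 2 := Nat.pow_le_pow_right (by norm_num) hG
      _ = 4 := by norm_num
  set GF : Finset V := Finset.univ.filter (fun x => x ∈ G) with hGF
  have hGFcard : GF.card ≤ 4 := by
    have : GF.card = Nat.card G := by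
      rw [hGF, ← Fintype.card_subtype, ← Nat.card_eq_fintype_card]
    omega
  have h0G : (0 : V) ∈ GF := by rw [hGF, Finset.mem_filter]; exact ⟨Finset.mem_univ _, G.zero_mem⟩
  have hsub : S ⊆ GF.erase 0 := by
    intro s hs
    rw [Finset.mem_erase, hGF, Finset.mem_filter]
    exact ⟨fun h => h0 (h ▸ hs), Finset.mem_univ _, hS s hs⟩
  have hc := Finset.card_le_card hsub
  have hc' := Finset.card_erase_of_mem h0G
  rcases Nat.lt_or_ge S.card 3 with h3 | h3
  · omega
  · have heq : S = GF.erase 0 := Finset.eq_of_subset_of_card_le hsub (by omega)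
    have hdg : ∀ p ∈ S, 2 ≤ dg S p := by
      intro p hp
      have h1 : S.erase p ⊆ S.filter (fun y => y + p ∈ S) := by
        intro y hy
        rw [Finset.mem_erase] at hy
        rw [Finset.mem_filter]
        refine ⟨hy.2, ?_⟩
        rw [heq, Finset.mem_erase, hGF, Finset.mem_filter]
        exact ⟨add_ne_zero_of_ne hy.1, Finset.mem_univ _, G.add_mem (hS y hy.2) (hS p hp)⟩
      have h2 := Finset.card_le_card h1
      rw [Finset.card_erase_of_mem hp] at h2
      unfold dg
      omega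
    have h4 : S.card * 2 ≤ PP S := by
      unfold PP
      rw [← smul_eq_mul]
      exact Finset.card_nsmul_le_sum S _ 2 hdg
    omega

/-- A configuration of rank four with twelve points. -/
theorem base_case {S : Finset V} {a b m n : V} (hP : P12 (S : Set V) a b m n)
    (hS : ∀ s ∈ S, s ∈ flat a b m n) : PP S + 24 ≤ 10 * S.card := by
  classical
  let f : ZMod 2 × ZMod 2 × ZMod 2 × ZMod 2 → V := fun q =>
    q.1 • a + q.2.1 • b + q.2.2.1 • m + q.2.2.2 • n
  have hcoord : ∀ s ∈ S, ∃ α β γ δ : ZMod 2, ¬ (α = 0 ∧ β = 0) ∧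
      s = α • a + β • b + γ • m + δ • n := by
    intro s hs
    obtain ⟨α, β, γ, δ, rfl⟩ := mem_flat.mp (hS s hs)
    refine ⟨α, β, γ, δ, ?_, rfl⟩
    rintro ⟨rfl, rfl⟩
    apply hP.nmem γ δ
    rw [zero_smul, zero_smul, zero_add, zero_add] at hs
    exact hs
  have h12 : S.card ≤ 12 := by
    have h1 : S ⊆ (Finset.univ.filter (fun q : ZMod 2 × ZMod 2 × ZMod 2 × ZMod 2 =>
        ¬ (q.1 = 0 ∧ q.2.1 = 0))).image f := by
      intro s hs
      obtain ⟨α, β, γ, δ, h2, h3⟩ := hcoord s hs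
      rw [Finset.mem_image]
      exact ⟨(α, β, γ, δ), Finset.mem_filter.mpr ⟨Finset.mem_univ _, h2⟩, h3.symm⟩
    refine (Finset.card_le_card h1).trans (Finset.card_image_le.trans ?_)
    decide
  have h2 : 4 ≤ S.card := by
    let g : ZMod 2 × ZMod 2 → V := fun q => a + (q.1 • m + q.2 • n)
    have hg : Function.Injective g := by
      rintro ⟨γ1, δ1⟩ ⟨γ2, δ2⟩ h
      have h' : γ1 • m + δ1 • n = γ2 • m + δ2 • n := add_left_cancel h
      have := hP.ind 0 0 (γ1 - γ2) (δ1 - δ2) (by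
        rw [Submodule.mem_bot]
        linear_combination (norm := module) h')
      rw [Prod.mk.injEq]
      exact ⟨sub_eq_zero.mp this.2.2.1, sub_eq_zero.mp this.2.2.2⟩
    have h1 : (Finset.univ.image g).card = 4 := by
      rw [Finset.card_image_of_injective _ hg]; decide
    rw [← h1]
    apply Finset.card_le_card
    intro y hy
    obtain ⟨⟨γ1, δ1⟩, -, rfl⟩ := Finset.mem_image.mp hy
    have := hP.mem 1 0 γ1 δ1 (by decide)
    rw [← Finset.mem_coe]
    convert this using 1
    show a + (γ1 • m + δ1 • n) = _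
    module
  have hdg : ∀ p ∈ S, dg S p ≤ S.card - 4 := by
    intro p hp
    obtain ⟨α, β, γ, δ, hαβ, rfl⟩ := hcoord p hp
    set p := α • a + β • b + γ • m + δ • n with hpdef
    let g : ZMod 2 × ZMod 2 → V := fun q => p + (q.1 • m + q.2 • n)
    have hg : Function.Injective g := by
      rintro ⟨γ1, δ1⟩ ⟨γ2, δ2⟩ h
      have h' : γ1 • m + δ1 • n = γ2 • m + δ2 • n := add_left_cancel h
      have := hP.ind 0 0 (γ1 - γ2) (δ1 - δ2) (by
        rw [Submodule.mem_bot]
        linear_combination (norm := module) h')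
      rw [Prod.mk.injEq]
      exact ⟨sub_eq_zero.mp this.2.2.1, sub_eq_zero.mp this.2.2.2⟩
    have h1 : (Finset.univ.image g).card = 4 := by
      rw [Finset.card_image_of_injective _ hg]; decide
    have h3 : Disjoint (S.filter (fun y => y + p ∈ S)) (Finset.univ.image g) := by
      rw [Finset.disjoint_left]
      intro y hy hy'
      rw [Finset.mem_filter] at hy
      obtain ⟨⟨γ1, δ1⟩, -, rfl⟩ := Finset.mem_image.mp hy'
      apply hP.nmem γ1 δ1
      have : p + (γ1 • m + δ1 • n) + p = γ1 • m + δ1 • n := by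
        linear_combination (norm := module) ZModModule.add_self p
      rw [← this]
      exact hy.2
    have h4 : S.filter (fun y => y + p ∈ S) ∪ Finset.univ.image g ⊆ S := by
      apply Finset.union_subset (Finset.filter_subset _ _)
      intro y hy
      obtain ⟨⟨γ1, δ1⟩, -, rfl⟩ := Finset.mem_image.mp hy
      have := hP.mem α β (γ + γ1) (δ + δ1) hαβ
      rw [← Finset.mem_coe]
      convert this using 1
      show p + (γ1 • m + δ1 • n) = _
      rw [hpdef]; module
    have h5 := Finset.card_le_card h4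
    rw [Finset.card_union_of_disjoint h3, h1] at h5
    unfold dg
    omega
  have h5 : PP S ≤ S.card * (S.card - 4) := by
    unfold PP
    rw [← smul_eq_mul]
    exact Finset.sum_le_card_nsmul S _ _ hdg
  have h6 : ∀ c : ℕ, 4 ≤ c → c ≤ 12 → c * (c - 4) + 24 ≤ 10 * c := by
    intro c h7 h8
    interval_cases c <;> norm_num
  have := h6 _ h2 h12
  omega

/-- **Splitting off a component.** -/
theorem split_case {S : Finset V} (h0 : (0 : V) ∉ S) (hK : ¬ HasK5 (S : Set V))
    (ih : ∀ S' : Finset V, S'.card < S.card → (0 : V) ∉ S' → ¬ HasK5 (S' : Set V) → 0 < PP S' →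
      PP S' + 24 ≤ 10 * S'.card)
    {a b m n : V} (hP : P12 (S : Set V) a b m n) : PP S + 24 ≤ 10 * S.card := by
  classical
  by_cases hall : ∀ s ∈ S, s ∈ flat a b m n
  · exact base_case hP hall
  push Not at hall
  set W := flat a b m n with hW
  obtain ⟨T, hTS, hTne, hTW, hconn, V1, V2, hW1, hW2, hinf, hT1, hS2⟩ :=
    exists_component W (S := (S : Set V)) (by
      obtain ⟨s, hs, hsW⟩ := hall
      exact ⟨s, Finset.mem_coe.mpr hs, hsW⟩)
  set G : Submodule (ZMod 2) V := span (ZMod 2) T ⊓ W with hG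
  have hGrank : Module.finrank (ZMod 2) G ≤ 2 := by
    by_contra hcon
    exact hK (merge_k5 hP hTS hTne hTW hconn (by rw [← hW, ← hG]; omega))
  set S1 := S.filter (fun s => s ∉ T) with hS1
  set S2 := S.filter (fun s => s ∈ T ∨ s ∈ G) with hS2'
  set S3 := S.filter (fun s => s ∈ G) with hS3
  have hTG : ∀ s, s ∈ T → s ∉ G := fun s hs hsG => hTW s hs hsG.2
  -- the triangles
  have t1 : ∀ u v w, u ∈ T → v ∈ T → w ∈ (S : Set V) → w ∉ T → u + v + w = 0 → w ∈ G := by
    intro u v w hu hv hw hwT h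
    have e : w = u + v := (eq_of_add_zero h).symm
    have h1 : w ∈ V1 := by rw [e]; exact V1.add_mem (hT1 u hu) (hT1 v hv)
    refine ⟨?_, hinf ⟨h1, hS2 w hw hwT⟩⟩
    rw [e]
    exact Submodule.add_mem _ (Submodule.subset_span hu) (Submodule.subset_span hv)
  have t2 : ∀ u v w, u ∈ T → v ∈ (S : Set V) → v ∉ T → w ∈ (S : Set V) → w ∉ T →
      u + v + w = 0 → False := by
    intro u v w hu hv hvT hw hwT h
    have e : u = v + w := by
      linear_combination (norm := module) h - ZModModule.add_self (v + w)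
    have h1 : u ∈ V2 := by rw [e]; exact V2.add_mem (hS2 v hv hvT) (hS2 w hw hwT)
    exact hTW u hu (hinf ⟨hT1 u hu, h1⟩)
  have hkey : ∀ x y, x ∈ S → y ∈ S → x + y ∈ S →
      (x ∉ T ∧ y ∉ T ∧ x + y ∉ T) ∨
      ((x ∈ T ∨ x ∈ G) ∧ (y ∈ T ∨ y ∈ G) ∧ (x + y ∈ T ∨ x + y ∈ G)) := by
    intro x y hx hy hz
    have e0 : x + y + (x + y) = 0 := ZModModule.add_self _
    have e1 : x + (x + y) + y = 0 := by rw [← e0]; abel
    have e2 : y + (x + y) + x = 0 := by rw [← e0]; abel
    have e3 : y + x + (x + y) = 0 := by rw [← e0]; abel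
    have e4 : x + y + x + y = 0 := by rw [← e0]; abel
    by_cases hxT : x ∈ T <;> by_cases hyT : y ∈ T <;> by_cases hzT : x + y ∈ T
    · right; exact ⟨Or.inl hxT, Or.inl hyT, Or.inl hzT⟩
    · right; exact ⟨Or.inl hxT, Or.inl hyT, Or.inr (t1 x y _ hxT hyT hz hzT e0)⟩
    · right; exact ⟨Or.inl hxT, Or.inr (t1 x _ y hxT hzT hy hyT e1), Or.inl hzT⟩
    · exact (t2 x y _ hxT hy hyT hz hzT e0).elim
    · right; exact ⟨Or.inr (t1 y _ x hyT hzT hx hxT e2), Or.inl hyT, Or.inl hzT⟩
    · exact (t2 y x _ hyT hx hxT hz hzT e3).elim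
    · exact (t2 (x + y) x y hzT hx hxT hy hyT e4).elim
    · left; exact ⟨hxT, hyT, hzT⟩
  have hPP : PP S + PP S3 ≤ PP S1 + PP S2 := by
    rw [PP_eq, PP_eq, PP_eq, PP_eq, ← Finset.sum_add_distrib, ← Finset.sum_add_distrib]
    apply Finset.sum_le_sum
    intro x _
    rw [← Finset.sum_add_distrib, ← Finset.sum_add_distrib]
    apply Finset.sum_le_sum
    intro y _
    by_cases hxy : x ∈ S ∧ y ∈ S ∧ x + y ∈ S
    · obtain ⟨hx, hy, hz⟩ := hxy
      rw [ix_of_mem hx, ix_of_mem hy, ix_of_mem hz]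
      have m1 : ∀ v, v ∈ S → v ∉ T → ix S1 v = 1 := fun v hv hvT =>
        ix_of_mem (Finset.mem_filter.mpr ⟨hv, hvT⟩)
      have m2 : ∀ v, v ∈ S → (v ∈ T ∨ v ∈ G) → ix S2 v = 1 := fun v hv hvT =>
        ix_of_mem (Finset.mem_filter.mpr ⟨hv, hvT⟩)
      by_cases h3 : x ∈ S3 ∧ y ∈ S3 ∧ x + y ∈ S3
      · obtain ⟨hx3, hy3, hz3⟩ := h3
        rw [ix_of_mem hx3, ix_of_mem hy3, ix_of_mem hz3]
        have gx := (Finset.mem_filter.mp hx3).2
        have gy := (Finset.mem_filter.mp hy3).2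
        have gz := (Finset.mem_filter.mp hz3).2
        rw [m1 x hx (fun h => hTG _ h gx), m1 y hy (fun h => hTG _ h gy),
          m1 _ hz (fun h => hTG _ h gz), m2 x hx (Or.inr gx), m2 y hy (Or.inr gy),
          m2 _ hz (Or.inr gz)]
      · have : ix S3 x * ix S3 y * ix S3 (x + y) = 0 := by
          by_contra hne
          rw [← ne_eq, mul_ne_zero_iff, mul_ne_zero_iff] at hne
          exact h3 ⟨ix_pos hne.1.1, ix_pos hne.1.2, ix_pos hne.2⟩
        rw [this]
        rcases hkey x y hx hy hz with ⟨h4, h5, h6⟩ | ⟨h4, h5, h6⟩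
        · rw [m1 x hx h4, m1 y hy h5, m1 _ hz h6]; omega
        · rw [m2 x hx h4, m2 y hy h5, m2 _ hz h6]; omega
    · have h1 : ix S x * ix S y * ix S (x + y) = 0 := by
        by_contra hne
        rw [← ne_eq, mul_ne_zero_iff, mul_ne_zero_iff] at hne
        exact hxy ⟨ix_pos hne.1.1, ix_pos hne.1.2, ix_pos hne.2⟩
      have h2 : ix S3 x * ix S3 y * ix S3 (x + y) = 0 := by
        by_contra hne
        rw [← ne_eq, mul_ne_zero_iff, mul_ne_zero_iff] at hne
        exact hxy ⟨Finset.mem_of_mem_filter _ (ix_pos hne.1.1),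
          Finset.mem_of_mem_filter _ (ix_pos hne.1.2), Finset.mem_of_mem_filter _ (ix_pos hne.2)⟩
      rw [h1, h2]; omega
  have hcard : S.card + S3.card = S1.card + S2.card := by
    rw [hS1, hS2', hS3, Finset.card_filter, Finset.card_filter, Finset.card_filter,
      Finset.card_eq_sum_ones, ← Finset.sum_add_distrib, ← Finset.sum_add_distrib]
    apply Finset.sum_congr rfl
    intro s _
    by_cases h1 : s ∈ T
    · have h2 := hTG s h1
      simp [h1, h2]
    · by_cases h2 : s ∈ G <;> simp [h1, h2]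
  have h03 : (0 : V) ∉ S3 := fun h => h0 (Finset.mem_of_mem_filter _ h)
  have hsmall := small_rank h03 hGrank (fun s hs => (Finset.mem_filter.mp hs).2)
  -- the twelve points
  have hW' : ∀ α β γ δ : ZMod 2, α • a + β • b + γ • m + δ • n ∈ W := fun α β γ δ =>
    mem_flat.mpr ⟨α, β, γ, δ, rfl⟩
  have hPP1 : 0 < PP S1 := by
    rw [PP_pos_iff]
    have hmem : ∀ α β γ δ : ZMod 2, ¬ (α = 0 ∧ β = 0) → α • a + β • b + γ • m + δ • n ∈ S1 := by
      intro α β γ δ h
      rw [hS1, Finset.mem_filter]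
      exact ⟨Finset.mem_coe.mp (hP.mem α β γ δ h), fun hT => hTW _ hT (hW' α β γ δ)⟩
    refine ⟨_, hmem 1 0 0 0 (by decide), _, hmem 0 1 0 0 (by decide), ?_⟩
    have := hmem 1 1 0 0 (by decide)
    convert this using 1
    module
  have hcard1 : S1.card < S.card := by
    apply Finset.card_lt_card
    rw [Finset.ssubset_iff_subset_ne]
    refine ⟨Finset.filter_subset _ _, ?_⟩
    intro heq
    obtain ⟨t, ht⟩ := hTne
    have : t ∈ S1 := by rw [heq]; exact Finset.mem_coe.mp (hTS ht)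
    exact (Finset.mem_filter.mp this).2 ht
  have hcard2 : S2.card < S.card := by
    apply Finset.card_lt_card
    rw [Finset.ssubset_iff_subset_ne]
    refine ⟨Finset.filter_subset _ _, ?_⟩
    intro heq
    -- all points of the flat would be in `G`
    have hle : W ≤ G := by
      have hmemG : ∀ α β γ δ : ZMod 2, ¬ (α = 0 ∧ β = 0) →
          α • a + β • b + γ • m + δ • n ∈ G := by
        intro α β γ δ h
        have h1 : α • a + β • b + γ • m + δ • n ∈ S2 := by
          rw [heq]; exact Finset.mem_coe.mp (hP.mem α β γ δ h)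
        rcases (Finset.mem_filter.mp h1).2 with h2 | h2
        · exact absurd (hW' α β γ δ) (hTW _ h2)
        · exact h2
      rintro x hx
      obtain ⟨α, β, γ, δ, rfl⟩ := mem_flat.mp hx
      by_cases h : α = 0 ∧ β = 0
      · obtain ⟨rfl, rfl⟩ := h
        have h1 := G.add_mem (hmemG 1 0 γ δ (by decide)) (hmemG 1 0 0 0 (by decide))
        convert h1 using 1
        linear_combination (norm := module) - ZModModule.add_self a
      · exact hmemG α β γ δ h
    have h1 := Submodule.finrank_mono hle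
    have h2 : 3 ≤ Module.finrank (ZMod 2) W := by
      have hli : LinearIndependent (ZMod 2) ![a, b, m] := by
        rw [Fintype.linearIndependent_iff]
        intro g hg
        rw [Fin.sum_univ_three] at hg
        simp only [Matrix.cons_val_zero, Matrix.cons_val_one, Matrix.cons_val_two,
          Matrix.head_cons, Matrix.tail_cons] at hg
        have := hP.ind (g 0) (g 1) (g 2) 0 (by
          rw [Submodule.mem_bot, zero_smul, add_zero]; exact hg)
        intro i
        fin_cases i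
        · exact this.1
        · exact this.2.1
        · exact this.2.2.1
      have hle3 : span (ZMod 2) (Set.range ![a, b, m]) ≤ W := by
        rw [Submodule.span_le]
        rintro x ⟨i, rfl⟩
        fin_cases i
        · show a ∈ W
          rw [hW]; exact Submodule.subset_span (by simp)
        · show b ∈ W
          rw [hW]; exact Submodule.subset_span (by simp)
        · show m ∈ W
          rw [hW]; exact Submodule.subset_span (by simp)
      have h3 := finrank_span_eq_card hli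
      have h4 := Submodule.finrank_mono hle3
      rw [h3, Fintype.card_fin] at h4
      exact h4
    omega
  have hsub : ∀ p : V → Prop, ∀ [DecidablePred p], (S.filter p : Set V) ⊆ (S : Set V) := by
    intro p _ x hx
    exact Finset.mem_coe.mpr (Finset.mem_of_mem_filter _ (Finset.mem_coe.mp hx))
  have ih1 := ih S1 hcard1 (fun h => h0 (Finset.mem_of_mem_filter _ h))
    (fun h => hK (h.mono (hsub _))) hPP1
  by_cases hPP2 : 0 < PP S2
  · have ih2 := ih S2 hcard2 (fun h => h0 (Finset.mem_of_mem_filter _ h))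
      (fun h => hK (h.mono (hsub _))) hPP2
    omega
  · have := Finset.card_le_card (Finset.filter_subset (fun s => s ∉ T) S)
    rw [← hS1] at this
    omega

/-- **The main bound.** -/
theorem main_bound (k : ℕ) : ∀ S : Finset V, S.card = k → (0 : V) ∉ S → ¬ HasK5 (S : Set V) →
    0 < PP S → PP S + 24 ≤ 10 * S.card := by
  induction k using Nat.strong_induction_on with
  | _ k IH =>
  intro S hk h0 hK hpos
  have ih : ∀ S' : Finset V, S'.card < S.card → (0 : V) ∉ S' → ¬ HasK5 (S' : Set V) → 0 < PP S' →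
      PP S' + 24 ≤ 10 * S'.card := fun S' h1 h2 h3 h4 => IH S'.card (hk ▸ h1) S' rfl h2 h3 h4
  by_contra hcon
  have hfun : ∀ p ∈ S, ∃ φ : V →ₗ[ZMod 2] ZMod 2, φ p = 1 := by
    intro p hp
    obtain ⟨φ, hφ⟩ := exists_values (B := {p})
      ((linearIndepOn_singleton_iff (ZMod 2)).mpr (fun h => h0 (h ▸ hp))) (fun _ => 1)
    exact ⟨φ, hφ p rfl⟩
  -- the local analysis
  have hloc : ∀ p ∈ S, ∃ t : ℕ, dg S p = 2 * t ∧ 5 ≤ t ∧ 2 * t + 1 ≤ S.card ∧
      PP S + 46 + 7 * t ≤ 10 * S.card + 3 * (t * t) := by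
    intro p hp
    obtain ⟨φ, hφ⟩ := hfun p hp
    have h1 := PP_le_ctr hφ h0 (S := S)
    have h2 := card_ctr hφ h0 hp
    have h3 := dg_eq_DD hφ S
    have h4 := dg_lt h0 hp
    have h5 := EE_le (φ := φ) (p := p) S
    set t := (DD φ p S).card with ht
    set e := EE φ p S with he
    by_cases hpos' : 0 < PP (ctr φ p S)
    · have h6 := ih (ctr φ p S) (by omega) zero_notMem_ctr (not_hasK5_ctr hφ hp hK) hpos'
      have h7 : 10 + 4 * t < 3 * e := by omega
      have ht4 : 4 ≤ t := by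
        by_contra hlt
        have : t = 0 ∨ t = 1 ∨ t = 2 ∨ t = 3 := by omega
        rcases this with h | h | h | h <;> rw [h] at h5 h7 <;> omega
      rcases Nat.eq_or_lt_of_le ht4 with h8 | h8
      · -- four full lines
        exfalso
        obtain ⟨a, b, m, n, hP⟩ := exists_P12 hφ h0 hp hK h8.symm (by omega)
        exact hcon (split_case h0 hK ih hP)
      · have h9 := EE_le_of_five hφ h0 hp hK (by omega)
        rw [← ht, ← he] at h9
        refine ⟨t, h3, h8, by omega, ?_⟩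
        have h10 : t * (t - 1) + t = t * t := by
          obtain ⟨s, hs⟩ : ∃ s, t = s + 1 := ⟨t - 1, by omega⟩
          rw [hs]; simp only [Nat.add_sub_cancel]; ring
        have h11 : 3 * e + 12 + 3 * t ≤ 3 * (t * t) := by omega
        omega
    · exfalso
      have he0 : e = 0 := by
        by_contra hne
        have : 0 < e := Nat.pos_of_ne_zero hne
        rw [he] at this
        unfold EE at this
        obtain ⟨⟨x, y⟩, hxy⟩ := Finset.card_pos.mp this
        rw [Finset.mem_filter, Finset.mem_product] at hxy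
        obtain ⟨⟨hx, hy⟩, hne', hs⟩ := hxy
        simp only at hx hy hne' hs
        have hx' := mem_DD.mp hx
        have hy' := mem_DD.mp hy
        apply hpos'
        rw [PP_pos_iff]
        refine ⟨x, mem_ctr.mpr ⟨hx'.1, fun h => h0 (h ▸ hx'.2.1), Or.inl hx'.2.1⟩, y,
          mem_ctr.mpr ⟨hy'.1, fun h => h0 (h ▸ hy'.2.1), Or.inl hy'.2.1⟩, ?_⟩
        rw [mem_ctr, map_add, hx'.1, hy'.1, add_zero]
        exact ⟨rfl, add_ne_zero_of_ne hne', hs⟩
      have ht0 : t ≠ 0 := by
        intro h; rw [h] at h1; omega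
      omega
  obtain ⟨p0, hp0⟩ : S.Nonempty := by
    rw [Finset.nonempty_iff_ne_empty]
    rintro rfl
    simp [PP] at hpos
  obtain ⟨p, hp, hpmin⟩ := Finset.exists_min_image S (dg S) ⟨p0, hp0⟩
  obtain ⟨t, h1, h2, h3, h4⟩ := hloc p hp
  have h5 : S.card * (2 * t) ≤ PP S := by
    unfold PP
    rw [← smul_eq_mul, ← h1]
    exact Finset.card_nsmul_le_sum S _ _ hpmin
  obtain ⟨s, hs⟩ : ∃ s, t = s + 5 := ⟨t - 5, by omega⟩
  obtain ⟨c, hc⟩ : ∃ c, S.card = 2 * t + 1 + c := ⟨S.card - (2 * t + 1), by omega⟩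
  rw [hc, hs] at h5 h4
  nlinarith [Nat.zero_le (s * c), Nat.zero_le s, Nat.zero_le c, sq_nonneg (s : ℤ)]

/-- A set of nonzero binary vectors without an `M(K₅)`-minor has at most five times its rank
elements. -/
theorem card_le_five (k : ℕ) : ∀ S : Finset V, S.card = k → (0 : V) ∉ S →
    ¬ HasK5 (S : Set V) → S.card ≤ 5 * Module.finrank (ZMod 2) (span (ZMod 2) (S : Set V)) := by
  induction k using Nat.strong_induction_on with
  | _ k IH =>
  intro S hk h0 hK
  rcases S.eq_empty_or_nonempty with rfl | hne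
  · simp
  have hex : ∃ p ∈ S, dg S p < 10 := by
    by_contra hcon
    push Not at hcon
    have h1 : S.card * 10 ≤ PP S := by
      unfold PP
      rw [← smul_eq_mul]
      exact Finset.card_nsmul_le_sum S _ _ hcon
    have h2 := hne.card_pos
    have h3 := main_bound _ S rfl h0 hK (by omega)
    omega
  obtain ⟨p, hp, hdg⟩ := hex
  obtain ⟨φ, hφ⟩ := exists_values (B := {p})
    ((linearIndepOn_singleton_iff (ZMod 2)).mpr (fun h => h0 (h ▸ hp))) (fun _ => 1)
  have hφ' : φ p = 1 := hφ p rfl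
  have h2 := card_ctr hφ' h0 hp
  have h3 := dg_eq_DD hφ' S
  have h4 := IH (ctr φ p S).card (by omega) (ctr φ p S) rfl zero_notMem_ctr
    (not_hasK5_ctr hφ' hp hK)
  have h5 := finrank_ctr hφ' hp
  omega

end Main

end Pool.Agent.H690K5
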