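import Pool.Agent.H690K5.Basic
import Pool.Agent.H690K5.Lin
import Pool.Agent.H690K5.FLem
import Pool.Agent.H690K5.Graph
set_option autoImplicit false
set_option linter.unusedSectionVars false

/-!
# Merging a connected configuration onto a flat
-/

namespace Pool.Agent.H690K5
open Submodule

section Merge
variable {V : Type} [AddCommGroup V] [Module (ZMod 2) V] [DecidableEq V]

/-- The component of `t` in `W` with respect to the basis `B` and the coordinate functions `F`. -/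
def gam (B : Finset V) (F : V → V →ₗ[ZMod 2] ZMod 2) (t : V) : V := t + ∑ b ∈ B, F b t • b

/-- `B` is a basis of `T` modulo `W`, with coordinate functions `F`. -/
structure St (W : Submodule (ZMod 2) V) (T : Set V) (B : Finset V)
    (F : V → V →ₗ[ZMod 2] ZMod 2) : Prop where
  BT : ∀ b ∈ B, b ∈ T
  FW : ∀ b ∈ B, ∀ w ∈ W, F b w = 0
  one : ∀ b ∈ B, F b b = 1
  zero : ∀ b ∈ B, ∀ b' ∈ B, b ≠ b' → F b b' = 0
  tot : ∀ t ∈ T, gam B F t ∈ W

theorem gam_add (B : Finset V) (F : V → V →ₗ[ZMod 2] ZMod 2) (s t : V) :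
    gam B F (s + t) = gam B F s + gam B F t := by
  unfold gam
  simp only [map_add, add_smul, Finset.sum_add_distrib]
  abel

theorem gam_zero (B : Finset V) (F : V → V →ₗ[ZMod 2] ZMod 2) : gam B F 0 = 0 := by
  unfold gam
  simp

variable {W : Submodule (ZMod 2) V} {T : Set V} {B : Finset V} {F : V → V →ₗ[ZMod 2] ZMod 2}

theorem St.gam_W (h : St W T B F) {w : V} (hw : w ∈ W) : gam B F w = w := by
  unfold gam
  rw [Finset.sum_eq_zero, add_zero]
  intro b hb
  rw [h.FW b hb w hw, zero_smul]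

theorem St.sum_basis (h : St W T B F) {b : V} (hb : b ∈ B) : ∑ c ∈ B, F c b • c = b := by
  rw [Finset.sum_eq_single b]
  · rw [h.one b hb, one_smul]
  · intro c hc hcb
    rw [h.zero c hc b hb hcb, zero_smul]
  · intro h'; exact absurd hb h'

theorem St.gam_basis (h : St W T B F) {b : V} (hb : b ∈ B) : gam B F b = 0 := by
  unfold gam
  rw [h.sum_basis hb]
  exact ZModModule.add_self b

/-- The new coordinate functions after exchanging `b1` for `s`. -/
noncomputable def piv (F : V → V →ₗ[ZMod 2] ZMod 2) (b1 s : V) (v : V) : V →ₗ[ZMod 2] ZMod 2 :=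
  if v = s then F b1 else F v + F v s • F b1

theorem piv_self (F : V → V →ₗ[ZMod 2] ZMod 2) (b1 s t : V) : piv F b1 s s t = F b1 t := by
  unfold piv; rw [if_pos rfl]

theorem piv_ne (F : V → V →ₗ[ZMod 2] ZMod 2) {b1 s v : V} (hv : v ≠ s) (t : V) :
    piv F b1 s v t = F v t + F v s * F b1 t := by
  unfold piv; rw [if_neg hv]; rfl

theorem gam_piv (_ : St W T B F) {b1 s : V} (hb1 : b1 ∈ B) (hs : s ∉ B) (hF : F b1 s = 1) (t : V) :
    gam (insert s (B.erase b1)) (piv F b1 s) t = gam B F t + F b1 t • gam B F s := by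
  unfold gam
  have hs' : s ∉ B.erase b1 := fun h' => hs (Finset.mem_of_mem_erase h')
  rw [Finset.sum_insert hs', piv_self]
  have h1 : ∑ b ∈ B.erase b1, piv F b1 s b t • b =
      ∑ b ∈ B.erase b1, F b t • b + F b1 t • ∑ b ∈ B.erase b1, F b s • b := by
    rw [Finset.smul_sum, ← Finset.sum_add_distrib]
    apply Finset.sum_congr rfl
    intro b hb
    rw [piv_ne F (ne_of_mem_of_not_mem hb hs')]
    module
  have h2 : ∑ b ∈ B, F b t • b = ∑ b ∈ B.erase b1, F b t • b + F b1 t • b1 :=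
    (Finset.sum_erase_add B _ hb1).symm
  have h3 : ∑ b ∈ B, F b s • b = ∑ b ∈ B.erase b1, F b s • b + b1 := by
    have := (Finset.sum_erase_add B (fun b => F b s • b) hb1).symm
    simp only [hF, one_smul] at this
    exact this
  rw [h1, h2, h3]
  linear_combination (norm := module) - ZModModule.add_self (F b1 t • b1)

theorem St.pivot (h : St W T B F) {b1 s : V} (hb1 : b1 ∈ B) (hsT : s ∈ T) (hs : s ∉ B)
    (hF : F b1 s = 1) : St W T (insert s (B.erase b1)) (piv F b1 s) := by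
  have hs' : s ∉ B.erase b1 := fun h' => hs (Finset.mem_of_mem_erase h')
  refine ⟨?_, ?_, ?_, ?_, ?_⟩
  · intro b hb
    rcases Finset.mem_insert.mp hb with rfl | hb
    · exact hsT
    · exact h.BT b (Finset.mem_of_mem_erase hb)
  · intro b hb w hw
    rcases Finset.mem_insert.mp hb with rfl | hb
    · rw [piv_self]; exact h.FW b1 hb1 w hw
    · rw [piv_ne F (ne_of_mem_of_not_mem hb hs'), h.FW b (Finset.mem_of_mem_erase hb) w hw,
        h.FW b1 hb1 w hw, mul_zero, add_zero]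
  · intro b hb
    rcases Finset.mem_insert.mp hb with rfl | hb
    · rw [piv_self]; exact hF
    · rw [piv_ne F (ne_of_mem_of_not_mem hb hs'), h.one b (Finset.mem_of_mem_erase hb),
        h.zero b1 hb1 b (Finset.mem_of_mem_erase hb) (Finset.ne_of_mem_erase hb).symm, mul_zero,
        add_zero]
  · intro b hb b' hb' hbb'
    rcases Finset.mem_insert.mp hb with rfl | hb
    · rw [piv_self]
      rcases Finset.mem_insert.mp hb' with rfl | hb'
      · exact absurd rfl hbb'
      · exact h.zero b1 hb1 b' (Finset.mem_of_mem_erase hb') (Finset.ne_of_mem_erase hb').symm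
    · rw [piv_ne F (ne_of_mem_of_not_mem hb hs')]
      rcases Finset.mem_insert.mp hb' with rfl | hb'
      · rw [hF, mul_one]; exact ZModModule.add_self _
      · rw [h.zero b (Finset.mem_of_mem_erase hb) b' (Finset.mem_of_mem_erase hb') hbb',
          h.zero b1 hb1 b' (Finset.mem_of_mem_erase hb') (Finset.ne_of_mem_erase hb').symm,
          mul_zero, add_zero]
  · intro t ht
    rw [gam_piv h hb1 hs hF]
    exact W.add_mem (h.tot t ht) (W.smul_mem _ (h.tot s hsT))

/-- `b` is within distance `n` of an element whose component in `W` is not in `L`. -/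
def Rch (T : Set V) (L : Submodule (ZMod 2) V) (B : Finset V) (F : V → V →ₗ[ZMod 2] ZMod 2) :
    ℕ → V → Prop
  | 0, b => ∃ t ∈ T, F b t = 1 ∧ gam B F t ∉ L
  | n + 1, b => ∃ s ∈ T, ∃ b' ∈ B, F b s = 1 ∧ F b' s = 1 ∧ Rch T L B F n b'

theorem notMem_of_two (h : St W T B F) {b0 b1 s : V} (hb0 : b0 ∈ B) (hb1 : b1 ∈ B) (hne : b0 ≠ b1)
    (h0 : F b0 s = 1) (h1 : F b1 s = 1) : s ∉ B := by
  intro hs
  by_cases h2 : s = b0
  · subst h2
    rw [h.zero b1 hb1 s hs hne.symm] at h1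
    exact zero_ne_one h1
  · rw [h.zero b0 hb0 s hs (fun h' => h2 h'.symm)] at h0
    exact zero_ne_one h0

/-- Distances smaller than the distance of `b1` do not change under the exchange of `b1`. -/
theorem transfer (h : St W T B F) {L : Submodule (ZMod 2) V} {b1 s : V} (hb1 : b1 ∈ B)
    (hs : s ∉ B) (hF : F b1 s = 1) (n : ℕ) (hn : ∀ j < n, ¬ Rch T L B F j b1) :
    ∀ j < n, ∀ b ∈ B, b ≠ b1 → Rch T L B F j b →
      Rch T L (insert s (B.erase b1)) (piv F b1 s) j b := by
  intro j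
  induction j with
  | zero =>
    intro hj b hb hbb1 hR
    obtain ⟨t, ht, h1, h2⟩ := hR
    have h3 : F b1 t = 0 := by
      by_contra h3
      exact hn 0 hj ⟨t, ht, (zmod2_cases _).resolve_left h3, h2⟩
    refine ⟨t, ht, ?_, ?_⟩
    · rw [piv_ne F (ne_of_mem_of_not_mem hb hs), h1, h3, mul_zero, add_zero]
    · rw [gam_piv h hb1 hs hF, h3, zero_smul, add_zero]; exact h2
  | succ j ih =>
    intro hj b hb hbb1 hR
    obtain ⟨t, ht, b', hb', h1, h2, hR'⟩ := hR
    have h3 : F b1 t = 0 := by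
      by_contra h3
      exact hn (j + 1) hj ⟨t, ht, b', hb', (zmod2_cases _).resolve_left h3, h2, hR'⟩
    have hb'1 : b' ≠ b1 := by
      rintro rfl
      exact hn j (by omega) hR'
    refine ⟨t, ht, b', Finset.mem_insert_of_mem (Finset.mem_erase.mpr ⟨hb'1, hb'⟩), ?_, ?_,
      ih (by omega) b' hb' hb'1 hR'⟩
    · rw [piv_ne F (ne_of_mem_of_not_mem hb hs), h1, h3, mul_zero, add_zero]
    · rw [piv_ne F (ne_of_mem_of_not_mem hb' hs), h2, h3, mul_zero, add_zero]

/-- Exchanging the neighbour `b1` of `b0` on a shortest path shortens the path. -/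
theorem shorten (h : St W T B F) {L : Submodule (ZMod 2) V} {b0 b1 s : V} (hb0 : b0 ∈ B)
    (hb1 : b1 ∈ B) (hne : b0 ≠ b1) (hsT : s ∈ T) (h0 : F b0 s = 1) (h1 : F b1 s = 1)
    (hsL : gam B F s ∈ L) (n : ℕ) (hn : ∀ j ≤ n, ¬ Rch T L B F j b0) (hR : Rch T L B F n b1) :
    Rch T L (insert s (B.erase b1)) (piv F b1 s) n b0 := by
  have hs := notMem_of_two h hb0 hb1 hne h0 h1
  have hn1 : ∀ j < n, ¬ Rch T L B F j b1 := by
    intro j hj hR'
    exact hn (j + 1) (by omega) ⟨s, hsT, b1, hb1, h0, h1, hR'⟩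
  rcases n with _ | n
  · obtain ⟨t, ht, h2, h3⟩ := hR
    have h4 : F b0 t = 0 := by
      by_contra h4
      exact hn 0 le_rfl ⟨t, ht, (zmod2_cases _).resolve_left h4, h3⟩
    refine ⟨t, ht, ?_, ?_⟩
    · rw [piv_ne F (ne_of_mem_of_not_mem hb0 hs), h4, h0, h2, mul_one, zero_add]
    · rw [gam_piv h hb1 hs h1, h2, one_smul]
      intro h5
      exact h3 ((Submodule.add_mem_iff_left L hsL).mp h5)
  · obtain ⟨t, ht, b', hb', h2, h3, hR'⟩ := hR
    have h4 : F b0 t = 0 := by
      by_contra h4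
      exact hn (n + 1) le_rfl ⟨t, ht, b', hb', (zmod2_cases _).resolve_left h4, h3, hR'⟩
    have hb'1 : b' ≠ b1 := by
      rintro rfl
      exact hn1 n (by omega) hR'
    have h5 : F b' s = 0 := by
      by_contra h5
      exact hn (n + 1) le_rfl ⟨s, hsT, b', hb', h0, (zmod2_cases _).resolve_left h5, hR'⟩
    refine ⟨t, ht, b', Finset.mem_insert_of_mem (Finset.mem_erase.mpr ⟨hb'1, hb'⟩), ?_, ?_,
      transfer h hb1 hs h1 (n + 1) hn1 n (by omega) b' hb' hb'1 hR'⟩
    · rw [piv_ne F (ne_of_mem_of_not_mem hb0 hs), h4, h0, h2, mul_one, zero_add]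
    · rw [piv_ne F (ne_of_mem_of_not_mem hb' hs), h3, h5, zero_mul, add_zero]

/-- **The merge lemma.** -/
theorem merge (L : Submodule (ZMod 2) V) : ∀ (n : ℕ) (B : Finset V)
    (F : V → V →ₗ[ZMod 2] ZMod 2), St W T B F → ∀ b0 ∈ B, ∀ t1 ∈ T, ∀ t2 ∈ T,
    F b0 t1 = 1 → F b0 t2 = 1 → gam B F t1 ∈ L → gam B F t2 ∈ L → Rch T L B F n b0 →
    ∃ (B' : Finset V) (F' : V → V →ₗ[ZMod 2] ZMod 2), St W T B' F' ∧ ∃ b0' ∈ B', ∃ t1' ∈ T,
      ∃ t2' ∈ T, ∃ t3' ∈ T, F' b0' t1' = 1 ∧ F' b0' t2' = 1 ∧ F' b0' t3' = 1 ∧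
        gam B' F' t1' = gam B F t1 ∧ gam B' F' t2' = gam B F t2 ∧ gam B' F' t3' ∉ L := by
  intro n
  induction n using Nat.strong_induction_on with
  | _ n ih =>
  intro B F h b0 hb0 t1 ht1 t2 ht2 h1 h2 hL1 hL2 hR
  -- reduce to the case of minimal distance
  by_cases hmin : ∃ j < n, Rch T L B F j b0
  · obtain ⟨j, hj, hR'⟩ := hmin
    exact ih j hj B F h b0 hb0 t1 ht1 t2 ht2 h1 h2 hL1 hL2 hR'
  push Not at hmin
  rcases n with _ | n
  · obtain ⟨t, ht, h3, h4⟩ := hR
    exact ⟨B, F, h, b0, hb0, t1, ht1, t2, ht2, t, ht, h1, h2, h3, rfl, rfl, h4⟩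
  obtain ⟨s, hsT, b1, hb1, h3, h4, hR'⟩ := hR
  have hne : b0 ≠ b1 := by
    rintro rfl
    exact hmin n (by omega) hR'
  have hmin' : ∀ j ≤ n, ¬ Rch T L B F j b0 := fun j hj => hmin j (by omega)
  have hgL : ∀ t ∈ T, F b0 t = 1 → gam B F t ∈ L := by
    intro t ht h5
    by_contra h6
    exact hmin 0 (by omega) ⟨t, ht, h5, h6⟩
  -- a general pivot on `s'`
  have hpiv : ∀ s' ∈ T, F b0 s' = 1 → F b1 s' = 1 → ∀ t ∈ T, F b0 t = 1 → F b1 t = 0 →
      piv F b1 s' b0 t = 1 ∧ gam (insert s' (B.erase b1)) (piv F b1 s') t = gam B F t := by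
    intro s' hs' h5 h6 t ht h7 h8
    have hs'B := notMem_of_two h hb0 hb1 hne h5 h6
    rw [gam_piv h hb1 hs'B h6, h8, zero_smul, add_zero, piv_ne F (ne_of_mem_of_not_mem hb0 hs'B), h7,
      h8, mul_zero, add_zero]
    exact ⟨rfl, rfl⟩
  -- after the pivot on `s'`, the old basis element `b1` plays the role of `s'`
  have hpiv1 : ∀ s' ∈ T, F b0 s' = 1 → F b1 s' = 1 →
      piv F b1 s' b0 b1 = 1 ∧ gam (insert s' (B.erase b1)) (piv F b1 s') b1 = gam B F s' := by
    intro s' hs' h5 h6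
    have hs'B := notMem_of_two h hb0 hb1 hne h5 h6
    rw [gam_piv h hb1 hs'B h6, h.one b1 hb1, one_smul, h.gam_basis hb1, zero_add,
      piv_ne F (ne_of_mem_of_not_mem hb0 hs'B), h.zero b0 hb0 b1 hb1 hne, h5, h.one b1 hb1, mul_one,
      zero_add]
    exact ⟨rfl, rfl⟩
  have hb0' : ∀ s' : V, b0 ∈ insert s' (B.erase b1) := fun s' =>
    Finset.mem_insert_of_mem (Finset.mem_erase.mpr ⟨hne, hb0⟩)
  rcases zmod2_cases (F b1 t1) with h5 | h5 <;> rcases zmod2_cases (F b1 t2) with h6 | h6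
  · -- neither is adjacent to `b1`: pivot on `s`
    have hst := h.pivot hb1 hsT (notMem_of_two h hb0 hb1 hne h3 h4) h4
    have hsh := shorten h hb0 hb1 hne hsT h3 h4 (hgL s hsT h3) n hmin' hR'
    obtain ⟨e1, e2⟩ := hpiv s hsT h3 h4 t1 ht1 h1 h5
    obtain ⟨e3, e4⟩ := hpiv s hsT h3 h4 t2 ht2 h2 h6
    have := ih n (by omega) _ _ hst b0 (hb0' s) t1 ht1 t2 ht2 e1 e3 (e2 ▸ hL1) (e4 ▸ hL2) hsh
    rw [e2, e4] at this
    exact this
  · -- only `t2` is adjacent to `b1`
    have hst := h.pivot hb1 ht2 (notMem_of_two h hb0 hb1 hne h2 h6) h6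
    have hsh := shorten h hb0 hb1 hne ht2 h2 h6 hL2 n hmin' hR'
    obtain ⟨e1, e2⟩ := hpiv t2 ht2 h2 h6 t1 ht1 h1 h5
    obtain ⟨e3, e4⟩ := hpiv1 t2 ht2 h2 h6
    have := ih n (by omega) _ _ hst b0 (hb0' t2) t1 ht1 b1 (h.BT b1 hb1) e1 e3 (e2 ▸ hL1)
      (e4 ▸ hL2) hsh
    rw [e2, e4] at this
    exact this
  · have hst := h.pivot hb1 ht1 (notMem_of_two h hb0 hb1 hne h1 h5) h5
    have hsh := shorten h hb0 hb1 hne ht1 h1 h5 hL1 n hmin' hR'
    obtain ⟨e1, e2⟩ := hpiv t1 ht1 h1 h5 t2 ht2 h2 h6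
    obtain ⟨e3, e4⟩ := hpiv1 t1 ht1 h1 h5
    have := ih n (by omega) _ _ hst b0 (hb0' t1) b1 (h.BT b1 hb1) t2 ht2 e3 e1 (e4 ▸ hL1)
      (e2 ▸ hL2) hsh
    rw [e2, e4] at this
    exact this
  · exact ih n (by omega) B F h b1 hb1 t1 ht1 t2 ht2 h5 h6 hL1 hL2 hR'

/-- `gam` as a linear map. -/
noncomputable def gamL (B : Finset V) (F : V → V →ₗ[ZMod 2] ZMod 2) : V →ₗ[ZMod 2] V where
  toFun := gam B F
  map_add' := gam_add B F
  map_smul' := by
    intro c x
    rcases zmod2_cases c with rfl | rfl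
    · rw [zero_smul, gam_zero, RingHom.id_apply, zero_smul]
    · rw [one_smul, RingHom.id_apply, one_smul]

theorem gamL_apply (B : Finset V) (F : V → V →ₗ[ZMod 2] ZMod 2) (x : V) :
    gamL B F x = gam B F x := rfl

theorem gam_sum_eq (B : Finset V) (F : V → V →ₗ[ZMod 2] ZMod 2) (t : V) :
    t = gam B F t + ∑ b ∈ B, F b t • b := by
  unfold gam
  linear_combination (norm := module) - ZModModule.add_self (∑ b ∈ B, F b t • b)

theorem exists_St [Finite V] (W : Submodule (ZMod 2) V) (T : Set V) :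
    ∃ (B : Finset V) (F : V → V →ₗ[ZMod 2] ZMod 2), St W T B F := by
  classical
  obtain ⟨b, hbT, -, hspan, hind⟩ := exists_linearIndepOn_extension (K := ZMod 2) (v := W.mkQ)
    (s := ∅) (t := T) (linearIndepOn_empty _ _) (Set.empty_subset _)
  obtain ⟨B, rfl⟩ : ∃ B : Finset V, (B : Set V) = b := ⟨(Set.toFinite b).toFinset, by simp⟩
  have hd : ∀ x : V, ∃ ψ : (V ⧸ W) →ₗ[ZMod 2] ZMod 2, ∀ i : (B : Set V),
      ψ (W.mkQ i) = if (i : V) = x then 1 else 0 := fun x =>
    exists_dual_of_indep (v := fun i : (B : Set V) => W.mkQ i) hind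
      (fun i => if (i : V) = x then 1 else 0)
  choose ψ hψ using hd
  refine ⟨B, fun x => ψ x ∘ₗ W.mkQ, fun b hb => hbT hb, ?_, ?_, ?_, ?_⟩
  · intro b _ w hw
    have : W.mkQ w = 0 := by rw [Submodule.mkQ_apply, Submodule.Quotient.mk_eq_zero]; exact hw
    rw [LinearMap.comp_apply, this, map_zero]
  · intro b hb
    have := hψ b ⟨b, hb⟩
    rw [if_pos rfl] at this
    exact this
  · intro b _ b' hb' hne
    have := hψ b ⟨b', hb'⟩
    rw [if_neg hne.symm] at this
    exact this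
  · intro t ht
    have h1 := hspan ⟨t, ht, rfl⟩
    obtain ⟨c, hc⟩ := (Submodule.mem_span_image_finset_iff_exists_fun' (ZMod 2)).mp h1
    have h2 : ∀ x ∈ B, ψ x (W.mkQ t) = c x := by
      intro x hx
      rw [← hc, map_sum, Finset.sum_eq_single x]
      · rw [map_smul]
        have := hψ x ⟨x, hx⟩
        rw [if_pos rfl] at this
        rw [this, smul_eq_mul, mul_one]
      · intro y hy hyx
        have := hψ x ⟨y, hy⟩
        rw [if_neg hyx] at this
        rw [map_smul, this, smul_zero]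
      · intro h'; exact absurd hx h'
    have h3 : W.mkQ (gam B (fun x => ψ x ∘ₗ W.mkQ) t) = 0 := by
      unfold gam
      rw [map_add, map_sum]
      have : ∑ x ∈ B, W.mkQ ((ψ x ∘ₗ W.mkQ) t • x) = ∑ x ∈ B, c x • W.mkQ x := by
        apply Finset.sum_congr rfl
        intro x hx
        rw [map_smul, LinearMap.comp_apply, h2 x hx]
      rw [this, hc]
      exact ZModModule.add_self _
    rw [Submodule.mkQ_apply, Submodule.Quotient.mk_eq_zero] at h3
    exact h3

/-- `T` does not split modulo `W`. -/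
def Conn (W : Submodule (ZMod 2) V) (T : Set V) : Prop :=
  ∀ U1 U2 : Submodule (ZMod 2) V, W ≤ U1 → W ≤ U2 → U1 ⊓ U2 ≤ W →
    (∀ t ∈ T, t ∈ U1 ∨ t ∈ U2) → (∀ t ∈ T, t ∈ U1) ∨ (∀ t ∈ T, t ∈ U2)

theorem exists_Rch (h : St W T B F) (hconn : Conn W T) (hTW : ∀ t ∈ T, t ∉ W)
    {L : Submodule (ZMod 2) V} (hL : ∃ t ∈ T, gam B F t ∉ L) {b0 : V} (hb0 : b0 ∈ B) :
    ∃ n, Rch T L B F n b0 := by
  classical
  by_contra hno
  set G := B.filter (fun b => ∃ n, Rch T L B F n b) with hG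
  set H := B.filter (fun b => ¬ ∃ n, Rch T L B F n b) with hH
  have hGm : ∀ b, b ∈ G ↔ b ∈ B ∧ ∃ n, Rch T L B F n b := fun b => Finset.mem_filter
  have hHm : ∀ b, b ∈ H ↔ b ∈ B ∧ ¬ ∃ n, Rch T L B F n b := fun b => Finset.mem_filter
  set U1 := W ⊔ span (ZMod 2) (G : Set V) with hU1
  set U2 := W ⊔ span (ZMod 2) (H : Set V) with hU2
  have hF1 : ∀ b ∈ H, ∀ x ∈ U1, F b x = 0 := by
    intro b hb x hx
    have hb' := (hHm b).mp hb
    have : U1 ≤ LinearMap.ker (F b) := by
      apply sup_le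
      · intro w hw; exact h.FW b hb'.1 w hw
      · rw [Submodule.span_le]
        intro c hc
        have hc' := (hGm c).mp (Finset.mem_coe.mp hc)
        apply h.zero b hb'.1 c hc'.1
        rintro rfl
        exact hb'.2 hc'.2
    exact this hx
  have hF2 : ∀ b ∈ G, ∀ x ∈ U2, F b x = 0 := by
    intro b hb x hx
    have hb' := (hGm b).mp hb
    have : U2 ≤ LinearMap.ker (F b) := by
      apply sup_le
      · intro w hw; exact h.FW b hb'.1 w hw
      · rw [Submodule.span_le]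
        intro c hc
        have hc' := (hHm c).mp (Finset.mem_coe.mp hc)
        apply h.zero b hb'.1 c hc'.1
        rintro rfl
        exact hc'.2 hb'.2
    exact this hx
  have hgam : U1 ≤ W.comap (gamL B F) := by
    apply sup_le
    · intro w hw
      rw [Submodule.mem_comap, gamL_apply, h.gam_W hw]; exact hw
    · rw [Submodule.span_le]
      intro c hc
      have hc' := (hGm c).mp (Finset.mem_coe.mp hc)
      rw [SetLike.mem_coe, Submodule.mem_comap, gamL_apply, h.gam_basis hc'.1]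
      exact W.zero_mem
  have hinf : U1 ⊓ U2 ≤ W := by
    rintro x ⟨hx1, hx2⟩
    have h1 := hgam hx1
    rw [Submodule.mem_comap, gamL_apply] at h1
    unfold gam at h1
    rw [Finset.sum_eq_zero, add_zero] at h1
    · exact h1
    · intro b hb
      by_cases hb' : ∃ n, Rch T L B F n b
      · rw [hF2 b ((hGm b).mpr ⟨hb, hb'⟩) x hx2, zero_smul]
      · rw [hF1 b ((hHm b).mpr ⟨hb, hb'⟩) x hx1, zero_smul]
  have hcov : ∀ t ∈ T, t ∈ U1 ∨ t ∈ U2 := by
    intro t ht
    by_cases hex : ∃ b ∈ B, F b t = 1 ∧ ∃ n, Rch T L B F n b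
    · left
      obtain ⟨b, hb, hbt, n, hn⟩ := hex
      rw [gam_sum_eq B F t]
      refine U1.add_mem (Submodule.mem_sup_left (h.tot t ht)) (U1.sum_mem fun c hc => ?_)
      rcases zmod2_cases (F c t) with h1 | h1
      · rw [h1, zero_smul]; exact U1.zero_mem
      · rw [h1, one_smul]
        apply Submodule.mem_sup_right
        apply Submodule.subset_span
        rw [Finset.mem_coe, hGm]
        exact ⟨hc, n + 1, t, ht, b, hb, h1, hbt, hn⟩
    · right
      rw [gam_sum_eq B F t]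
      refine U2.add_mem (Submodule.mem_sup_left (h.tot t ht)) (U2.sum_mem fun c hc => ?_)
      rcases zmod2_cases (F c t) with h1 | h1
      · rw [h1, zero_smul]; exact U2.zero_mem
      · rw [h1, one_smul]
        apply Submodule.mem_sup_right
        apply Submodule.subset_span
        rw [Finset.mem_coe, hHm]
        exact ⟨hc, fun h' => hex ⟨c, hc, h1, h'⟩⟩
  rcases hconn U1 U2 le_sup_left le_sup_left hinf hcov with h1 | h1
  · have h2 := hF1 b0 ((hHm b0).mpr ⟨hb0, hno⟩) b0 (h1 b0 (h.BT b0 hb0))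
    rw [h.one b0 hb0] at h2
    exact one_ne_zero h2
  · obtain ⟨t, ht, htL⟩ := hL
    have h2 : ∀ b ∈ B, F b t = 0 := by
      intro b hb
      by_contra h3
      have h4 := (zmod2_cases _).resolve_left h3
      exact h3 (hF2 b ((hGm b).mpr ⟨hb, 0, t, ht, h4, htL⟩) t (h1 t ht))
    apply hTW t ht
    have h3 := h.tot t ht
    unfold gam at h3
    rw [Finset.sum_eq_zero (fun b hb => by rw [h2 b hb, zero_smul]), add_zero] at h3
    exact h3

end Merge

section K5
variable {V : Type} [AddCommGroup V] [Module (ZMod 2) V]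

/-- The flat spanned by a configuration of twelve points. -/
def flat (a b m n : V) : Submodule (ZMod 2) V := span (ZMod 2) {a, b, m, n}

theorem mem_flat {a b m n x : V} : x ∈ flat a b m n ↔
    ∃ α β γ δ : ZMod 2, x = α • a + β • b + γ • m + δ • n := by
  unfold flat
  rw [Submodule.mem_span_insert]
  constructor
  · rintro ⟨α, y, hy, rfl⟩
    rw [Submodule.mem_span_insert] at hy
    obtain ⟨β, z, hz, rfl⟩ := hy
    obtain ⟨γ, δ, rfl⟩ := Submodule.mem_span_pair.mp hz
    exact ⟨α, β, γ, δ, by module⟩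
  · rintro ⟨α, β, γ, δ, rfl⟩
    refine ⟨α, β • b + γ • m + δ • n, ?_, by module⟩
    rw [Submodule.mem_span_insert]
    exact ⟨β, γ • m + δ • n, Submodule.mem_span_pair.mpr ⟨γ, δ, rfl⟩, by module⟩

/-- If a further point of the missing line appears after a contraction that does not touch the flat,
then there is an `M(K₅)`-minor. -/
theorem k5_of_line {S : Set V} {a b m n : V} (hP : P12 S a b m n) {C : Set V} (hC : C ⊆ S)
    (hdis : ∀ x ∈ span (ZMod 2) C, x ∈ flat a b m n → x = 0) {γ δ : ZMod 2}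
    (hq : ¬ (γ = 0 ∧ δ = 0)) (hin : InM S (span (ZMod 2) C) (γ • m + δ • n)) : HasK5 S := by
  obtain ⟨γ1, δ1, hdet⟩ : ∃ γ1 δ1 : ZMod 2, γ1 * δ + δ1 * γ = 1 :=
    (by decide : ∀ γ δ : ZMod 2, ¬ (γ = 0 ∧ δ = 0) → ∃ γ1 δ1 : ZMod 2, γ1 * δ + δ1 * γ = 1) γ δ hq
  have hmem : ∀ α β γ δ : ZMod 2, ∀ v : V, ¬ (α = 0 ∧ β = 0) →
      v = α • a + β • b + γ • m + δ • n → InM S (span (ZMod 2) C) v := by
    rintro α β γ δ v h rfl
    exact InM.of_mem _ (hP.mem α β γ δ h)
  have h11 : (1 + 1 : ZMod 2) = 0 := rfl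
  have hxx : ∀ v : V, v + v = 0 := fun v => ZModModule.add_self v
  refine ⟨C, hC, a, b, a + b + (γ1 • m + δ1 • n), a + b + ((γ1 + γ) • m + (δ1 + δ) • n), ?_,
    hmem 1 0 0 0 _ (by decide) (by module), hmem 0 1 0 0 _ (by decide) (by module),
    hmem 1 1 γ1 δ1 _ (by decide) (by module), hmem 1 1 (γ1 + γ) (δ1 + δ) _ (by decide) (by module),
    hmem 1 1 0 0 _ (by decide) (by module), hmem 0 1 γ1 δ1 _ (by decide) ?_,
    hmem 0 1 (γ1 + γ) (δ1 + δ) _ (by decide) ?_, hmem 1 0 γ1 δ1 _ (by decide) ?_,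
    hmem 1 0 (γ1 + γ) (δ1 + δ) _ (by decide) ?_, ?_⟩
  · intro α β ε ζ h
    have h1 := hdis _ h (mem_flat.mpr ⟨α + ε + ζ, β + ε + ζ, ε * γ1 + ζ * (γ1 + γ),
      ε * δ1 + ζ * (δ1 + δ), by module⟩)
    have h2 := hP.ind (α + ε + ζ) (β + ε + ζ) (ε * γ1 + ζ * (γ1 + γ)) (ε * δ1 + ζ * (δ1 + δ)) (by
      rw [Submodule.mem_bot, ← h1]; module)
    obtain ⟨h3, h4, h5, h6⟩ := h2
    exact (by decide : ∀ α β ε ζ γ δ γ1 δ1 : ZMod 2, γ1 * δ + δ1 * γ = 1 → α + ε + ζ = 0 →
      β + ε + ζ = 0 → ε * γ1 + ζ * (γ1 + γ) = 0 → ε * δ1 + ζ * (δ1 + δ) = 0 →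
      α = 0 ∧ β = 0 ∧ ε = 0 ∧ ζ = 0) α β ε ζ γ δ γ1 δ1 hdet h3 h4 h5 h6
  · linear_combination (norm := module) hxx a
  · linear_combination (norm := module) hxx a
  · linear_combination (norm := module) hxx b
  · linear_combination (norm := module) hxx b
  · have : a + b + (γ1 • m + δ1 • n) + (a + b + ((γ1 + γ) • m + (δ1 + δ) • n)) =
        γ • m + δ • n := by
      linear_combination (norm := module) hxx (a + b) + hxx (γ1 • m + δ1 • n)
    rw [this]; exact hin

variable [DecidableEq V] {W : Submodule (ZMod 2) V} {T : Set V} {B : Finset V}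
  {F : V → V →ₗ[ZMod 2] ZMod 2}

theorem St.span_gam (h : St W T B F) {C : Finset V} (hC : C ⊆ B) :
    ∀ x ∈ span (ZMod 2) (C : Set V), gam B F x = 0 := by
  intro x hx
  have : span (ZMod 2) (C : Set V) ≤ LinearMap.ker (gamL B F) := by
    rw [Submodule.span_le]
    intro c hc
    exact h.gam_basis (hC (Finset.mem_coe.mp hc))
  exact this hx

theorem St.span_disj (h : St W T B F) {C : Finset V} (hC : C ⊆ B) :
    ∀ x ∈ span (ZMod 2) (C : Set V), x ∈ W → x = 0 := by
  intro x hx hxW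
  rw [← h.gam_W hxW, h.span_gam hC x hx]

/-- An element with component on the missing line. -/
theorem k5_of_gam {S : Set V} {a b m n : V} (hP : P12 S a b m n)
    (h : St (flat a b m n) T B F) (hTS : T ⊆ S) {t : V} (ht : t ∈ T) (h0 : gam B F t ≠ 0)
    (hL : gam B F t ∈ span (ZMod 2) {m, n}) : HasK5 S := by
  obtain ⟨γ, δ, hγδ⟩ := Submodule.mem_span_pair.mp hL
  refine k5_of_line hP (C := B) (fun b hb => hTS (h.BT b (Finset.mem_coe.mp hb)))
    (h.span_disj subset_rfl) (γ := γ) (δ := δ) ?_ ?_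
  · rintro ⟨rfl, rfl⟩
    apply h0; rw [← hγδ]; module
  · rw [hγδ]
    refine ⟨t, hTS ht, ?_⟩
    have : t + gam B F t = ∑ b ∈ B, F b t • b := by
      unfold gam
      linear_combination (norm := module) ZModModule.add_self t
    rw [this]
    exact Submodule.sum_mem _ fun b hb => Submodule.smul_mem _ _
      (Submodule.subset_span (Finset.mem_coe.mpr hb))

/-- Three elements through a common basis element with independent components in the flat. -/
theorem k5_of_three {S : Set V} {a b m n : V} (hP : P12 S a b m n)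
    (h : St (flat a b m n) T B F) (hTS : T ⊆ S) {b0 : V} (hb0 : b0 ∈ B) {t1 t2 t3 : V}
    (ht1 : t1 ∈ T) (ht2 : t2 ∈ T) (ht3 : t3 ∈ T) (h1 : F b0 t1 = 1) (h2 : F b0 t2 = 1)
    (h3 : F b0 t3 = 1) (hind : ∀ α β γ : ZMod 2,
      α • gam B F t1 + β • gam B F t2 + γ • gam B F t3 = 0 → α = 0 ∧ β = 0 ∧ γ = 0) :
    HasK5 S := by
  by_contra hK
  set w1 := gam B F t1 with hw1
  set w2 := gam B F t2 with hw2
  set w3 := gam B F t3 with hw3
  have d1 := h.tot t1 ht1
  have d2 := h.tot t2 ht2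
  have d3 := h.tot t3 ht3
  rw [← hw1] at d1
  rw [← hw2] at d2
  rw [← hw3] at d3
  have n1 : w1 ≠ 0 := fun h' => one_ne_zero (hind 1 0 0 (by rw [h']; module)).1
  have n2 : w2 ≠ 0 := fun h' => one_ne_zero (hind 0 1 0 (by rw [h']; module)).2.1
  have n3 : w3 ≠ 0 := fun h' => one_ne_zero (hind 0 0 1 (by rw [h']; module)).2.2
  have n12 : w1 + w2 ≠ 0 := fun h' => one_ne_zero (hind 1 1 0 (by rw [← h']; module)).1
  have n13 : w1 + w3 ≠ 0 := fun h' => one_ne_zero (hind 1 0 1 (by rw [← h']; module)).1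
  have n23 : w2 + w3 ≠ 0 := fun h' => one_ne_zero (hind 0 1 1 (by rw [← h']; module)).2.1
  -- points of the flat outside the missing line are in `S`
  have hout : ∀ x ∈ flat a b m n, x ∉ span (ZMod 2) {m, n} → x ∈ S := by
    intro x hx hxL
    obtain ⟨α, β, γ, δ, rfl⟩ := mem_flat.mp hx
    apply hP.mem
    rintro ⟨rfl, rfl⟩
    apply hxL
    exact Submodule.mem_span_pair.mpr ⟨γ, δ, by module⟩
  -- single components
  have hs : ∀ t ∈ T, gam B F t ≠ 0 → gam B F t ∈ S := by
    intro t ht h0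
    apply hout _ (h.tot t ht)
    intro hL
    exact hK (k5_of_gam hP h hTS ht h0 hL)
  -- sums of components
  have hp : ∀ t ∈ T, ∀ t' ∈ T, F b0 t = 1 → F b0 t' = 1 → gam B F t ≠ 0 →
      gam B F t + gam B F t' ≠ 0 → gam B F t + gam B F t' ∈ S := by
    intro t ht t' ht' h4 h5 h6 h7
    apply hout _ (Submodule.add_mem _ (h.tot t ht) (h.tot t' ht'))
    intro hL
    have htB : t ∉ B := fun h' => h6 (h.gam_basis h')
    have hst := h.pivot hb0 ht htB h4
    have e : gam (insert t (B.erase b0)) (piv F b0 t) t' = gam B F t + gam B F t' := by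
      rw [gam_piv h hb0 htB h4, h5, one_smul, add_comm]
    exact hK (k5_of_gam hP hst hTS ht' (by rw [e]; exact h7) (by rw [e]; exact hL))
  have hb0S : b0 ∈ S := hTS (h.BT b0 hb0)
  set C := B.erase b0 with hC
  have hCB : C ⊆ B := Finset.erase_subset _ _
  have hCS : (C : Set V) ⊆ S := fun c hc => hTS (h.BT c (hCB (Finset.mem_coe.mp hc)))
  have hin : ∀ t ∈ T, F b0 t = 1 → InM S (span (ZMod 2) (C : Set V)) (b0 + gam B F t) := by
    intro t ht h4
    refine ⟨t, hTS ht, ?_⟩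
    have e1 : ∑ b ∈ B, F b t • b = ∑ b ∈ B.erase b0, F b t • b + b0 := by
      have := (Finset.sum_erase_add B (fun b => F b t • b) hb0).symm
      simp only [h4, one_smul] at this
      exact this
    have e2 : t + (b0 + gam B F t) = ∑ b ∈ B.erase b0, F b t • b := by
      unfold gam
      rw [e1]
      linear_combination (norm := module) ZModModule.add_self t + ZModModule.add_self b0
    rw [e2]
    exact Submodule.sum_mem _ fun b hb => Submodule.smul_mem _ _
      (Submodule.subset_span (Finset.mem_coe.mpr hb))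
  have hxx : ∀ v : V, v + v = 0 := fun v => ZModModule.add_self v
  have key1 : ∀ w : V, b0 + (b0 + w) = w := fun w => by
    linear_combination (norm := module) hxx b0
  have key2 : ∀ w w' : V, b0 + w + (b0 + w') = w + w' := fun w w' => by
    linear_combination (norm := module) hxx b0
  apply hK
  refine ⟨C, hCS, b0, b0 + w1, b0 + w2, b0 + w3, ?_, InM.of_mem _ hb0S, hin t1 ht1 h1,
    hin t2 ht2 h2, hin t3 ht3 h3, ?_, ?_, ?_, ?_, ?_, ?_⟩
  · intro α β γ δ hh
    have f0 : F b0 (α • b0 + β • (b0 + w1) + γ • (b0 + w2) + δ • (b0 + w3)) = 0 := by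
      have : span (ZMod 2) (C : Set V) ≤ LinearMap.ker (F b0) := by
        rw [Submodule.span_le]
        intro c hc
        have hc' := Finset.mem_erase.mp (Finset.mem_coe.mp hc)
        exact h.zero b0 hb0 c hc'.2 hc'.1.symm
      exact this hh
    simp only [map_add, map_smul, h.one b0 hb0, h.FW b0 hb0 _ d1, h.FW b0 hb0 _ d2,
      h.FW b0 hb0 _ d3, smul_eq_mul, mul_one, add_zero] at f0
    have g0 := h.span_gam hCB _ hh
    have g1 : gamL B F (α • b0 + β • (b0 + w1) + γ • (b0 + w2) + δ • (b0 + w3)) = 0 := g0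
    simp only [map_add, map_smul, gamL_apply, h.gam_basis hb0, h.gam_W d1, h.gam_W d2,
      h.gam_W d3, zero_add, smul_zero] at g1
    obtain ⟨r1, r2, r3⟩ := hind β γ δ g1
    subst r1 r2 r3
    refine ⟨by simpa using f0, rfl, rfl, rfl⟩
  · rw [key1]; exact InM.of_mem _ (hs t1 ht1 n1)
  · rw [key1]; exact InM.of_mem _ (hs t2 ht2 n2)
  · rw [key1]; exact InM.of_mem _ (hs t3 ht3 n3)
  · rw [key2]; exact InM.of_mem _ (hp t1 ht1 t2 ht2 h1 h2 n1 n12)
  · rw [key2]; exact InM.of_mem _ (hp t1 ht1 t3 ht3 h1 h3 n1 n13)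
  · rw [key2]; exact InM.of_mem _ (hp t2 ht2 t3 ht3 h2 h3 n2 n23)

/-- **Merging onto a configuration of twelve points.** -/
theorem merge_k5 [Finite V] {S : Set V} {a b m n : V} (hP : P12 S a b m n) (hTS : T ⊆ S)
    (hne : T.Nonempty) (hTW : ∀ t ∈ T, t ∉ flat a b m n) (hconn : Conn (flat a b m n) T)
    (hrank : 3 ≤ Module.finrank (ZMod 2) (span (ZMod 2) T ⊓ flat a b m n :
      Submodule (ZMod 2) V)) : HasK5 S := by
  classical
  -- for every state the components span the intersection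
  have hbad : ∀ (B : Finset V) (F : V → V →ₗ[ZMod 2] ZMod 2), St (flat a b m n) T B F →
      ∀ L : Submodule (ZMod 2) V, Module.finrank (ZMod 2) L ≤ 2 → ∃ t ∈ T, gam B F t ∉ L := by
    intro B F h L hL
    by_contra hcon
    push Not at hcon
    have h1 : span (ZMod 2) T ⊓ flat a b m n ≤ L := by
      rintro x ⟨hx1, hx2⟩
      have h2 : span (ZMod 2) T ≤ L.comap (gamL B F) := by
        rw [Submodule.span_le]
        intro t ht
        exact hcon t ht
      have h3 := h2 hx1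
      rw [Submodule.mem_comap, gamL_apply, h.gam_W hx2] at h3
      exact h3
    have := Submodule.finrank_mono h1
    omega
  obtain ⟨B, F, h⟩ := exists_St (flat a b m n) T
  obtain ⟨t, ht⟩ := hne
  obtain ⟨b0, hb0, -⟩ : ∃ b0 ∈ B, F b0 t = 1 := by
    by_contra hcon
    push Not at hcon
    apply hTW t ht
    have h1 := h.tot t ht
    unfold gam at h1
    rwa [Finset.sum_eq_zero, add_zero] at h1
    intro b hb
    rw [(zmod2_cases (F b t)).resolve_right (hcon b hb), zero_smul]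
  -- first merge
  obtain ⟨n0, hn0⟩ := exists_Rch h hconn hTW (hbad B F h ⊥ (by rw [finrank_bot]; omega)) hb0
  obtain ⟨B, F, h, b0, hb0, -, -, -, -, t1, ht1, -, -, h1, -, -, hg1⟩ :=
    merge ⊥ n0 B F h b0 hb0 b0 (h.BT b0 hb0) b0 (h.BT b0 hb0) (h.one b0 hb0) (h.one b0 hb0)
      (by rw [h.gam_basis hb0]; exact Submodule.zero_mem _)
      (by rw [h.gam_basis hb0]; exact Submodule.zero_mem _) hn0
  -- second merge
  set L1 := span (ZMod 2) {gam B F t1} with hL1
  have hr1 : Module.finrank (ZMod 2) L1 ≤ 2 := by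
    have h3 := finrank_span_le_card (R := ZMod 2) ({gam B F t1} : Set V)
    have h4 : ({gam B F t1} : Set V).toFinset.card ≤ 2 := by
      rw [Set.toFinset_singleton, Finset.card_singleton]; omega
    exact h3.trans h4
  have hm1 : gam B F t1 ∈ L1 := Submodule.mem_span_singleton_self _
  obtain ⟨n1, hn1⟩ := exists_Rch h hconn hTW (hbad B F h L1 hr1) hb0
  obtain ⟨B', F', h', b0', hb0', t1', ht1', -, -, t2', ht2', h1', -, h2', hg1', -, hg2'⟩ :=
    merge L1 n1 B F h b0 hb0 t1 ht1 t1 ht1 h1 h1 hm1 hm1 hn1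
  -- third merge
  set L2 := span (ZMod 2) {gam B F t1, gam B' F' t2'} with hL2
  have hr2 : Module.finrank (ZMod 2) L2 ≤ 2 := by
    have h3 := finrank_span_le_card (R := ZMod 2) ({gam B F t1, gam B' F' t2'} : Set V)
    have h4 : ({gam B F t1, gam B' F' t2'} : Set V).toFinset.card ≤ 2 := by
      rw [Set.toFinset_insert, Set.toFinset_singleton]
      exact Finset.card_le_two
    exact h3.trans h4
  have hm2 : gam B' F' t1' ∈ L2 := by
    rw [hg1']; exact Submodule.subset_span (by simp)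
  have hm3 : gam B' F' t2' ∈ L2 := Submodule.subset_span (by simp)
  obtain ⟨n2, hn2⟩ := exists_Rch h' hconn hTW (hbad B' F' h' L2 hr2) hb0'
  obtain ⟨B'', F'', h'', b0'', hb0'', s1, hs1, s2, hs2, s3, hs3, i1, i2, i3, j1, j2, j3⟩ :=
    merge L2 n2 B' F' h' b0' hb0' t1' ht1' t2' ht2' h1' h2' hm2 hm3 hn2
  rw [hg1'] at j1
  refine k5_of_three hP h'' hTS hb0'' hs1 hs2 hs3 i1 i2 i3 ?_
  rw [j1, j2]
  intro α β γ hh
  have hγ : γ = 0 := by
    by_contra hne
    have := (zmod2_cases γ).resolve_left hne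
    subst this
    apply j3
    rw [hL2, Submodule.mem_span_pair]
    refine ⟨α, β, ?_⟩
    linear_combination (norm := module) hh - ZModModule.add_self (gam B'' F'' s3)
  subst hγ
  have hβ : β = 0 := by
    by_contra hne
    have := (zmod2_cases β).resolve_left hne
    subst this
    apply hg2'
    rw [hL1, Submodule.mem_span_singleton]
    refine ⟨α, ?_⟩
    linear_combination (norm := module) hh - ZModModule.add_self (gam B' F' t2')
  subst hβ
  refine ⟨?_, rfl, rfl⟩
  by_contra hne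
  have := (zmod2_cases α).resolve_left hne
  subst this
  apply hg1
  rw [Submodule.mem_bot]
  linear_combination (norm := module) hh

end K5

end Pool.Agent.H690K5
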