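import Pool.Agent.H690K5.Lin
set_option autoImplicit false

/-!
# The path lemma: connecting an element with an independent set by contraction
-/

namespace Pool.Agent.H690K5
open Submodule

/-- If `x` cannot be separated from the independent set `I` inside `T`, then contracting an
independent subset of `T` containing all but one element `d` of `I` leaves `x` and `d` independent
and joined by a triangle. -/
theorem path_lemma {R : Type} [AddCommGroup R] [Module (ZMod 2) R] [Finite R]
    (T I : Set R) (x : R) (hIT : I ⊆ T) (hxT : x ∈ T) (hxI : x ∉ I)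
    (hind : LinearIndepOn (ZMod 2) id (insert x I))
    (hconn : ∀ V1 V2 : Submodule (ZMod 2) R, Disjoint V1 V2 →
        (∀ t ∈ T, t ∈ V1 ∨ t ∈ V2) → x ∈ V1 → ∃ i ∈ I, i ∉ V2) :
    ∃ d ∈ I, ∃ C ⊆ T, ∃ z ∈ T, I \ {d} ⊆ C ∧ LinearIndepOn (ZMod 2) id C ∧
      x + d + z ∈ span (ZMod 2) C ∧
      ∀ α β : ZMod 2, α • x + β • d ∈ span (ZMod 2) C → α = 0 ∧ β = 0 := by
  classical
  obtain ⟨B, hBT, hsB, hTB, hB⟩ := exists_linearIndepOn_id_extension hind
    (Set.insert_subset hxT hIT)
  have hxB : x ∈ B := hsB (Set.mem_insert _ _)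
  have hIB : I ⊆ B := fun i hi => hsB (Set.mem_insert_of_mem _ hi)
  choose F hF using fun b : R => exists_values hB (fun b' => if b' = b then 1 else 0)
  -- an element of the span of `B` lies in the span of its support
  have hspan : ∀ (N : Set R) (t : R), t ∈ span (ZMod 2) B → (∀ b ∈ B, F b t = 1 → b ∈ N) →
      t ∈ span (ZMod 2) N := by
    intro N t ht hN
    have ht' : t ∈ span (ZMod 2) ((B.toFinite.toFinset : Finset R) : Set R) := by
      simpa using ht
    obtain ⟨D, hD, rfl⟩ := sum_of_mem_span ht'
    refine Submodule.sum_mem _ fun b hb => Submodule.subset_span (hN b ?_ ?_)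
    · have := hD hb; simpa using this
    · rw [map_sum]
      rw [Finset.sum_congr rfl (fun c hc => hF b c (by have := hD hc; simpa using this))]
      simp [hb]
  let G : SimpleGraph R :=
    { Adj := fun b b' => b ≠ b' ∧ b ∈ B ∧ b' ∈ B ∧ ∃ t ∈ T, F b t = 1 ∧ F b' t = 1
      symm := ⟨fun b b' h => ⟨h.1.symm, h.2.2.1, h.2.1, by
        obtain ⟨t, h1, h2, h3⟩ := h.2.2.2; exact ⟨t, h1, h3, h2⟩⟩⟩
      loopless := ⟨fun b h => h.1 rfl⟩ }
  have hadj : ∀ b b', b ≠ b' → b ∈ B → b' ∈ B → (∃ t ∈ T, F b t = 1 ∧ F b' t = 1) →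
      G.Adj b b' := fun b b' h1 h2 h3 h4 => ⟨h1, h2, h3, h4⟩
  -- some element of `I` is reachable
  have hreach : ∃ i ∈ I, G.Reachable x i := by
    set N : Set R := {b | b ∈ B ∧ G.Reachable x b} with hN
    have hdis : Disjoint (span (ZMod 2) N) (span (ZMod 2) (B \ N)) := by
      rw [Submodule.disjoint_def]
      intro v h1 h2
      have hvB : v ∈ span (ZMod 2) B := Submodule.span_mono (fun b hb => hb.1) h1
      have : v ∈ span (ZMod 2) (∅ : Set R) := by
        apply hspan _ _ hvB
        intro b hb hbv
        exfalso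
        have hv0 : F b v = 0 := by
          by_cases hbN : b ∈ N
          · have : span (ZMod 2) (B \ N) ≤ LinearMap.ker (F b) := by
              rw [Submodule.span_le]
              intro c hc
              rw [SetLike.mem_coe, LinearMap.mem_ker, hF b c hc.1, if_neg]
              rintro rfl; exact hc.2 hbN
            exact this h2
          · have : span (ZMod 2) N ≤ LinearMap.ker (F b) := by
              rw [Submodule.span_le]
              intro c hc
              rw [SetLike.mem_coe, LinearMap.mem_ker, hF b c hc.1, if_neg]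
              rintro rfl; exact hbN hc
            exact this h1
        rw [hv0] at hbv
        exact zero_ne_one hbv
      simpa using this
    obtain ⟨i, hi, hiN⟩ := hconn (span (ZMod 2) N) (span (ZMod 2) (B \ N)) hdis (by
      intro t ht
      by_cases h : ∃ b ∈ N, F b t = 1
      · left
        obtain ⟨b, hb, hbt⟩ := h
        apply hspan _ _ (hTB ht)
        intro c hc hct
        refine ⟨hc, ?_⟩
        by_cases hbc : b = c
        · rw [← hbc]; exact hb.2
        · exact hb.2.trans (hadj b c hbc hb.1 hc ⟨t, ht, hbt, hct⟩).reachable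
      · right
        push Not at h
        apply hspan _ _ (hTB ht)
        intro c hc hct
        exact ⟨hc, fun hcN => h c hcN hct⟩)
      (Submodule.subset_span ⟨hxB, SimpleGraph.Reachable.refl _⟩)
    refine ⟨i, hi, ?_⟩
    by_contra hcon
    exact hiN (Submodule.subset_span ⟨hIB hi, fun h => hcon h.2⟩)
  -- the closest element of `I`
  obtain ⟨d, hd, hmin⟩ := Set.exists_min_image {d | d ∈ I ∧ G.Reachable x d} (G.dist x)
    (Set.toFinite _) (by obtain ⟨i, hi, h⟩ := hreach; exact ⟨i, hi, h⟩)
  obtain ⟨hdI, hdr⟩ := hd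
  obtain ⟨p, hp⟩ := hdr.exists_walk_length_eq_dist
  set m := G.dist x d with hm
  set b : ℕ → R := fun i => p.getVert i with hb
  have hb0 : b 0 = x := by simp [hb]
  have hbm : b m = d := by simp [hb, ← hp]
  have hxd : x ≠ d := fun h => hxI (h ▸ hdI)
  have hm1 : 1 ≤ m := by
    by_contra h
    have : m = 0 := by omega
    rw [this, hb0] at hbm
    exact hxd hbm
  have hdist : ∀ i ≤ m, G.dist x (b i) = i := by
    intro i hi
    apply le_antisymm
    · have := SimpleGraph.dist_le (p.take i)
      rw [SimpleGraph.Walk.take_length, hp] at this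
      exact this.trans (min_le_left _ _)
    · have hr : G.Reachable x (b i) := ⟨p.take i⟩
      obtain ⟨q, hq⟩ := hr.exists_walk_length_eq_dist
      have := SimpleGraph.dist_le (q.append (p.drop i))
      rw [SimpleGraph.Walk.length_append, hq, SimpleGraph.Walk.drop_length, hp] at this
      omega
  have hadjb : ∀ i < m, G.Adj (b i) (b (i + 1)) := fun i hi =>
    p.adj_getVert_succ (by rw [hp]; exact hi)
  have hbB : ∀ i ≤ m, b i ∈ B := by
    intro i hi
    rcases Nat.eq_zero_or_pos i with h | h
    · rw [h, hb0]; exact hxB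
    · have := (hadjb (i - 1) (by omega)).2.2.1
      rwa [Nat.sub_add_cancel h] at this
  have hbinj : ∀ i ≤ m, ∀ j ≤ m, b i = b j → i = j := by
    intro i hi j hj h
    rw [← hdist i hi, ← hdist j hj, h]
  have hex : ∀ i, ∃ t, i < m → t ∈ T ∧ F (b i) t = 1 ∧ F (b (i + 1)) t = 1 := by
    intro i
    by_cases hi : i < m
    · obtain ⟨t, h1, h2, h3⟩ := (hadjb i hi).2.2.2
      exact ⟨t, fun _ => ⟨h1, h2, h3⟩⟩
    · exact ⟨0, fun h => absurd h hi⟩
  choose t ht using hex
  have hloc : ∀ i < m, ∀ c ∈ B, F c (t i) = 1 → G.dist x c = i ∨ G.dist x c = i + 1 := by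
    intro i hi c hc hct
    obtain ⟨h1, h2, h3⟩ := ht i hi
    have hup : G.dist x c ≤ i + 1 ∧ G.Reachable x c := by
      by_cases hcb : b i = c
      · rw [← hcb, hdist i hi.le]; exact ⟨by omega, ⟨p.take i⟩⟩
      · have ha := hadj (b i) c hcb (hbB i hi.le) hc ⟨t i, h1, h2, hct⟩
        refine ⟨?_, SimpleGraph.Reachable.trans ⟨p.take i⟩ ha.reachable⟩
        have := SimpleGraph.dist_le ((p.take i).concat ha)
        rw [SimpleGraph.Walk.length_concat, SimpleGraph.Walk.take_length] at this
        omega
    have hlow : i ≤ G.dist x c := by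
      by_cases hcb : c = b (i + 1)
      · rw [hcb, hdist (i + 1) hi]; omega
      · have ha := hadj c (b (i + 1)) hcb hc (hbB (i + 1) hi) ⟨t i, h1, hct, h3⟩
        obtain ⟨q, hq⟩ := hup.2.exists_walk_length_eq_dist
        have := SimpleGraph.dist_le (q.concat ha)
        rw [SimpleGraph.Walk.length_concat, hdist (i + 1) hi, hq] at this
        omega
    omega
  have hval : ∀ j ≤ m, ∀ i < m, F (b j) (t i) = (if j = i then 1 else 0) +
      (if j = i + 1 then 1 else 0) := by
    intro j hj i hi
    obtain ⟨h1, h2, h3⟩ := ht i hi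
    by_cases h : j = i
    · subst h; simp [h2]
    by_cases h' : j = i + 1
    · subst h'; simp [h3]
    · rw [if_neg h, if_neg h', add_zero]
      refine (zmod2_cases _).resolve_right fun hh => ?_
      have := hloc i hi (b j) (hbB j hj) hh
      rw [hdist j hj] at this
      omega
  set P : Set R := {c | ∃ j ≤ m, b j = c} with hP
  set C0 : Set R := (B \ P) ∪ {c | ∃ i, 1 ≤ i ∧ i < m ∧ t i = c} with hC0
  have hC0T : C0 ⊆ T := by
    rintro c (hc | ⟨i, hi1, hi2, rfl⟩)
    · exact hBT hc.1
    · exact (ht i hi2).1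
  -- the two functionals
  have hf : span (ZMod 2) C0 ≤ LinearMap.ker (F x) := by
    rw [Submodule.span_le]
    rintro c (hc | ⟨i, hi1, hi2, rfl⟩)
    · rw [SetLike.mem_coe, LinearMap.mem_ker, hF x c hc.1, if_neg]
      rintro rfl
      exact hc.2 ⟨0, by omega, hb0⟩
    · rw [SetLike.mem_coe, LinearMap.mem_ker, ← hb0, hval 0 (by omega) i hi2, if_neg (by omega),
        if_neg (by omega), add_zero]
  set g : R →ₗ[ZMod 2] ZMod 2 := ∑ j ∈ Finset.Icc 1 m, F (b j) with hg
  have hgval : ∀ v, g v = ∑ j ∈ Finset.Icc 1 m, F (b j) v := by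
    intro v; rw [hg, LinearMap.sum_apply]
  have hgf : span (ZMod 2) C0 ≤ LinearMap.ker g := by
    rw [Submodule.span_le]
    rintro c (hc | ⟨i, hi1, hi2, rfl⟩)
    · rw [SetLike.mem_coe, LinearMap.mem_ker, hgval]
      refine Finset.sum_eq_zero fun j hj => ?_
      rw [Finset.mem_Icc] at hj
      rw [hF (b j) c hc.1, if_neg]
      rintro h
      exact hc.2 ⟨j, hj.2, h.symm⟩
    · rw [SetLike.mem_coe, LinearMap.mem_ker, hgval]
      rw [Finset.sum_congr rfl (fun j hj => hval j (Finset.mem_Icc.mp hj).2 i hi2),
        Finset.sum_add_distrib, Finset.sum_ite_eq', Finset.sum_ite_eq',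
        if_pos (Finset.mem_Icc.mpr ⟨hi1, hi2.le⟩), if_pos (Finset.mem_Icc.mpr ⟨by omega, hi2⟩)]
      rfl
  have hfx : F x x = 1 := by rw [hF x x hxB, if_pos rfl]
  have hfd : F x d = 0 := by rw [hF x d (hIB hdI), if_neg hxd.symm]
  have hgx : g x = 0 := by
    rw [hgval]
    refine Finset.sum_eq_zero fun j hj => ?_
    rw [Finset.mem_Icc] at hj
    rw [hF (b j) x hxB, if_neg]
    intro h
    have := hbinj 0 (by omega) j hj.2 (by rw [hb0]; exact h)
    omega
  have hgd : g d = 1 := by
    rw [hgval, Finset.sum_eq_single m]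
    · rw [hF (b m) d (hIB hdI), if_pos hbm.symm]
    · intro j hj hjm
      rw [Finset.mem_Icc] at hj
      rw [hF (b j) d (hIB hdI), if_neg]
      intro h
      exact hjm (hbinj j hj.2 m le_rfl (by rw [← h, hbm]))
    · intro h
      exact absurd (Finset.mem_Icc.mpr ⟨hm1, le_rfl⟩) h
  -- the triangle
  have htri : x + d + t 0 ∈ span (ZMod 2) C0 := by
    have hu : x + d + ∑ i ∈ Finset.range m, t i ∈ span (ZMod 2) (B \ P) := by
      apply hspan
      · refine Submodule.add_mem _ (Submodule.add_mem _ (Submodule.subset_span hxB)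
          (Submodule.subset_span (hIB hdI))) (Submodule.sum_mem _ fun i hi => ?_)
        exact hTB (ht i (Finset.mem_range.mp hi)).1
      · intro c hc hcu
        refine ⟨hc, ?_⟩
        rintro ⟨j, hj, rfl⟩
        have h0 : F (b j) (x + d + ∑ i ∈ Finset.range m, t i) = 0 := by
          rw [map_add, map_add, map_sum,
            Finset.sum_congr rfl (fun i hi => hval j hj i (Finset.mem_range.mp hi)),
            Finset.sum_add_distrib, Finset.sum_ite_eq, hF _ _ hxB, hF _ _ (hIB hdI)]
          have e1 : (x = b j) ↔ j = 0 := by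
            constructor
            · intro h; exact (hbinj 0 (by omega) j hj (by rw [hb0]; exact h)).symm
            · rintro rfl; exact hb0.symm
          have e2 : (d = b j) ↔ j = m := by
            constructor
            · intro h; exact hbinj j hj m le_rfl (by rw [hbm]; exact h.symm)
            · rintro rfl; exact hbm.symm
          have e3 : (∑ i ∈ Finset.range m, if j = i + 1 then (1 : ZMod 2) else 0) =
              if 1 ≤ j then 1 else 0 := by
            by_cases h : 1 ≤ j
            · rw [if_pos h, Finset.sum_eq_single (j - 1)]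
              · rw [if_pos (by omega)]
              · intro i _ hij; rw [if_neg (by omega)]
              · intro h'; exact absurd (Finset.mem_range.mpr (by omega)) h'
            · rw [if_neg h]
              exact Finset.sum_eq_zero fun i _ => if_neg (by omega)
          simp only [e1, e2, e3, Finset.mem_range]
          by_cases h1 : j = 0
          · subst h1
            rw [if_pos rfl, if_neg (by omega), if_pos (by omega), if_neg (by omega)]
            decide
          · by_cases h2 : j = m
            · rw [if_neg h1, if_pos h2, if_neg (by omega), if_pos (by omega)]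
              decide
            · rw [if_neg h1, if_neg h2, if_pos (by omega), if_pos (by omega)]
              decide
        rw [h0] at hcu
        exact zero_ne_one hcu
    obtain ⟨m', hm'⟩ : ∃ m', m = m' + 1 := ⟨m - 1, by omega⟩
    have hsum : x + d + t 0 = (x + d + ∑ i ∈ Finset.range m, t i) +
        ∑ i ∈ Finset.range m', t (i + 1) := by
      rw [hm', Finset.sum_range_succ']
      linear_combination (norm := module)
        - ZModModule.add_self (∑ i ∈ Finset.range m', t (i + 1))
    rw [hsum]
    refine Submodule.add_mem _ (Submodule.span_mono Set.subset_union_left hu)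
      (Submodule.sum_mem _ fun i hi => Submodule.subset_span (Or.inr ⟨i + 1, by omega, ?_, rfl⟩))
    have := Finset.mem_range.mp hi
    omega
  have hId : I \ {d} ⊆ C0 := by
    intro i hi
    refine Or.inl ⟨hIB hi.1, ?_⟩
    rintro ⟨j, hj, rfl⟩
    have hjr : G.Reachable x (b j) := ⟨p.take j⟩
    have := hmin (b j) ⟨hi.1, hjr⟩
    rw [hdist j hj] at this
    have hjm : j = m := by omega
    rw [hjm] at hi
    exact hi.2 hbm
  obtain ⟨C, hC1, hC2, hC3, hC4⟩ := exists_indep_span
    (hB.mono (fun i hi => hIB (Set.mem_of_mem_sdiff hi)) : LinearIndepOn (ZMod 2) id (I \ {d})) hId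
  refine ⟨d, hdI, C, hC1.trans hC0T, t 0, (ht 0 (by omega)).1, hC2, hC4, ?_, ?_⟩
  · rw [hC3]; exact htri
  · intro α β h
    rw [hC3] at h
    have h1 := hf h
    have h2 := hgf h
    rw [LinearMap.mem_ker, map_add, map_smul, map_smul, hfx, hfd] at h1
    rw [LinearMap.mem_ker, map_add, map_smul, map_smul, hgx, hgd] at h2
    simpa using And.intro h1 h2

end Pool.Agent.H690K5
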