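import Pool.Agent.H690K5.Basic
import Pool.Agent.H690K5.Path
set_option autoImplicit false

/-!
# Joining two classes over a full line by a path
-/

namespace Pool.Agent.H690K5
open Submodule

/-- Joining a class with three lifts with a class that has four lifts after contraction. -/
theorem k5_of_path {V : Type} [AddCommGroup V] [Module (ZMod 2) V] [Finite V] {S : Set V}
    {p a x : V} (I0 : Set V) (hp : p ∈ S) (ha : a ∈ S) (hap : a + p ∈ S)
    (hpa : ∀ α β : ZMod 2, α • p + β • a = 0 → α = 0 ∧ β = 0)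
    (hx : x ∈ S) (hxp : x + p ∈ S) (hxa : x + a ∈ S) (hI : I0 ⊆ S) (hxI : x ∉ I0)
    (hind : LinearIndepOn (ZMod 2) (span (ZMod 2) {p, a}).mkQ (insert x I0))
    (hconn : ∀ V1 V2 : Submodule (ZMod 2) (V ⧸ span (ZMod 2) {p, a}), Disjoint V1 V2 →
      (∀ s ∈ S, (span (ZMod 2) {p, a}).mkQ s ∈ V1 ∨ (span (ZMod 2) {p, a}).mkQ s ∈ V2) →
      (span (ZMod 2) {p, a}).mkQ x ∈ V1 → ∃ i ∈ I0, (span (ZMod 2) {p, a}).mkQ i ∉ V2)
    (hfull : ∀ d ∈ I0, ∀ C ⊆ S, I0 \ {d} ⊆ C → InM S (span (ZMod 2) C) d ∧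
      InM S (span (ZMod 2) C) (d + p) ∧ InM S (span (ZMod 2) C) (d + a) ∧
      InM S (span (ZMod 2) C) (d + a + p)) : HasK5 S := by
  classical
  set L := span (ZMod 2) {p, a} with hL
  set π := L.mkQ with hπ
  have hinj : Set.InjOn π (insert x I0) := hind.injOn
  have hxπ : π x ∉ π '' I0 := by
    rintro ⟨i, hi, h⟩
    have := hinj (Set.mem_insert_of_mem _ hi) (Set.mem_insert _ _) h
    exact hxI (this ▸ hi)
  obtain ⟨_, ⟨d, hd, rfl⟩, Cb, hCb, _, ⟨z, hz, rfl⟩, hId, hCi, htri, hdet⟩ :=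
    path_lemma (π '' S) (π '' I0) (π x) (Set.image_mono hI) ⟨x, hx, rfl⟩ hxπ
    (by
      have := hind.id_image
      rwa [Set.image_insert_eq] at this)
    (by
      intro V1 V2 h1 h2 h3
      obtain ⟨i, hi, h⟩ := hconn V1 V2 h1 (fun s hs => h2 _ ⟨s, hs, rfl⟩) h3
      exact ⟨_, ⟨i, hi, rfl⟩, h⟩)
  -- choose lifts
  have hlift : ∀ c : V ⧸ L, ∃ v : V, (c ∈ π '' I0 → v ∈ I0 ∧ π v = c) ∧
      (c ∈ π '' S → v ∈ S ∧ π v = c) := by
    intro c
    by_cases h : c ∈ π '' I0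
    · obtain ⟨i, hi, rfl⟩ := h
      exact ⟨i, fun _ => ⟨hi, rfl⟩, fun _ => ⟨hI hi, rfl⟩⟩
    · by_cases h' : c ∈ π '' S
      · obtain ⟨i, hi, rfl⟩ := h'
        exact ⟨i, fun hh => absurd hh h, fun _ => ⟨hi, rfl⟩⟩
      · exact ⟨0, fun hh => absurd hh h, fun hh => absurd hh h'⟩
  choose σ hσ using hlift
  have hσC : ∀ c ∈ Cb, π (σ c) = c := fun c hc => ((hσ c).2 (hCb hc)).2
  have hCS : σ '' Cb ⊆ S := by
    rintro _ ⟨c, hc, rfl⟩
    exact ((hσ c).2 (hCb hc)).1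
  have hIdC : I0 \ {d} ⊆ σ '' Cb := by
    intro i hi
    have h1 : π i ∈ Cb := by
      apply hId
      refine ⟨⟨i, hi.1, rfl⟩, ?_⟩
      intro h
      exact hi.2 (hinj (Set.mem_insert_of_mem _ hi.1) (Set.mem_insert_of_mem _ hd) h)
    refine ⟨π i, h1, ?_⟩
    obtain ⟨h2, h3⟩ := (hσ (π i)).1 ⟨i, hi.1, rfl⟩
    exact hinj (Set.mem_insert_of_mem _ h2) (Set.mem_insert_of_mem _ hi.1) h3
  have hindC : LinearIndepOn (ZMod 2) π (σ '' Cb) := by
    have h0 : LinearIndepOn (ZMod 2) (π ∘ σ) Cb := by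
      apply (linearIndepOn_congr _).mpr hCi
      intro c hc
      exact hσC c hc
    exact LinearIndepOn.image_of_comp σ π h0
  have himg : π '' (σ '' Cb) = Cb := by
    ext c
    constructor
    · rintro ⟨_, ⟨c', hc', rfl⟩, rfl⟩
      rw [hσC c' hc']; exact hc'
    · intro hc
      exact ⟨σ c, ⟨c, hc, rfl⟩, hσC c hc⟩
  have hmap : (span (ZMod 2) (σ '' Cb)).map π = span (ZMod 2) Cb := by
    rw [Submodule.map_span, himg]
  have hker : ∀ v, π v = 0 ↔ v ∈ L := by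
    intro v
    rw [hπ, Submodule.mkQ_apply, Submodule.Quotient.mk_eq_zero]
  have hπp : π p = 0 := (hker p).mpr (Submodule.subset_span (by simp))
  have hπa : π a = 0 := (hker a).mpr (Submodule.subset_span (by simp))
  have hI4 : Ind4 (span (ZMod 2) (σ '' Cb)) p a x d := by
    intro α β γ δ h
    have h1 : π (α • p + β • a + γ • x + δ • d) ∈ span (ZMod 2) Cb := by
      rw [← hmap]; exact Submodule.mem_map_of_mem h
    simp only [map_add, map_smul, hπp, hπa, smul_zero, zero_add] at h1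
    obtain ⟨rfl, rfl⟩ := hdet γ δ h1
    have h2 : α • p + β • a = 0 := by
      apply disjoint_ker_of_indep π hindC
      · simpa using h
      · simp [hπp, hπa]
    obtain ⟨rfl, rfl⟩ := hpa α β h2
    simp
  -- the triangle
  have h1 : π (x + d + z) ∈ (span (ZMod 2) (σ '' Cb)).map π := by
    rw [hmap, map_add, map_add]; exact htri
  obtain ⟨w, hw, hwπ⟩ := h1
  have h2 : x + d + z - w ∈ L := by
    rw [← hker, map_sub, hwπ, sub_self]
  rw [hL, Submodule.mem_span_pair] at h2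
  obtain ⟨ε, δ, hεδ⟩ := h2
  obtain ⟨f1, f2, f3, f4⟩ := hfull d hd _ hCS hIdC
  refine k5_of_classes hCS hI4 hp ha hap hx hxp hxa f1 f2 f3 f4 hz ε δ ?_
  have : x + d + z + (ε • p + δ • a) = w := by
    rw [hεδ]
    linear_combination (norm := module) ZModModule.add_self (x + d + z) - ZModModule.add_self w
  rw [this]
  exact hw

end Pool.Agent.H690K5
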