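import Pool.Agent.H690K5.Count
import Pool.Agent.H690K5.Join
set_option autoImplicit false
set_option linter.unusedSectionVars false
set_option linter.style.haveILetI false

/-!
# Minimal counterexamples to the bound
-/

namespace Pool.Agent.H690K5
open Submodule

/-- The bound for configurations of rank at most `ρ + 1`. -/
def Bound (ρ : ℕ) : Prop :=
  ∀ (V : Type) [AddCommGroup V] [Module (ZMod 2) V] [Finite V] (S : Set V) (p : V),
    (0 : V) ∉ S → p ∈ S → ¬ HasK5 S → Module.finrank (ZMod 2) (span (ZMod 2) S) ≤ ρ + 1 →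
      Phi2 S p + 6 ≤ 12 * ρ

/-- A minimal counterexample to the bound. -/
structure Cex (ρ : ℕ) {V : Type} [AddCommGroup V] [Module (ZMod 2) V] [Finite V] (S : Set V)
    (p : V) : Prop where
  two_le : 2 ≤ ρ
  ih : ∀ ρ', 1 ≤ ρ' → ρ' < ρ → Bound ρ'
  h0 : (0 : V) ∉ S
  hp : p ∈ S
  hK : ¬ HasK5 S
  hr : Module.finrank (ZMod 2) (span (ZMod 2) S) ≤ ρ + 1
  hbig : 12 * ρ < Phi2 S p + 6

section
variable {V : Type} [AddCommGroup V] [Module (ZMod 2) V] [Finite V]

theorem finrank_contr {S : Set V} {a : V} (ha : a ∈ S) (h0 : a ≠ 0) :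
    Module.finrank (ZMod 2) (span (ZMod 2) (contr S a)) + 1 ≤
      Module.finrank (ZMod 2) (span (ZMod 2) S) := by
  set π := (span (ZMod 2) {a}).mkQ with hπ
  set f := π.domRestrict (span (ZMod 2) S) with hf
  have h1 := LinearMap.finrank_range_add_finrank_ker f
  have h2 : LinearMap.range f = (span (ZMod 2) S).map π := LinearMap.range_domRestrict _ _
  have h3 : span (ZMod 2) (contr S a) ≤ (span (ZMod 2) S).map π := by
    rw [Submodule.map_span]
    exact Submodule.span_mono (fun x hx => hx.1)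
  have h4 := Submodule.finrank_mono h3
  have h5 : 1 ≤ Module.finrank (ZMod 2) (LinearMap.ker f) := by
    rw [Nat.one_le_iff_ne_zero]
    intro h
    rw [Submodule.finrank_eq_zero] at h
    have : (⟨a, Submodule.subset_span ha⟩ : span (ZMod 2) S) ∈ LinearMap.ker f := by
      rw [LinearMap.mem_ker, hf, LinearMap.domRestrict_apply, hπ, mkQ_eq_zero_iff]
      right; rfl
    rw [h, Submodule.mem_bot] at this
    exact h0 (congrArg Subtype.val this)
  rw [h2] at h1
  omega

theorem not_hasK5_contr {S : Set V} {a : V} (ha : a ∈ S) (hK : ¬ HasK5 S) :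
    ¬ HasK5 (contr S a) := by
  intro h
  apply hK
  apply HasK5.of_contract {a} (by simpa using ha)
  exact h.mono (fun x hx => hx.1)

theorem zero_notMem_contr {S : Set V} {a : V} : (0 : V ⧸ span (ZMod 2) {a}) ∉ contr S a :=
  fun h => h.2 rfl

/-- The bound for a contraction. -/
theorem Cex.bound_contr {ρ : ℕ} {S : Set V} {p : V} (h : Cex ρ S p) {a : V} (ha : a ∈ S)
    {q : V ⧸ span (ZMod 2) {a}} (hq : q ∈ contr S a) :
    Phi2 (contr S a) q + 6 ≤ 12 * (ρ - 1) := by
  have h2 := h.two_le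
  apply h.ih (ρ - 1) (by omega) (by omega) _ _ _ zero_notMem_contr hq (not_hasK5_contr ha h.hK)
  have := finrank_contr ha (fun hh => h.h0 (hh ▸ ha))
  have := h.hr
  omega

theorem Cex.p_ne {ρ : ℕ} {S : Set V} {p : V} (h : Cex ρ S p) : p ≠ 0 :=
  fun hh => h.h0 (hh ▸ h.hp)

theorem ncard_sdiff_zero_add_one {S : Set V} {p : V} (hp : p ∈ S) :
    (S \ {p}).ncard + 1 = S.ncard := Set.ncard_sdiff_singleton_add_one hp (Set.toFinite S)

theorem two_ncard_le_phi2 {S : Set V} {p : V} (h0 : (0 : V) ∉ S) (hp : p ∈ S) :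
    2 * S.ncard ≤ Phi2 S p + 2 := by
  classical
  have h1 : tot (fun v => 2 * ind (S \ {p}) v) ≤ Phi2 S p := by
    apply tot_mono
    intro v
    by_cases hv : v ∈ S \ {p}
    · have h2 : ¬ (v = 0 ∨ v = p) := by
        rintro (h | h)
        · exact h0 (h ▸ hv.1)
        · exact hv.2 h
      rw [if_neg h2, ind_of_mem hv, ind_of_mem hv.1]
      omega
    · rw [ind_of_notMem hv]; omega
  rw [tot_mul 2 (ind (S \ {p})), tot_indS] at h1
  have := ncard_sdiff_zero_add_one hp
  omega

/-- In a counterexample some line through `p` is full. -/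
theorem Cex.exists_full {ρ : ℕ} {S : Set V} {p : V} (h : Cex ρ S p) : ∃ a ∈ S, a + p ∈ S := by
  classical
  by_contra hcon
  push Not at hcon
  have hp0 := h.p_ne
  have h2 := h.two_le
  -- value of `Phi2`
  have e1 : Phi2 S p ≤ 2 * (S \ {p}).ncard := by
    rw [← tot_indS, ← tot_mul]
    apply tot_mono
    intro v
    by_cases hv : v = 0 ∨ v = p
    · rw [if_pos hv]; omega
    · rw [if_neg hv]
      push Not at hv
      by_cases hvS : v ∈ S
      · rw [ind_of_mem (show v ∈ S \ {p} from ⟨hvS, hv.2⟩), ind_of_mem hvS,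
          ind_of_notMem (hcon v hvS)]
      · rw [ind_of_notMem hvS]; omega
  -- size of the contraction
  have e2 : 2 * (contr S p).ncard = 2 * (S \ {p}).ncard := by
    rw [← tot_indS, ← tot_quot hp0]
    have : ∀ v, ind (contr S p) ((span (ZMod 2) {p}).mkQ v) =
        ind (S \ {p}) v + ind (S \ {p}) (v + p) := by
      intro v
      have hpp : v + p = p ↔ v = 0 := by simp
      by_cases hv : v = 0 ∨ v = p
      · rw [ind_of_notMem, ind_of_notMem, ind_of_notMem]
        · rintro ⟨h1, h2⟩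
          rcases hv with hv | hv
          · exact h2 (hpp.mpr hv)
          · apply h.h0
            rw [hv, ZModModule.add_self] at h1
            exact h1
        · rintro ⟨h1, h2⟩
          rcases hv with hv | hv
          · exact h.h0 (hv ▸ h1)
          · exact h2 hv
        · rw [mem_contr_iff]; tauto
      · by_cases h1 : v ∈ S
        · rw [ind_of_mem, ind_of_mem, ind_of_notMem]
          · intro h2; exact hcon v h1 h2.1
          · exact ⟨h1, fun h => hv (Or.inr h)⟩
          · rw [mem_contr_iff]; tauto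
        · by_cases h2 : v + p ∈ S
          · rw [ind_of_mem (mem_contr_iff.mpr ⟨by tauto, Or.inr h2⟩),
              ind_of_notMem (fun h => h1 h.1), ind_of_mem]
            refine ⟨h2, fun h => hv (Or.inl (hpp.mp h))⟩
          · rw [ind_of_notMem, ind_of_notMem (fun h => h1 h.1), ind_of_notMem (fun h => h2 h.1)]
            rw [mem_contr_iff]; tauto
    rw [tot_congr this, tot_add, tot_translate (ind (S \ {p})) p, tot_indS, two_mul]
  have hne : (contr S p).Nonempty := by
    rw [Set.nonempty_iff_ne_empty]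
    intro hh
    rw [hh, Set.ncard_empty] at e2
    have := h.hbig
    omega
  obtain ⟨q, hq⟩ := hne
  have e3 := h.bound_contr h.hp hq
  have e4 := two_ncard_le_phi2 zero_notMem_contr hq
  have := h.hbig
  omega

theorem Cex.a_ne_zero {ρ : ℕ} {S : Set V} {p : V} (h : Cex ρ S p) {a : V} (ha : a ∈ S) : a ≠ 0 :=
  fun hh => h.h0 (hh ▸ ha)

theorem Cex.a_ne_p {ρ : ℕ} {S : Set V} {p : V} (h : Cex ρ S p) {a : V}
    (hap : a + p ∈ S) : a ≠ p := by
  rintro rfl
  rw [ZModModule.add_self] at hap
  exact h.h0 hap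

/-- the total penalty of a full line is large. -/
theorem Cex.pen_ge {ρ : ℕ} {S : Set V} {p : V} (h : Cex ρ S p) {a : V} (ha : a ∈ S)
    (hap : a + p ∈ S) : 28 ≤ tot (pen S p a) := by
  have h1 := count_identity h.p_ne (h.a_ne_zero ha) (h.a_ne_p hap) ha hap h.hp
  have hne : a ≠ p := h.a_ne_p hap
  have h2 := h.bound_contr ha (q := (span (ZMod 2) {a}).mkQ p)
    (mem_contr_iff.mpr ⟨⟨h.p_ne, hne.symm⟩, Or.inl h.hp⟩)
  have h3 := h.bound_contr hap (q := (span (ZMod 2) {a + p}).mkQ p)
    (mem_contr_iff.mpr ⟨⟨h.p_ne, by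
      intro hh; apply h.a_ne_zero ha; simpa using hh.symm⟩, Or.inl h.hp⟩)
  have h4 := h.hbig
  have h5 := h.two_le
  omega

theorem pa_indep {p a : V} (hp : p ≠ 0) (ha : a ≠ 0) (hap : a ≠ p) :
    ∀ α β : ZMod 2, α • p + β • a = 0 → α = 0 ∧ β = 0 := by
  intro α β h
  rcases zmod2_cases α with rfl | rfl <;> rcases zmod2_cases β with rfl | rfl
  · exact ⟨rfl, rfl⟩
  · exfalso; apply ha; simpa using h
  · exfalso; apply hp; simpa using h
  · exfalso; apply hap
    rw [one_smul, one_smul] at h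
    linear_combination (norm := module) h - ZModModule.add_self p

theorem mem_span_pair_iff_inL {p a v : V} : v ∈ span (ZMod 2) {p, a} ↔ InL p a v := by
  rw [Submodule.mem_span_pair]
  constructor
  · rintro ⟨α, β, rfl⟩
    unfold InL
    rcases zmod2_cases α with rfl | rfl <;> rcases zmod2_cases β with rfl | rfl
    · left; simp
    · right; right; left; simp
    · right; left; simp
    · right; right; right; rw [one_smul, one_smul, add_comm]
  · rintro (rfl | rfl | rfl | rfl)
    · exact ⟨0, 0, by simp⟩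
    · exact ⟨1, 0, by simp⟩
    · exact ⟨0, 1, by simp⟩
    · exact ⟨1, 1, by rw [one_smul, one_smul, add_comm]⟩

theorem mkQ_pair_eq_zero_iff {p a v : V} : (span (ZMod 2) {p, a}).mkQ v = 0 ↔ InL p a v := by
  rw [Submodule.mkQ_apply, Submodule.Quotient.mk_eq_zero, mem_span_pair_iff_inL]

theorem finrank_pair {p a : V} (hp : p ≠ 0) (ha : a ≠ 0) (hap : a ≠ p) :
    Module.finrank (ZMod 2) (span (ZMod 2) {p, a}) = 2 := by
  have h1 : LinearIndepOn (ZMod 2) id ({p, a} : Set V) := by
    rw [LinearIndepOn.pair_iff]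
    · intro s t hst
      exact pa_indep hp ha hap s t hst
    · exact hap.symm
  classical
  have h2 := finrank_span_set_eq_card (R := ZMod 2) (s := ({p, a} : Set V)) h1
  rw [h2]
  simp [hap.symm]

/-- In a counterexample, the contraction of a full line is connected. -/
theorem Cex.conn {ρ : ℕ} {S : Set V} {p : V} (h : Cex ρ S p) {a : V} (ha : a ∈ S)
    (hap : a + p ∈ S) (V1 V2 : Submodule (ZMod 2) (V ⧸ span (ZMod 2) {p, a}))
    (hd : Disjoint V1 V2) (hcov : ∀ s ∈ S, (span (ZMod 2) {p, a}).mkQ s ∈ V1 ∨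
      (span (ZMod 2) {p, a}).mkQ s ∈ V2) :
    (∀ s ∈ S, (span (ZMod 2) {p, a}).mkQ s ∈ V1) ∨
      (∀ s ∈ S, (span (ZMod 2) {p, a}).mkQ s ∈ V2) := by
  classical
  by_contra hcon
  push Not at hcon
  obtain ⟨⟨y, hy, hyV⟩, ⟨x, hx, hxV⟩⟩ := hcon
  set π := (span (ZMod 2) {p, a}).mkQ with hπ
  have hp0 := h.p_ne
  have ha0 := h.a_ne_zero ha
  have hapne := h.a_ne_p hap
  have hπL : ∀ v, InL p a v → π v = 0 := fun v hv => mkQ_pair_eq_zero_iff.mpr hv
  have hinf : ∀ v, π v ∈ V1 → π v ∈ V2 → InL p a v := by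
    intro v h1 h2
    rw [← mkQ_pair_eq_zero_iff]
    exact (Submodule.disjoint_def.mp hd) _ h1 h2
  set S1 : Set V := {s | s ∈ S ∧ π s ∈ V1} with hS1
  set S2 : Set V := {s | s ∈ S ∧ π s ∈ V2} with hS2
  have hL1 : ∀ v, InL p a v → v ∈ S → v ∈ S1 := fun v hv hvS =>
    ⟨hvS, by rw [hπL v hv]; exact V1.zero_mem⟩
  have hL2 : ∀ v, InL p a v → v ∈ S → v ∈ S2 := fun v hv hvS =>
    ⟨hvS, by rw [hπL v hv]; exact V2.zero_mem⟩
  have ip : InL p a p := Or.inr (Or.inl rfl)
  have ia : InL p a a := Or.inr (Or.inr (Or.inl rfl))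
  have iap : InL p a (a + p) := Or.inr (Or.inr (Or.inr rfl))
  -- the count
  have hcount : Phi2 S p + 6 ≤ Phi2 S1 p + Phi2 S2 p := by
    have e6 : tot (fun v => 3 * ind ({a, a + p} : Set V) v) = 6 := by
      rw [tot_mul 3 (ind ({a, a + p} : Set V)), tot_indS, Set.ncard_pair]
      intro hh; apply hp0; simpa using hh.symm
    rw [← e6]
    unfold Phi2
    rw [← tot_add, ← tot_add]
    apply tot_mono
    intro v
    have hstep : ∀ (U : Submodule (ZMod 2) (V ⧸ span (ZMod 2) {p, a})) (w : V),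
        π w ∈ U → ind {s | s ∈ S ∧ π s ∈ U} w = ind S w := by
      intro U w hw
      by_cases hwS : w ∈ S
      · rw [ind_of_mem hwS, ind_of_mem (show w ∈ {s | s ∈ S ∧ π s ∈ U} from ⟨hwS, hw⟩)]
      · rw [ind_of_notMem hwS, ind_of_notMem (fun h => hwS h.1)]
    have hπp : π (v + p) = π v := by rw [map_add, hπL p ip, add_zero]
    by_cases h0 : v = 0 ∨ v = p
    · rw [if_pos h0, if_pos h0, if_pos h0, ind_of_notMem]
      rcases h0 with rfl | rfl
      · rintro (hh | hh)
        · exact ha0 hh.symm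
        · exact h.a_ne_zero hap hh.symm
      · rintro (hh | hh)
        · exact hapne hh.symm
        · apply ha0; simpa using hh.symm
    rw [if_neg h0, if_neg h0, if_neg h0]
    by_cases hvA : v ∈ ({a, a + p} : Set V)
    · have hvL : InL p a v := by
        rcases hvA with rfl | hh
        · exact ia
        · rw [Set.mem_singleton_iff] at hh; rw [hh]; exact iap
      have hvS : v ∈ S := by
        rcases hvA with rfl | hh
        · exact ha
        · rw [Set.mem_singleton_iff] at hh; rw [hh]; exact hap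
      have hvpS : v + p ∈ S := by
        rcases hvA with rfl | hh
        · exact hap
        · rw [Set.mem_singleton_iff] at hh
          have : v + p = a := by
            rw [hh]; linear_combination (norm := module) ZModModule.add_self p
          rw [this]; exact ha
      have hvpL : InL p a (v + p) := inL_add_p.mpr hvL
      rw [ind_of_mem hvA, ind_of_mem hvS, ind_of_mem hvpS, ind_of_mem (hL1 v hvL hvS),
        ind_of_mem (hL1 _ hvpL hvpS), ind_of_mem (hL2 v hvL hvS), ind_of_mem (hL2 _ hvpL hvpS)]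
    · rw [ind_of_notMem hvA]
      by_cases hvS : v ∈ S
      · rcases hcov v hvS with hv1 | hv2
        · rw [hS1, hstep V1 v hv1, hstep V1 (v + p) (by rw [hπp]; exact hv1)]
          omega
        · rw [hS2, hstep V2 v hv2, hstep V2 (v + p) (by rw [hπp]; exact hv2)]
          omega
      · rw [ind_of_notMem hvS]; omega
  -- the ranks
  have hr := finrank_sup_add_finrank_inf_eq (span (ZMod 2) S1) (span (ZMod 2) S2)
  have hsup : Module.finrank (ZMod 2) (span (ZMod 2) S1 ⊔ span (ZMod 2) S2 :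
      Submodule (ZMod 2) V) ≤ Module.finrank (ZMod 2) (span (ZMod 2) S) := by
    apply Submodule.finrank_mono
    exact sup_le (Submodule.span_mono fun s hs => hs.1) (Submodule.span_mono fun s hs => hs.1)
  have hU1 : span (ZMod 2) S1 ≤ V1.comap π := Submodule.span_le.mpr fun s hs => hs.2
  have hU2 : span (ZMod 2) S2 ≤ V2.comap π := Submodule.span_le.mpr fun s hs => hs.2
  have hinf' : Module.finrank (ZMod 2) (span (ZMod 2) S1 ⊓ span (ZMod 2) S2 :
      Submodule (ZMod 2) V) ≤ 2 := by
    refine le_trans ?_ (finrank_pair hp0 ha0 hapne).le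
    apply Submodule.finrank_mono
    rintro v ⟨h1, h2⟩
    rw [mem_span_pair_iff_inL]
    exact hinf v (hU1 h1) (hU2 h2)
  have hpair : ∀ (T : Set V) (w : V), p ∈ T → a ∈ T → w ∈ T → ¬ InL p a w →
      3 ≤ Module.finrank (ZMod 2) (span (ZMod 2) T) := by
    intro T w h1 h2 h3 h4
    have hlt : span (ZMod 2) {p, a} < span (ZMod 2) T := by
      rw [SetLike.lt_iff_le_and_exists]
      refine ⟨?_, w, Submodule.subset_span h3, ?_⟩
      · rw [Submodule.span_le]
        rintro v (rfl | hv)
        · exact Submodule.subset_span h1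
        · rw [Set.mem_singleton_iff] at hv; rw [hv]; exact Submodule.subset_span h2
      · rw [mem_span_pair_iff_inL]; exact h4
    have := Submodule.finrank_lt_finrank_of_lt hlt
    rw [finrank_pair hp0 ha0 hapne] at this
    omega
  have hx1 : π x ∈ V1 := (hcov x hx).resolve_right hxV
  have hy2 : π y ∈ V2 := (hcov y hy).resolve_left hyV
  have hxL : ¬ InL p a x := fun hh => hxV (by rw [hπL x hh]; exact V2.zero_mem)
  have hyL : ¬ InL p a y := fun hh => hyV (by rw [hπL y hh]; exact V1.zero_mem)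
  have hr1 := hpair S1 x (hL1 p ip h.hp) (hL1 a ia ha) ⟨hx, hx1⟩ hxL
  have hr2 := hpair S2 y (hL2 p ip h.hp) (hL2 a ia ha) ⟨hy, hy2⟩ hyL
  have hrS := h.hr
  set r1 := Module.finrank (ZMod 2) (span (ZMod 2) S1) with hr1'
  set r2 := Module.finrank (ZMod 2) (span (ZMod 2) S2) with hr2'
  have hb1 := h.ih (r1 - 1) (by omega) (by omega) V S1 p (fun hh => h.h0 hh.1)
    (hL1 p ip h.hp) (fun hh => h.hK (hh.mono fun s hs => hs.1)) (by omega)
  have hb2 := h.ih (r2 - 1) (by omega) (by omega) V S2 p (fun hh => h.h0 hh.1)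
    (hL2 p ip h.hp) (fun hh => h.hK (hh.mono fun s hs => hs.1)) (by omega)
  have := h.hbig
  omega

end

end Pool.Agent.H690K5
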