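import Pool.Agent.H690K5.Min
set_option autoImplicit false
set_option linter.unusedSectionVars false
set_option linter.style.haveILetI false

/-!
# Neighbours of a full line in a minimal counterexample
-/

namespace Pool.Agent.H690K5
open Submodule

section
variable {V : Type} [AddCommGroup V] [Module (ZMod 2) V] [Finite V]

theorem Cex.four_three {ρ : ℕ} {S : Set V} {p : V} (h : Cex ρ S p) {a : V} (ha : a ∈ S)
    (hap : a + p ∈ S) {v0 v1 : V} (h0L : ¬ InL p a v0) (f0 : v0 ∈ S) (f1 : v0 + p ∈ S)
    (f2 : v0 + a ∈ S) (f3 : v0 + a + p ∈ S) (h1L : ¬ InL p a v1) (h01 : ¬ InL p a (v1 + v0))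
    (g0 : v1 ∈ S) (g1 : v1 + p ∈ S) (g2 : v1 + a ∈ S) : False := by
  apply h.hK
  have hne : v1 ≠ v0 := by
    rintro rfl
    apply h01
    rw [ZModModule.add_self]; exact Or.inl rfl
  apply k5_of_path (p := p) (a := a) (x := v1) {v0} h.hp ha hap
    (pa_indep h.p_ne (h.a_ne_zero ha) (h.a_ne_p hap)) g0 g1 g2 (by simpa using f0)
    (by simpa using hne)
  · rw [LinearIndepOn.pair_iff _ hne]
    intro s t hst
    rw [← map_smul, ← map_smul, ← map_add, mkQ_pair_eq_zero_iff] at hst
    rcases zmod2_cases s with rfl | rfl <;> rcases zmod2_cases t with rfl | rfl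
    · exact ⟨rfl, rfl⟩
    · exfalso; apply h0L; simpa using hst
    · exfalso; apply h1L; simpa using hst
    · exfalso; apply h01; simpa using hst
  · intro V1 V2 hd hcov hx
    refine ⟨v0, rfl, ?_⟩
    intro h2
    rcases h.conn ha hap V1 V2 hd hcov with h3 | h3
    · exact h0L (mkQ_pair_eq_zero_iff.mp ((Submodule.disjoint_def.mp hd) _ (h3 v0 f0) h2))
    · exact h1L (mkQ_pair_eq_zero_iff.mp ((Submodule.disjoint_def.mp hd) _ hx (h3 v1 g0)))
  · intro d hd C _ _
    rw [Set.mem_singleton_iff] at hd
    rw [hd]
    exact ⟨InM.of_mem _ f0, InM.of_mem _ f1, InM.of_mem _ f2, InM.of_mem _ f3⟩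

/-- number of elements among the lifts -/
noncomputable def cnt (S : Set V) (p a v : V) : ℕ :=
  ind S v + ind S (v + p) + ind S (v + a) + ind S (v + a + p)

theorem mem_of_ind {S : Set V} {v : V} (h : ind S v = 1) : v ∈ S := by
  by_contra hn
  rw [ind_of_notMem hn] at h
  omega

theorem exists_rep {S : Set V} {p a v : V} (h : 3 ≤ cnt S p a v) :
    ∃ x, InL p a (x + v) ∧ x ∈ S ∧ x + p ∈ S ∧ x + a ∈ S := by
  have n1 : v + p + p = v := by linear_combination (norm := module) ZModModule.add_self p
  have n2 : v + a + a = v := by linear_combination (norm := module) ZModModule.add_self a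
  have n3 : v + p + a = v + a + p := by abel
  have n4 : v + a + p + p = v + a := by
    linear_combination (norm := module) ZModModule.add_self p
  have n5 : v + a + p + a = v + p := by
    linear_combination (norm := module) ZModModule.add_self a
  have l0 : InL p a (v + v) := Or.inl (ZModModule.add_self v)
  have l1 : InL p a (v + p + v) := by
    have : v + p + v = v + v + p := by abel
    rw [this, inL_add_p]; exact l0
  have l2 : InL p a (v + a + v) := by
    have : v + a + v = v + v + a := by abel
    rw [this, inL_add_a]; exact l0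
  have l3 : InL p a (v + a + p + v) := by
    have : v + a + p + v = v + v + a + p := by abel
    rw [this, inL_add_p, inL_add_a]; exact l0
  unfold cnt at h
  rcases ind_cases S v with h1 | h1
  · have h2 : ind S (v + p) = 1 := by have := ind_cases S (v + p); have := ind_cases S (v + a); have := ind_cases S (v + a + p); omega
    have h3 : ind S (v + a) = 1 := by have := ind_cases S (v + p); have := ind_cases S (v + a); have := ind_cases S (v + a + p); omega
    have h4 : ind S (v + a + p) = 1 := by have := ind_cases S (v + p); have := ind_cases S (v + a); have := ind_cases S (v + a + p); omega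
    refine ⟨v + a + p, l3, mem_of_ind h4, ?_, ?_⟩
    · rw [n4]; exact mem_of_ind h3
    · rw [n5]; exact mem_of_ind h2
  rcases ind_cases S (v + p) with h2 | h2
  · have h3 : ind S (v + a) = 1 := by have := ind_cases S (v + a); have := ind_cases S (v + a + p); omega
    have h4 : ind S (v + a + p) = 1 := by have := ind_cases S (v + a); have := ind_cases S (v + a + p); omega
    refine ⟨v + a, l2, mem_of_ind h3, mem_of_ind h4, ?_⟩
    rw [n2]; exact mem_of_ind h1
  rcases ind_cases S (v + a) with h3 | h3
  · have h4 : ind S (v + a + p) = 1 := by have := ind_cases S (v + a + p); omega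
    refine ⟨v + p, l1, mem_of_ind h2, ?_, ?_⟩
    · rw [n1]; exact mem_of_ind h1
    · rw [n3]; exact mem_of_ind h4
  · exact ⟨v, l0, mem_of_ind h1, mem_of_ind h2, mem_of_ind h3⟩

theorem pen_eq {S : Set V} {p a v : V} (h : ¬ InL p a v) :
    pen S p a v = if cnt S p a v = 3 then 2 else if cnt S p a v = 4 then 6 else 0 := by
  unfold pen cnt
  rw [if_neg h]

theorem pen_eq_zero {S : Set V} {p a v : V} (h : InL p a v) : pen S p a v = 0 := by
  unfold pen
  rw [if_pos h]

theorem cnt_le {S : Set V} {p a v : V} : cnt S p a v ≤ 4 := by
  unfold cnt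
  have := ind_cases S v
  have := ind_cases S (v + p)
  have := ind_cases S (v + a)
  have := ind_cases S (v + a + p)
  omega

/-- No class outside the full line has all four lifts. -/
theorem Cex.cnt_le_three {ρ : ℕ} {S : Set V} {p : V} (h : Cex ρ S p) {a : V} (ha : a ∈ S)
    (hap : a + p ∈ S) {v : V} (hv : ¬ InL p a v) : cnt S p a v ≤ 3 := by
  classical
  by_contra hcon
  have h4 : cnt S p a v = 4 := by have := cnt_le (S := S) (p := p) (a := a) (v := v); omega
  have f0 : v ∈ S := by
    apply mem_of_ind; unfold cnt at h4
    have := ind_cases S v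
    have := ind_cases S (v + p)
    have := ind_cases S (v + a)
    have := ind_cases S (v + a + p)
    omega
  have f1 : v + p ∈ S := by
    apply mem_of_ind; unfold cnt at h4
    have := ind_cases S v
    have := ind_cases S (v + p)
    have := ind_cases S (v + a)
    have := ind_cases S (v + a + p)
    omega
  have f2 : v + a ∈ S := by
    apply mem_of_ind; unfold cnt at h4
    have := ind_cases S v
    have := ind_cases S (v + p)
    have := ind_cases S (v + a)
    have := ind_cases S (v + a + p)
    omega
  have f3 : v + a + p ∈ S := by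
    apply mem_of_ind; unfold cnt at h4
    have := ind_cases S v
    have := ind_cases S (v + p)
    have := ind_cases S (v + a)
    have := ind_cases S (v + a + p)
    omega
  set K : Set V := {w | InL p a (w + v)} with hK
  have hKcard : K.ncard ≤ 4 := by
    have : K ⊆ ((({v, v + p, v + a, v + a + p} : Finset V)) : Set V) := by
      intro w hw
      have e : ∀ u : V, w + v = u → w = v + u := by
        intro u hu
        rw [← hu]; linear_combination (norm := module) - ZModModule.add_self v
      simp only [Finset.coe_insert, Finset.coe_singleton, Set.mem_insert_iff,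
        Set.mem_singleton_iff]
      rcases hw with hw | hw | hw | hw
      · left; rw [e _ hw, add_zero]
      · right; left; exact e _ hw
      · right; right; left; exact e _ hw
      · right; right; right; rw [e _ hw]; abel
    calc K.ncard ≤ (((({v, v + p, v + a, v + a + p} : Finset V)) : Set V)).ncard :=
          Set.ncard_le_ncard this (Set.toFinite _)
      _ = ({v, v + p, v + a, v + a + p} : Finset V).card := Set.ncard_coe_finset _
      _ ≤ 4 := Finset.card_le_four
  have hpen : tot (pen S p a) ≤ 6 * K.ncard := by
    rw [← tot_indS, ← tot_mul]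
    apply tot_mono
    intro w
    by_cases hwL : InL p a w
    · rw [pen_eq_zero hwL]; omega
    by_cases hwK : w ∈ K
    · rw [ind_of_mem hwK, pen_eq hwL]
      split_ifs <;> omega
    · have hlt : ¬ 3 ≤ cnt S p a w := by
        intro h3
        obtain ⟨x, hxw, g0, g1, g2⟩ := exists_rep h3
        have hxL : ¬ InL p a x := by
          intro hx
          apply hwL
          have : w = x + (x + w) := by linear_combination (norm := module) - ZModModule.add_self x
          rw [this]
          rw [← mem_span_pair_iff_inL] at hx hxw ⊢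
          exact Submodule.add_mem _ hx hxw
        have hxv : ¬ InL p a (x + v) := by
          intro hx
          apply hwK
          have : w + v = (x + w) + (x + v) := by
            linear_combination (norm := module) - ZModModule.add_self x
          show InL p a (w + v)
          rw [this]
          rw [← mem_span_pair_iff_inL] at hx hxw ⊢
          exact Submodule.add_mem _ hxw hx
        exact h.four_three ha hap hv f0 f1 f2 f3 hxL hxv g0 g1 g2
      rw [pen_eq hwL, if_neg (by omega), if_neg (by omega)]
      omega
  have := h.pen_ge ha hap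
  omega

/-- The neighbours of a full line, as vectors in the complement `ker φ` of `p`. -/
def Nb (S : Set V) (p a : V) (φ : V →ₗ[ZMod 2] ZMod 2) : Set V :=
  {x | φ x = 0 ∧ ¬ InL p a x ∧ x ∈ S ∧ x + p ∈ S ∧ (x + a ∈ S ∨ x + a + p ∈ S)}

theorem Cex.four_le_nb {ρ : ℕ} {S : Set V} {p : V} (h : Cex ρ S p) {a : V} (ha : a ∈ S)
    (hap : a + p ∈ S) {φ : V →ₗ[ZMod 2] ZMod 2} (hφp : φ p = 1) (hφa : φ a = 0) :
    4 ≤ (Nb S p a φ).ncard := by
  classical
  have key : tot (pen S p a) = tot (fun v => 2 * (ind (Nb S p a φ) v + ind (Nb S p a φ) (v + p) +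
      ind (Nb S p a φ) (v + a) + ind (Nb S p a φ) (v + a + p))) := by
    apply tot_congr
    intro v
    by_cases hv : InL p a v
    · rw [pen_eq_zero hv, ind_of_notMem, ind_of_notMem, ind_of_notMem, ind_of_notMem]
      · intro hh; apply hh.2.1; rw [inL_add_p, inL_add_a]; exact hv
      · intro hh; apply hh.2.1; rw [inL_add_a]; exact hv
      · intro hh; apply hh.2.1; rw [inL_add_p]; exact hv
      · intro hh; exact hh.2.1 hv
    · have h3 := h.cnt_le_three ha hap hv
      rw [pen_eq hv]
      have n1 : v + p + p = v := by linear_combination (norm := module) ZModModule.add_self p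
      have n2 : v + a + a = v := by linear_combination (norm := module) ZModModule.add_self a
      have n3 : v + p + a = v + a + p := by abel
      have n4 : v + a + p + p = v + a := by
        linear_combination (norm := module) ZModModule.add_self p
      have n5 : v + a + p + a = v + p := by
        linear_combination (norm := module) ZModModule.add_self a
      have m1 : v ∈ Nb S p a φ ↔ φ v = 0 ∧ v ∈ S ∧ v + p ∈ S ∧ (v + a ∈ S ∨ v + a + p ∈ S) := by
        unfold Nb
        simp only [Set.mem_ofPred_eq]
        tauto
      have m2 : v + p ∈ Nb S p a φ ↔ φ v + 1 = 0 ∧ v + p ∈ S ∧ v ∈ S ∧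
          (v + a + p ∈ S ∨ v + a ∈ S) := by
        unfold Nb
        simp only [Set.mem_ofPred_eq, inL_add_p, n1, n3, n4, map_add, hφp]
        tauto
      have m3 : v + a ∈ Nb S p a φ ↔ φ v = 0 ∧ v + a ∈ S ∧ v + a + p ∈ S ∧
          (v ∈ S ∨ v + p ∈ S) := by
        unfold Nb
        simp only [Set.mem_ofPred_eq, inL_add_a, n2, map_add, hφa, add_zero]
        tauto
      have m4 : v + a + p ∈ Nb S p a φ ↔ φ v + 1 = 0 ∧ v + a + p ∈ S ∧ v + a ∈ S ∧
          (v + p ∈ S ∨ v ∈ S) := by
        unfold Nb
        simp only [Set.mem_ofPred_eq, inL_add_a, inL_add_p, n1, n4, n5, map_add, hφa, hφp, add_zero]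
        tauto
      unfold ind
      rw [m1, m2, m3, m4]
      unfold cnt ind at h3 ⊢
      rcases zmod2_cases (φ v) with hφ | hφ <;> by_cases q1 : v ∈ S <;> by_cases q2 : v + p ∈ S <;>
        by_cases q3 : v + a ∈ S <;> by_cases q4 : v + a + p ∈ S <;>
        simp [hφ, q1, q2, q3, q4] at h3 ⊢ <;> decide
  have h1 := h.pen_ge ha hap
  have sym : ∀ f : V → ℕ, tot (fun v => f v + f (v + p) + f (v + a) + f (v + a + p)) =
      4 * tot f := by
    intro f
    have t1 := tot_translate f p
    have t2 := tot_translate f a
    have t3 : tot (fun v => f (v + a + p)) = tot f := by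
      have := tot_translate f (a + p)
      rw [← this]; apply tot_congr; intro v; rw [add_assoc]
    rw [tot_add (fun v => f v + f (v + p) + f (v + a)) (fun v => f (v + a + p)),
      tot_add (fun v => f v + f (v + p)) (fun v => f (v + a)), tot_add, t1, t2, t3]
    ring
  rw [tot_mul 2 (fun v => ind (Nb S p a φ) v + ind (Nb S p a φ) (v + p) +
      ind (Nb S p a φ) (v + a) + ind (Nb S p a φ) (v + a + p)), sym, tot_indS] at key
  omega

end

end Pool.Agent.H690K5
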