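import Pool.Agent.H690K5.Dep
set_option autoImplicit false
set_option linter.unusedSectionVars false
set_option linter.style.haveILetI false

/-!
# The bound for configurations without an `M(K₅)`-minor
-/

namespace Pool.Agent.H690K5
open Submodule

theorem bound_one : Bound 1 := by
  classical
  intro V _ _ _ S p h0 hp _ hr
  have hp0 : p ≠ 0 := fun hh => h0 (hh ▸ hp)
  set X : Set V := (span (ZMod 2) S : Set V) with hX
  have hXcard : X.ncard ≤ 4 := by
    have h1 : Nat.card (span (ZMod 2) S) = 2 ^ Module.finrank (ZMod 2) (span (ZMod 2) S) := by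
      rw [Module.natCard_eq_pow_finrank (K := ZMod 2), Nat.card_eq_fintype_card, ZMod.card]
    have h2 : X.ncard = Nat.card (span (ZMod 2) S) := rfl
    rw [h2, h1]
    calc 2 ^ Module.finrank (ZMod 2) (span (ZMod 2) S) ≤ 2 ^ (1 + 1) :=
          Nat.pow_le_pow_right (by norm_num) hr
      _ = 4 := by norm_num
  have hpX : p ∈ X := Submodule.subset_span hp
  have h0X : (0 : V) ∈ X := Submodule.zero_mem _
  have hcard2 : (X \ {0, p}).ncard + 2 = X.ncard := by
    have h1 : ({0, p} : Set V) ⊆ X := by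
      rintro v (rfl | hv)
      · exact h0X
      · rw [Set.mem_singleton_iff] at hv; rw [hv]; exact hpX
    have h2 := Set.ncard_sdiff_add_ncard_of_subset h1 (Set.toFinite _)
    rw [Set.ncard_pair hp0.symm] at h2
    exact h2
  have hphi : Phi2 S p ≤ 3 * (X \ {0, p}).ncard := by
    rw [← tot_indS, ← tot_mul]
    apply tot_mono
    intro v
    by_cases hv : v = 0 ∨ v = p
    · rw [if_pos hv]; omega
    · rw [if_neg hv]
      by_cases hvS : v ∈ S
      · have : v ∈ X \ {0, p} := ⟨Submodule.subset_span hvS, by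
          simp only [Set.mem_insert_iff, Set.mem_singleton_iff]; exact hv⟩
        rw [ind_of_mem this, ind_of_mem hvS]
        have := ind_cases S (v + p)
        omega
      · rw [ind_of_notMem hvS]; omega
  omega

theorem bound_all : ∀ ρ, 1 ≤ ρ → Bound ρ := by
  classical
  intro ρ
  induction ρ using Nat.strong_induction_on with
  | _ ρ ih =>
  intro hρ
  rcases Nat.eq_or_lt_of_le hρ with h1 | h2
  · rw [← h1]; exact bound_one
  intro V _ _ _ S p h0 hp hK hr
  by_contra hcon
  have h : Cex ρ S p := ⟨h2, fun ρ' h3 h4 => ih ρ' h4 h3, h0, hp, hK, hr, by omega⟩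
  -- the functional
  obtain ⟨φ, hφ⟩ := exists_values (B := {p}) (by
    rw [LinearIndepOn, ]
    exact (linearIndepOn_singleton_iff (ZMod 2)).mpr h.p_ne) (fun _ => 1)
  have hφp : φ p = 1 := hφ p rfl
  set A : Finset V := {x | x ∈ S ∧ φ x = 0 ∧ x + p ∈ S}.toFinite.toFinset with hA
  have hAmem : ∀ x, x ∈ A ↔ x ∈ S ∧ φ x = 0 ∧ x + p ∈ S := fun x => by
    rw [hA, Set.Finite.mem_toFinset]; rfl
  have hnot := h.not_indep hφp A hAmem
  -- a minimal circuit
  have hex : ∃ D ⊆ A, D.Nonempty ∧ ∑ v ∈ D, v = 0 := by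
    by_contra hcon2
    push Not at hcon2
    exact hnot (indep_of_sums fun D' h1 h2 => hcon2 D' h1 h2)
  obtain ⟨D, hD, hDmin⟩ := Finset.exists_min_image
    (A.powerset.filter (fun D => D.Nonempty ∧ ∑ v ∈ D, v = 0)) Finset.card (by
      obtain ⟨D, h1, h2, h3⟩ := hex
      exact ⟨D, Finset.mem_filter.mpr ⟨Finset.mem_powerset.mpr h1, h2, h3⟩⟩)
  rw [Finset.mem_filter, Finset.mem_powerset] at hD
  obtain ⟨hDA, hDne, hsum⟩ := hD
  have hmin : ∀ D' ⊆ A, D'.Nonempty → ∑ v ∈ D', v = 0 → D.card ≤ D'.card := fun D' h1 h2 h3 =>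
    hDmin D' (Finset.mem_filter.mpr ⟨Finset.mem_powerset.mpr h1, h2, h3⟩)
  have hDmem : ∀ x ∈ D, x ∈ S ∧ φ x = 0 ∧ x + p ∈ S := fun x hx => (hAmem x).mp (hDA hx)
  have hprop : ∀ D' ⊆ D, D'.Nonempty → D' ≠ D → ∑ v ∈ D', v ≠ 0 := by
    intro D' h1 h2 h3 h4
    have := hmin D' (h1.trans hDA) h2 h4
    have := Finset.card_lt_card (Finset.ssubset_iff_subset_ne.mpr ⟨h1, h3⟩)
    omega
  have hcard : 4 ≤ D.card := by
    by_contra hlt
    have hpos := hDne.card_pos
    obtain h1 | h1 | h1 : D.card = 1 ∨ D.card = 2 ∨ D.card = 3 := by omega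
    · obtain ⟨x, rfl⟩ := Finset.card_eq_one.mp h1
      rw [Finset.sum_singleton] at hsum
      exact h0 (hsum ▸ (hDmem x (Finset.mem_singleton_self _)).1)
    · obtain ⟨x, y, hxy, rfl⟩ := Finset.card_eq_two.mp h1
      rw [Finset.sum_pair hxy] at hsum
      apply hxy
      linear_combination (norm := module) hsum - ZModModule.add_self y
    · obtain ⟨x, y, z, hxy, hxz, hyz, rfl⟩ := Finset.card_eq_three.mp h1
      rw [Finset.sum_insert (by simp [hxy, hxz]), Finset.sum_pair hyz] at hsum
      obtain ⟨hxS, hxφ, hxp⟩ := hDmem x (by simp)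
      obtain ⟨hyS, hyφ, hyp⟩ := hDmem y (by simp)
      obtain ⟨hzS, hzφ, hzp⟩ := hDmem z (by simp)
      have e1 : x + y = z := by
        linear_combination (norm := module) hsum - ZModModule.add_self z
      have hxL : ¬ InL p y x := by
        rintro (hh | hh | hh | hh)
        · exact h0 (hh ▸ hxS)
        · rw [hh, hφp] at hxφ; exact one_ne_zero hxφ
        · exact hxy hh
        · rw [hh, map_add, hyφ, hφp] at hxφ; simp at hxφ
      have := h.cnt_le_three hyS hyp hxL
      unfold cnt at this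
      rw [e1, ind_of_mem hxS, ind_of_mem hxp, ind_of_mem hzS, ind_of_mem hzp] at this
      omega
  by_cases hin : ∀ d ∈ D, ∀ x ∈ Nb S p d φ, x ∈ D
  · exact h.no_inside hφp D hDne hDmem hsum hprop hin
  · push Not at hin
    obtain ⟨d, hd, x, hx, hxD⟩ := hin
    have hxA : x ∈ A := (hAmem x).mpr ⟨hx.2.2.1, hx.1, hx.2.2.2.1⟩
    refine h.no_outside hφp D hDmem hsum hcard hprop hd hx ?_
    intro hspan
    obtain ⟨D', hD', hxs⟩ := sum_of_mem_span hspan
    have h5 : ∑ v ∈ D \ D', v + ∑ v ∈ D', v = 0 := by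
      rw [Finset.sum_sdiff hD', hsum]
    have h6 : ∑ v ∈ D \ D', v = x := by
      rw [hxs]
      linear_combination (norm := module) h5 - ZModModule.add_self (∑ v ∈ D', v)
    have h7 := hmin (insert x D') (Finset.insert_subset hxA (hD'.trans hDA))
      (Finset.insert_nonempty _ _) (by
        rw [Finset.sum_insert (fun hh => hxD (hD' hh)), ← hxs]
        exact ZModModule.add_self x)
    have h8 := hmin (insert x (D \ D')) (Finset.insert_subset hxA
      (Finset.sdiff_subset.trans hDA)) (Finset.insert_nonempty _ _) (by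
        rw [Finset.sum_insert (fun hh => hxD (Finset.sdiff_subset hh)), h6]
        exact ZModModule.add_self x)
    rw [Finset.card_insert_of_notMem (fun hh => hxD (hD' hh))] at h7
    rw [Finset.card_insert_of_notMem (fun hh => hxD (Finset.sdiff_subset hh)),
      Finset.card_sdiff_of_subset hD'] at h8
    have := Finset.card_le_card hD'
    omega

/-- A set of nonzero binary vectors of rank `r ≥ 2` without an `M(K₅)`-minor has at most `6 r - 8`
elements. -/
theorem card_le {V : Type} [AddCommGroup V] [Module (ZMod 2) V] [Finite V] (S : Set V)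
    (h0 : (0 : V) ∉ S) (hK : ¬ HasK5 S) :
    S.ncard ≤ 6 * Module.finrank (ZMod 2) (span (ZMod 2) S) := by
  rcases S.eq_empty_or_nonempty with rfl | ⟨p, hp⟩
  · simp
  have hp0 : p ≠ 0 := fun hh => h0 (hh ▸ hp)
  set r := Module.finrank (ZMod 2) (span (ZMod 2) S) with hr
  rcases Nat.lt_or_ge r 2 with h1 | h1
  · -- rank at most one
    have hr1 : 1 ≤ r := by
      rw [Nat.one_le_iff_ne_zero]
      intro hh
      rw [hr, Submodule.finrank_eq_zero] at hh
      have := Submodule.subset_span (R := ZMod 2) hp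
      rw [hh] at this
      exact hp0 (by simpa using this)
    have h2 : Nat.card (span (ZMod 2) S) = 2 ^ r := by
      rw [Module.natCard_eq_pow_finrank (K := ZMod 2), Nat.card_eq_fintype_card, ZMod.card]
    have h3 : S.ncard ≤ Nat.card (span (ZMod 2) S) :=
      Set.ncard_le_ncard Submodule.subset_span (Set.toFinite _)
    have h4 : r = 1 := by omega
    rw [h4] at h2
    omega
  · have h2 := bound_all (r - 1) (by omega) V S p h0 hp hK (by omega)
    have h3 := two_ncard_le_phi2 h0 hp
    omega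

end Pool.Agent.H690K5
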